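import Pool.Agent.Helper158.PD.Fin

set_option autoImplicit false
set_option linter.unusedVariables false

namespace Pool.Agent.Helper158.TC

open Set Topology
open Pool.Agent.Helper158.PD
open Pool.Agent.Helper922.HB.Sc (Sing sface altd vert)
open scoped Pointwise

/-- `g` preserves the fixed point set of `s` -/
def Pres {G P : Type} [Group G] [MulAction G P] (s g : G) : Prop :=
  ∀ q : P, s • q = q ↔ s • (g • q) = g • q

/-- the group theoretic input: stabilizers of finite subsets of `P` -/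
structure Good (G P : Type) [Group G] [MulAction G P] [DecidableEq P] : Prop where
  /-- no torsion -/
  tf : ∀ g : G, g ≠ 1 → ∀ n : ℤ, n ≠ 0 → g ^ n ≠ 1
  /-- setwise stabilizers of finite sets are pointwise stabilizers -/
  fix : ∀ (t : Finset P) (g : G), g • t = t → ∀ p ∈ t, g • p = p
  /-- stabilizers of at least two points -/
  line : ∀ t : Finset P, 2 ≤ t.card → ∃ s : G, (∀ g : G, g • t = t ↔ ∃ n : ℤ, g = s ^ n) ∧
    (s ≠ 1 →
      (∀ t' : Finset P, 2 ≤ t'.card → (∀ q ∈ t', s • q = q) → ∀ g : G, g • t' = t' →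
        ∃ n : ℤ, g = s ^ n) ∧
      ∃ (s' : G) (θ : G → F2), Pres (P := P) s s' ∧
        (∀ g : G, Pres (P := P) s g → ∃ n : ℤ, ∀ q : P, s • q = q → g • q = s' ^ n • q) ∧
        (∀ n : ℤ, n ≠ 0 → ∀ q : P, s • q = q → s' ^ n • q ≠ q) ∧
        (∀ g g' : G, Pres (P := P) s g → Pres (P := P) s g' → θ (g * g') = θ g + θ g') ∧ θ s = 1)

section

variable {G P : Type} [Group G] [MulAction G P] [DecidableEq P]
variable {H : Type} [TopologicalSpace H] [MulAction G H] [ContinuousConstSMul G H]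

/-- the vertical differential -/
noncomputable def dv {p : ℕ} (Ξ : Finset P → Co H p) : Finset P → Co H p :=
  fun t => ∑ x ∈ t, Ξ (t.erase x)

/-- equivariance -/
def Eqv (G : Type) {P H : Type} [Group G] [MulAction G P] [DecidableEq P] [TopologicalSpace H]
    [MulAction G H] [ContinuousConstSMul G H] {p : ℕ} (Ξ : Finset P → Co H p) : Prop :=
  ∀ (g : G) (t : Finset P) (σ : Sing H p), Ξ (g • t) (g • σ) = Ξ t σ

/-- invariance of a cochain under the stabilizer of a finite set -/
def Sinv (G : Type) {P H : Type} [Group G] [MulAction G P] [DecidableEq P] [TopologicalSpace H]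
    [MulAction G H] [ContinuousConstSMul G H] {p : ℕ} (t : Finset P) (u : Co H p) : Prop :=
  ∀ g : G, g • t = t → ∀ σ : Sing H p, u (g • σ) = u σ

/-- acyclicity -/
def Acyc (H : Type) [TopologicalSpace H] : Prop :=
  ∀ (n : ℕ) (u : Co H (n + 1)), dl (n + 1) u = 0 → ∃ v : Co H n, dl n v = u

/-- connectedness -/
def Conn (H : Type) [TopologicalSpace H] : Prop :=
  ∀ v : Co H 0, dl 0 v = 0 → ∀ σ σ' : Sing H 0, v σ = v σ'

/-- equivariant choice -/
theorem eq_choice {G T V : Type} [Group G] [MulAction G T] (act : G → V → V)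
    (act_one : ∀ v, act 1 v = v) (act_mul : ∀ g g' v, act (g * g') v = act g (act g' v))
    (R : T → V → Prop) (hR : ∀ g t v, R t v → R (g • t) (act g v))
    (h : ∀ t, ∃ v, R t v ∧ ∀ g : G, g • t = t → act g v = v) :
    ∃ f : T → V, (∀ (g : G) (t : T), f (g • t) = act g (f t)) ∧ ∀ t, R t (f t) := by
  classical
  choose v hv using h
  letI : Setoid T := MulAction.orbitRel G T
  have hrep : ∀ t : T, ∃ g : G, g • (Quotient.out (Quotient.mk (MulAction.orbitRel G T) t)) = t := by
    intro t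
    have h1 : (MulAction.orbitRel G T) (Quotient.out (Quotient.mk (MulAction.orbitRel G T) t)) t :=
      Quotient.mk_out (s := MulAction.orbitRel G T) t
    have h2 := MulAction.orbitRel_apply.1 ((MulAction.orbitRel G T).symm h1)
    exact h2
  choose γ hγ using hrep
  have hinv : ∀ (g : G) (w : V), act g⁻¹ (act g w) = w := by
    intro g w
    rw [← act_mul, inv_mul_cancel, act_one]
  refine ⟨fun t => act (γ t) (v (Quotient.out (Quotient.mk (MulAction.orbitRel G T) t))), ?_, ?_⟩
  · intro g t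
    have hq : Quotient.mk (MulAction.orbitRel G T) (g • t) =
        Quotient.mk (MulAction.orbitRel G T) t := by
      apply Quotient.sound
      change (MulAction.orbitRel G T) (g • t) t
      rw [MulAction.orbitRel_apply]
      exact MulAction.mem_orbit t g
    have ha := hγ (g • t)
    have hb := hγ t
    change act (γ (g • t)) (v (Quotient.out (Quotient.mk (MulAction.orbitRel G T) (g • t)))) =
      act g (act (γ t) (v (Quotient.out (Quotient.mk (MulAction.orbitRel G T) t))))
    rw [hq] at ha ⊢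
    generalize Quotient.out (Quotient.mk (MulAction.orbitRel G T) t) = r at ha hb ⊢
    have hst : ((g * γ t)⁻¹ * γ (g • t)) • r = r := by
      rw [mul_smul, ha, inv_smul_eq_iff, mul_smul, hb]
    have h3 := (hv r).2 _ hst
    have h4 : γ (g • t) = (g * γ t) * ((g * γ t)⁻¹ * γ (g • t)) := by
      rw [mul_inv_cancel_left]
    rw [h4, act_mul, h3, act_mul]
  · intro t
    have h5 := hR (γ t) _ _ (hv (Quotient.out (Quotient.mk (MulAction.orbitRel G T) t))).1
    rw [hγ t] at h5
    exact h5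

/-- equivariant choice for cochains -/
theorem eq_cochain {p : ℕ} (R : Finset P → Co H p → Prop)
    (hR : ∀ (g : G) t v, R t v → R (g • t) (fun σ => v (g⁻¹ • σ)))
    (h : ∀ t, ∃ v, R t v ∧ Sinv G t v) :
    ∃ f : Finset P → Co H p, Eqv G f ∧ ∀ t, R t (f t) := by
  obtain ⟨f, h1, h2⟩ := eq_choice (G := G) (T := Finset P) (V := Co H p)
    (fun g v σ => v (g⁻¹ • σ)) (fun v => by funext σ; simp) (fun g g' v => by
      funext σ
      change v ((g * g')⁻¹ • σ) = v (g'⁻¹ • (g⁻¹ • σ))
      rw [mul_inv_rev, mul_smul]) R hR (fun t => by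
      obtain ⟨v, h3, h4⟩ := h t
      refine ⟨v, h3, fun g hg => ?_⟩
      funext σ
      refine h4 g⁻¹ ?_ σ
      rw [inv_smul_eq_iff, hg])
  refine ⟨f, ?_, h2⟩
  intro g t σ
  rw [h1 g t]
  change f t (g⁻¹ • (g • σ)) = f t σ
  rw [inv_smul_smul]

theorem vz_P (d : ℤ → F2) : ∃ P : ℤ → F2, ∀ k, P (k + 1) = P k + d k := by
  refine ⟨fun k => if 0 ≤ k then ∑ i ∈ Finset.range k.toNat, d i else
    ∑ i ∈ Finset.range (-k).toNat, d (-((i : ℤ) + 1)), fun k => ?_⟩
  beta_reduce
  rcases le_or_gt 0 k with hk | hk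
  · rw [if_pos hk, if_pos (by omega)]
    have e : (k + 1).toNat = k.toNat + 1 := by omega
    rw [e, Finset.sum_range_succ]
    have e2 : ((k.toNat : ℕ) : ℤ) = k := by omega
    rw [e2]
  · rw [if_neg (by omega : ¬ 0 ≤ k)]
    have e : (-k).toNat = (-(k + 1)).toNat + 1 := by omega
    rw [e, Finset.sum_range_succ]
    have e2 : -((((-(k + 1)).toNat : ℕ) : ℤ) + 1) = k := by omega
    rw [e2, add_assoc, CharTwo.add_self_eq_zero, add_zero]
    rcases eq_or_ne k (-1) with h | h
    · subst h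
      rfl
    · rw [if_neg (by omega)]

theorem vz_hom (hfree : ∀ (g : G) (y : H), g • y = y → g = 1) {n : ℕ} (s : G)
    (hs : ∀ k : ℤ, k ≠ 0 → s ^ k ≠ 1) (γ : Co H n) :
    ∃ γ' : Co H n, ∀ σ : Sing H n, γ' (s • σ) + γ' σ = γ σ := by
  let S : Setoid (Sing H n) :=
    { r := fun σ τ => ∃ k : ℤ, s ^ k • σ = τ
      iseqv :=
        { refl := fun σ => ⟨0, by rw [zpow_zero, one_smul]⟩
          symm := by
            rintro σ τ ⟨k, rfl⟩
            exact ⟨-k, by rw [smul_smul, ← zpow_add, neg_add_cancel, zpow_zero, one_smul]⟩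
          trans := by
            rintro σ τ ρ ⟨k, rfl⟩ ⟨j, rfl⟩
            exact ⟨j + k, by rw [smul_smul, ← zpow_add]⟩ } }
  have hrep : ∀ σ : Sing H n, ∃ k : ℤ, s ^ k • (Quotient.mk S σ).out = σ := fun σ =>
    Quotient.exact (Quotient.out_eq (Quotient.mk S σ))
  choose k hk using hrep
  have hP : ∀ r : Sing H n, ∃ P : ℤ → F2, ∀ j, P (j + 1) = P j + γ (s ^ j • r) := fun r =>
    vz_P (fun j => γ (s ^ j • r))
  choose P hP using hP
  have hmk : ∀ σ : Sing H n, Quotient.mk S (s • σ) = Quotient.mk S σ := fun σ =>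
    (Quotient.sound (⟨1, by rw [zpow_one]⟩ : ∃ k : ℤ, s ^ k • σ = s • σ)).symm
  have hk1 : ∀ σ : Sing H n, k (s • σ) = k σ + 1 := by
    intro σ
    have h1 := hk (s • σ)
    rw [hmk] at h1
    have h2 : s ^ (k σ + 1) • (Quotient.mk S σ).out = s • σ := by
      conv_rhs => rw [← hk σ]
      rw [smul_smul, ← zpow_one_add, add_comm (k σ) 1]
    have h3 : s ^ (k (s • σ) - (k σ + 1)) • (Quotient.mk S σ).out = (Quotient.mk S σ).out := by
      rw [sub_eq_neg_add, zpow_add, ← smul_smul, h1, ← h2, smul_smul, ← zpow_add,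
        neg_add_cancel, zpow_zero, one_smul]
    have h4 : s ^ (k (s • σ) - (k σ + 1)) = 1 := by
      apply hfree _ ((Quotient.mk S σ).out (vert n 0))
      exact DFunLike.congr_fun h3 (vert n 0)
    by_contra hne
    exact hs _ (sub_ne_zero.2 hne) h4
  refine ⟨fun σ => P (Quotient.mk S σ).out (k σ), fun σ => ?_⟩
  beta_reduce
  rw [hmk, hk1, hP, hk, add_comm (P _ _) (γ σ), add_assoc, CharTwo.add_self_eq_zero, add_zero]

theorem vz_dl {p : ℕ} (g : G) (u : Co H p) (σ : Sing H (p + 1)) :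
    dl p (fun τ => u (g • τ)) σ = dl p u (g • σ) := by
  rw [dl_apply, dl_apply]
  exact Finset.sum_congr rfl fun i _ => rfl

/-- invariant cocycles of an acyclic space with free action of an infinite cyclic (or trivial) group
have invariant primitives in degrees at least two -/
theorem vz (hacy : Acyc H) (hfree : ∀ (g : G) (y : H), g • y = y → g = 1) {n : ℕ} (s : G)
    (hs : s ≠ 1 → ∀ k : ℤ, k ≠ 0 → s ^ k ≠ 1) (u : Co H (n + 2)) (hu : dl (n + 2) u = 0)
    (hinv : ∀ σ : Sing H (n + 2), u (s • σ) = u σ) :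
    ∃ v : Co H (n + 1), dl (n + 1) v = u ∧ ∀ σ : Sing H (n + 1), v (s • σ) = v σ := by
  obtain ⟨v0, hv0⟩ := hacy (n + 1) u hu
  by_cases h1 : s = 1
  · exact ⟨v0, hv0, fun σ => by rw [h1, one_smul]⟩
  have hw : dl (n + 1) ((fun τ => v0 (s • τ)) + v0) = 0 := by
    rw [map_add]
    funext σ
    rw [Pi.add_apply, vz_dl, hv0, hinv, CharTwo.add_self_eq_zero]
    rfl
  obtain ⟨γ, hγ⟩ := hacy n _ hw
  obtain ⟨γ', hγ'⟩ := vz_hom hfree s (hs h1) γ
  refine ⟨v0 + dl n γ', ?_, fun σ => ?_⟩
  · rw [map_add, hv0, dl_dl, add_zero]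
  · have e1 : (fun τ => γ' (s • τ)) + γ' = γ := funext hγ'
    have e2 : dl n γ σ = v0 (s • σ) + v0 σ := congrFun hγ σ
    rw [← e1, map_add, Pi.add_apply, vz_dl] at e2
    rw [Pi.add_apply, Pi.add_apply]
    have e3 : ∀ a b c d : F2, a + b = c + d → c + a = d + b := by decide
    exact e3 _ _ _ _ e2

theorem dl_smul {p : ℕ} (g : G) (u : Co H p) (σ : Sing H (p + 1)) :
    dl p (fun τ => u (g • τ)) σ = dl p u (g • σ) := by
  rw [dl_apply, dl_apply]
  rfl


theorem dv_dv {p : ℕ} (Ξ : Finset P → Co H p) : dv (dv Ξ) = 0 := by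
  funext t
  change ∑ x ∈ t, ∑ y ∈ t.erase x, Ξ ((t.erase x).erase y) = 0
  rw [Finset.sum_sigma']
  refine Finset.sum_involution (fun a _ => ⟨a.2, a.1⟩) ?_ ?_ ?_ ?_
  · intro a _
    dsimp only
    rw [Finset.erase_right_comm (a := a.2) (b := a.1)]
    funext σ
    exact CharTwo.add_self_eq_zero _
  · intro a ha _ h
    rw [Finset.mem_sigma, Finset.mem_erase] at ha
    exact ha.2.1 (congrArg Sigma.fst h)
  · intro a ha
    rw [Finset.mem_sigma, Finset.mem_erase] at ha ⊢
    exact ⟨ha.2.2, Ne.symm ha.2.1, ha.1⟩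
  · intro a _
    rfl


theorem dl_dv {p : ℕ} (Ξ : Finset P → Co H p) (t : Finset P) :
    dl p (dv Ξ t) = dv (fun t => dl p (Ξ t)) t := by
  unfold Pool.Agent.Helper158.TC.dv
  rw [map_sum]


theorem Eqv.dv {p : ℕ} {Ξ : Finset P → Co H p} (h : Eqv G Ξ) : Eqv G (dv Ξ) := by
  intro g t σ
  change (∑ x ∈ g • t, Ξ ((g • t).erase x)) (g • σ) = (∑ x ∈ t, Ξ (t.erase x)) σ
  rw [Finset.sum_apply, Finset.sum_apply]
  have e : ∑ x ∈ g • t, Ξ ((g • t).erase x) (g • σ)
      = ∑ x ∈ t, Ξ ((g • t).erase (g • x)) (g • σ) := by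
    rw [Finset.smul_finset_def, Finset.sum_image]
    intro a _ b _ hab
    exact MulAction.injective g hab
  rw [e]
  refine Finset.sum_congr rfl fun x _ => ?_
  have e2 : (g • t).erase (g • x) = g • (t.erase x) := by
    rw [Finset.smul_finset_def, Finset.smul_finset_def, Finset.image_erase (MulAction.injective g)]
  rw [e2]
  exact h g (t.erase x) σ


theorem lam_cone (S : Set P) (p0 : P) (hp : p0 ∈ S) (k : ℕ) (φ : Finset P → F2)
    (hφ : ∀ t : Finset P, t.card = k + 2 → (t : Set P) ⊆ S → ∑ x ∈ t, φ (t.erase x) = 0) :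
    ∃ ψ : Finset P → F2, ∀ t : Finset P, t.card = k + 1 → (t : Set P) ⊆ S →
      ∑ x ∈ t, ψ (t.erase x) = φ t := by
  classical
  refine ⟨fun u => if p0 ∈ u then 0 else φ (insert p0 u), ?_⟩
  intro t ht hts
  by_cases h : p0 ∈ t
  · rw [Finset.sum_eq_single p0]
    · simp [Finset.insert_erase h]
    · intro x hx hne
      have : p0 ∈ t.erase x := Finset.mem_erase.2 ⟨fun h => hne h.symm, h⟩
      simp [this]
    · intro h'
      exact absurd h h'
  · have h1 := hφ (insert p0 t) (by rw [Finset.card_insert_of_notMem h, ht]) (by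
      intro q hq
      rcases Finset.mem_insert.1 (Finset.mem_coe.1 hq) with rfl | hq
      · exact hp
      · exact hts hq)
    rw [Finset.sum_insert h, Finset.erase_insert h] at h1
    have h2 : ∑ x ∈ t, φ ((insert p0 t).erase x) =
        ∑ x ∈ t, (if p0 ∈ t.erase x then 0 else φ (insert p0 (t.erase x))) := by
      refine Finset.sum_congr rfl fun x hx => ?_
      have hne : p0 ≠ x := fun e => h (e ▸ hx)
      have h3 : p0 ∉ t.erase x := fun h' => h (Finset.mem_of_mem_erase h')
      rw [if_neg h3, Finset.erase_insert_of_ne hne]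
    rw [h2] at h1
    have h4 := CharTwo.add_self_eq_zero (φ t)
    have h5 := add_left_cancel (h1.trans h4.symm)
    exact h5

theorem lam_dd (γ : Finset P → F2) (t : Finset P) :
    ∑ x ∈ t, ∑ y ∈ t.erase x, γ ((t.erase x).erase y) = 0 := by
  classical
  have h1 : ∑ x ∈ t, ∑ y ∈ t.erase x, γ ((t.erase x).erase y) =
      ∑ x ∈ t, ∑ y ∈ t, if y = x then 0 else γ ((t.erase x).erase y) := by
    refine Finset.sum_congr rfl fun x hx => ?_
    rw [← Finset.add_sum_erase t _ hx]
    simp only [if_true, zero_add]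
    refine Finset.sum_congr rfl fun y hy => ?_
    rw [if_neg (Finset.ne_of_mem_erase hy)]
  rw [h1, ← Finset.sum_product']
  refine Finset.sum_involution (fun a _ => a.swap) ?_ ?_ ?_ ?_
  · rintro ⟨x, y⟩ ha
    simp only [Prod.swap, Prod.fst, Prod.snd]
    by_cases hxy : y = x
    · simp [hxy]
    · rw [if_neg hxy, if_neg (fun h => hxy h.symm), Finset.erase_right_comm]
      exact CharTwo.add_self_eq_zero _
  · rintro ⟨x, y⟩ ha hne h
    simp only [Prod.swap, Prod.mk.injEq] at h
    apply hne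
    simp [h.1]
  · rintro ⟨x, y⟩ ha
    simp only [Finset.mem_product, Prod.swap] at ha ⊢
    exact ⟨ha.2, ha.1⟩
  · rintro ⟨x, y⟩ ha
    rfl

theorem lam_int (c : ℤ → F2) : ∃ F : ℤ → F2, ∀ n, F (n + 1) = F n + c n := by
  refine ⟨fun n => ∑ i ∈ Finset.range n.toNat, c i +
    ∑ i ∈ Finset.range (-n).toNat, c (-(i : ℤ) - 1), ?_⟩
  intro n
  rcases le_or_gt 0 n with h | h
  · obtain ⟨m, rfl⟩ := Int.eq_ofNat_of_zero_le h
    have e1 : ((m : ℤ) + 1).toNat = m + 1 := by omega
    have e2 : (-((m : ℤ) + 1)).toNat = 0 := by omega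
    have e3 : (-(m : ℤ)).toNat = 0 := by omega
    have e4 : ((m : ℤ)).toNat = m := by omega
    simp only [e1, e2, e3, e4, Finset.sum_range_succ, Finset.range_zero, Finset.sum_empty, add_zero]
  · obtain ⟨m, hm⟩ : ∃ m : ℕ, n = -(m : ℤ) - 1 := ⟨(-n - 1).toNat, by omega⟩
    subst hm
    have e1 : (-(m : ℤ) - 1 + 1).toNat = 0 := by omega
    have e2 : (-(-(m : ℤ) - 1 + 1)).toNat = m := by omega
    have e3 : (-(m : ℤ) - 1).toNat = 0 := by omega
    have e4 : (-(-(m : ℤ) - 1)).toNat = m + 1 := by omega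
    simp only [e1, e2, e3, e4, Finset.sum_range_succ, Finset.range_zero, Finset.sum_empty, zero_add]
    rw [add_assoc, CharTwo.add_self_eq_zero, add_zero]

theorem lam_orb (s' : G) (N : Finset P → Prop) (hN : ∀ u, N u → ∀ n : ℤ, N (s' ^ n • u))
    (hfree : ∀ n : ℤ, n ≠ 0 → ∀ u : Finset P, N u → s' ^ n • u ≠ u) (c : Finset P → F2) :
    ∃ γ : Finset P → F2, ∀ u, N u → γ (s' • u) = γ u + c u := by
  classical
  let st : Setoid (Finset P) :=
    { r := fun u v => ∃ n : ℤ, s' ^ n • u = v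
      iseqv := by
        refine ⟨fun u => ⟨0, by simp⟩, ?_, ?_⟩
        · rintro u v ⟨n, rfl⟩
          exact ⟨-n, by rw [smul_smul, ← zpow_add]; simp⟩
        · rintro u v w ⟨n, rfl⟩ ⟨m, rfl⟩
          exact ⟨m + n, by rw [smul_smul, ← zpow_add]⟩ }
  let rep : Finset P → Finset P := fun u => Quotient.out (Quotient.mk st u)
  have hrep : ∀ u, ∃ n : ℤ, s' ^ n • rep u = u := fun u => Quotient.mk_out (s := st) u
  have hrep2 : ∀ u, rep (s' • u) = rep u := by
    intro u
    have : Quotient.mk st (s' • u) = Quotient.mk st u :=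
      Quotient.sound (s := st) ⟨-1, by rw [smul_smul]; simp⟩
    change Quotient.out _ = Quotient.out _
    rw [this]
  choose n hn using hrep
  choose F hF using fun r : Finset P => lam_int (fun m : ℤ => c (s' ^ m • r))
  refine ⟨fun u => F (rep u) (n u), ?_⟩
  intro u hu
  have hNr : N (rep u) := by
    have h1 := hN u hu (-(n u))
    have h2 : s' ^ (-(n u)) • u = rep u := by
      have h3 := congrArg (fun v => s' ^ (-(n u)) • v) (hn u)
      simp only [smul_smul, ← zpow_add, neg_add_cancel, zpow_zero, one_smul] at h3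
      exact h3.symm
    rwa [h2] at h1
  have hkey : n (s' • u) = n u + 1 := by
    by_contra hne
    have h1 : s' ^ (n (s' • u)) • rep u = s' • u := by
      have := hn (s' • u)
      rwa [hrep2] at this
    have h2 : s' ^ (n u + 1) • rep u = s' • u := by
      rw [add_comm, zpow_add, zpow_one, ← smul_smul, hn]
    have h3 : s' ^ (n (s' • u) - (n u + 1)) • rep u = rep u := by
      rw [sub_eq_neg_add, zpow_add, ← smul_smul, h1, ← h2, smul_smul, ← zpow_add]
      simp
    exact hfree _ (sub_ne_zero.2 hne) _ hNr h3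
  change F (rep (s' • u)) (n (s' • u)) = F (rep u) (n u) + c u
  rw [hrep2, hkey, hF, hn]

/-- functions on three element subsets of a line with prescribed boundary -/
theorem lam (S : Set P) (s' : G) (hS : ∀ q, q ∈ S ↔ s' • q ∈ S)
    (hfree : ∀ n : ℤ, n ≠ 0 → ∀ u : Finset P, u.Nonempty → (u : Set P) ⊆ S → s' ^ n • u ≠ u)
    (χ : Finset P → F2)
    (hχ : ∀ t : Finset P, t.card = 5 → (t : Set P) ⊆ S → ∑ x ∈ t, χ (t.erase x) = 0)
    (hinv : ∀ t : Finset P, t.card = 4 → (t : Set P) ⊆ S → χ (s' • t) = χ t) :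
    ∃ l : Finset P → F2,
      (∀ t : Finset P, t.card = 4 → (t : Set P) ⊆ S → ∑ x ∈ t, l (t.erase x) = χ t) ∧
      ∀ t : Finset P, t.card = 3 → (t : Set P) ⊆ S → l (s' • t) = l t := by
  classical
  rcases S.eq_empty_or_nonempty with hS0 | ⟨p0, hp0⟩
  · refine ⟨fun _ => 0, ?_, ?_⟩
    · intro t ht hts
      exfalso
      rw [hS0] at hts
      have : t = ∅ := by
        apply Finset.eq_empty_of_forall_notMem
        intro x hx
        exact hts hx
      rw [this] at ht
      simp at ht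
    · intro t _ _
      rfl
  obtain ⟨l0, hl0⟩ := lam_cone S p0 hp0 3 χ hχ
  -- smul and erase
  have her : ∀ (t : Finset P) (x : P), (s' • t).erase (s' • x) = s' • (t.erase x) := by
    intro t x
    have h := Finset.image_erase (MulAction.injective s' : Function.Injective (fun y : P => s' • y)) t x
    exact h.symm
  have hsum : ∀ (f : Finset P → F2) (t : Finset P),
      ∑ x ∈ s' • t, f ((s' • t).erase x) = ∑ x ∈ t, f (s' • (t.erase x)) := by
    intro f t
    have h0 : s' • t = t.image (fun y => s' • y) := rfl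
    rw [h0, Finset.sum_image (fun a _ b _ hab => MulAction.injective s' hab)]
    refine Finset.sum_congr rfl fun x _ => ?_
    have := her t x
    rw [h0] at this
    simp only [this]
  have hsub : ∀ t : Finset P, (t : Set P) ⊆ S → ((s' • t : Finset P) : Set P) ⊆ S := by
    intro t ht q hq
    have hq' : q ∈ s' • t := hq
    obtain ⟨y, hy, rfl⟩ := Finset.mem_smul_finset.1 hq'
    exact (hS y).1 (ht hy)
  have hsub' : ∀ t : Finset P, (t : Set P) ⊆ S → ((s'⁻¹ • t : Finset P) : Set P) ⊆ S := by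
    intro t ht q hq
    have hq' : q ∈ s'⁻¹ • t := hq
    obtain ⟨y, hy, rfl⟩ := Finset.mem_smul_finset.1 hq'
    rw [hS]
    rw [smul_inv_smul]
    exact ht hy
  have hers : ∀ (t : Finset P) (x : P), (t : Set P) ⊆ S → ((t.erase x : Finset P) : Set P) ⊆ S :=
    fun t x ht q hq => ht (Finset.mem_of_mem_erase hq)
  obtain ⟨γ0, hγ0⟩ := lam_cone S p0 hp0 2 (fun t => l0 (s' • t) + l0 t) (by
    intro t ht hts
    rw [Finset.sum_add_distrib, ← hsum l0 t, hl0 _ (by rw [Finset.card_smul_finset]; exact ht)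
      (hsub t hts), hl0 t ht hts, hinv t ht hts]
    exact CharTwo.add_self_eq_zero _)
  have hpow : ∀ (n : ℤ) (t : Finset P), (t : Set P) ⊆ S → ((s' ^ n • t : Finset P) : Set P) ⊆ S := by
    intro n
    induction n using Int.induction_on with
    | zero => intro t ht; simpa using ht
    | succ k ih =>
      intro t ht
      have : s' ^ ((k : ℤ) + 1) • t = s' ^ (k : ℤ) • (s' • t) := by
        rw [smul_smul, zpow_add, zpow_one]
      rw [this]
      exact ih _ (hsub t ht)
    | pred k ih =>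
      intro t ht
      have : s' ^ (-(k : ℤ) - 1) • t = s' ^ (-(k : ℤ)) • (s'⁻¹ • t) := by
        rw [smul_smul, sub_eq_add_neg, zpow_add, zpow_neg_one]
      rw [this]
      exact ih _ (hsub' t ht)
  obtain ⟨γ', hγ'⟩ := lam_orb s' (fun u => u.Nonempty ∧ (u : Set P) ⊆ S)
    (by
      rintro u ⟨h1, h2⟩ n
      exact ⟨h1.smul_finset, hpow n u h2⟩)
    (fun n hn u hu => hfree n hn u hu.1 hu.2) γ0
  refine ⟨fun t => l0 t + ∑ x ∈ t, γ' (t.erase x), ?_, ?_⟩
  · intro t ht hts
    rw [Finset.sum_add_distrib, hl0 t ht hts, lam_dd, add_zero]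
  · intro t ht hts
    simp only
    rw [hsum γ' t]
    have h1 : ∑ x ∈ t, γ' (s' • (t.erase x)) = ∑ x ∈ t, γ' (t.erase x) + ∑ x ∈ t, γ0 (t.erase x) := by
      rw [← Finset.sum_add_distrib]
      refine Finset.sum_congr rfl fun x hx => ?_
      apply hγ'
      refine ⟨?_, hers t x hts⟩
      rw [← Finset.card_pos, Finset.card_erase_of_mem hx, ht]
      norm_num
    rw [h1, hγ0 t ht hts]
    generalize l0 (s' • t) = A
    generalize l0 t = B
    generalize ∑ x ∈ t, γ' (t.erase x) = D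
    revert A B D
    decide

/-- a function on the vertices with prescribed character -/
theorem hfun (hfree : ∀ (g : G) (y : H), g • y = y → g = 1) (K : Set G) (h1 : (1 : G) ∈ K)
    (hmul : ∀ g ∈ K, ∀ g' ∈ K, g * g' ∈ K) (hinv : ∀ g ∈ K, g⁻¹ ∈ K) (θ : G → F2)
    (hθ : ∀ g ∈ K, ∀ g' ∈ K, θ (g * g') = θ g + θ g') :
    ∃ f : Co H 0, ∀ g ∈ K, ∀ σ : Sing H 0, f (g • σ) = f σ + θ g := by
  classical
  have hfr : ∀ (g : G) (σ : Sing H 0), g • σ = σ → g = 1 := by
    intro g σ h
    refine hfree g (σ (vert 0 0)) ?_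
    exact DFunLike.congr_fun h (vert 0 0)
  let st : Setoid (Sing H 0) :=
    { r := fun σ σ' => ∃ g ∈ K, g • σ = σ'
      iseqv :=
        { refl := fun σ => ⟨1, h1, one_smul _ _⟩
          symm := by
            rintro σ σ' ⟨g, hg, rfl⟩
            exact ⟨g⁻¹, hinv g hg, inv_smul_smul g σ⟩
          trans := by
            rintro σ σ' σ'' ⟨g, hg, rfl⟩ ⟨g', hg', rfl⟩
            exact ⟨g' * g, hmul g' hg' g hg, mul_smul g' g σ⟩ } }
  let rep : Sing H 0 → Sing H 0 := fun σ => (Quotient.mk st σ).out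
  have hrep : ∀ σ, ∃ g ∈ K, g • rep σ = σ := fun σ => Quotient.exact (s := st) (Quotient.out_eq _)
  choose c hcK hc using hrep
  refine ⟨fun σ => θ (c σ), fun g hg σ => ?_⟩
  have hr : rep (g • σ) = rep σ := by
    show (Quotient.mk st (g • σ)).out = (Quotient.mk st σ).out
    congr 1
    exact (Quotient.sound (s := st) ⟨g, hg, rfl⟩).symm
  have e : c (g • σ) = g * c σ := by
    have h2 : (c (g • σ)) • rep σ = (g * c σ) • rep σ := by
      rw [mul_smul, hc σ]
      have h5 := hc (g • σ)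
      rw [hr] at h5
      exact h5
    have h3 : ((g * c σ)⁻¹ * c (g • σ)) • rep σ = rep σ := by
      rw [mul_smul, h2, inv_smul_smul]
    have h4 := hfr _ _ h3
    exact (inv_mul_eq_one.1 h4).symm
  show θ (c (g • σ)) = θ (c σ) + θ g
  rw [e, hθ g hg (c σ) (hcK σ), add_comm]

theorem chr_const (hconn : Conn H) (v : Co H 0) (hv : dl 0 v = 0) (σ σ' : Sing H 0) :
    v σ = v σ' := hconn v hv σ σ'

theorem chr_k (hconn : Conn H) (Ξ : Finset P → Co H 1)
    (hE : Eqv G Ξ) (g : G) (s t : Finset P) (hs : g • t = s) (f f' : Co H 0)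
    (hf : dl 0 f = dv Ξ s) (hf' : dl 0 f' = dv Ξ t) (σ σ' : Sing H 0) :
    f (g • σ) + f' σ = f (g • σ') + f' σ' := by
  have h1 : dl 0 ((fun τ => f (g • τ)) + f' : Co H 0) = 0 := by
    rw [map_add]
    funext τ
    rw [Pi.add_apply, dl_smul, hf, hf']
    have h2 := hE.dv g t τ
    rw [hs] at h2
    rw [h2]
    exact CharTwo.add_self_eq_zero _
  have h3 := hconn _ h1 σ σ'
  simpa only [Pi.add_apply] using h3

/-- the characters of a family of one-cocycles -/
theorem chr (hacy : Acyc H) (hconn : Conn H) (hG : Good G P) (Ξ : Finset P → Co H 1)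
    (hE : Eqv G Ξ) (hd : ∀ t : Finset P, t.card = 4 → dl 1 (dv Ξ t) = 0) :
    ∃ χ : Finset P → G → F2,
      (∀ t : Finset P, t.card = 4 → ∃ f : Co H 0, dl 0 f = dv Ξ t ∧
        ∀ g : G, g • t = t → ∀ σ : Sing H 0, f (g • σ) = f σ + χ t g) ∧
      (∀ t : Finset P, t.card = 4 → ∀ g g' : G, g • t = t → g' • t = t →
        χ t (g * g') = χ t g + χ t g') ∧
      (∀ t : Finset P, t.card = 4 → ∀ g g' : G, g' • t = t →
        χ (g • t) (g * g' * g⁻¹) = χ t g') ∧
      (∀ t : Finset P, t.card = 5 → ∀ g : G, g • t = t → ∑ x ∈ t, χ (t.erase x) g = 0) := by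
  rcases isEmpty_or_nonempty (Sing H 0) with hem | ⟨⟨σ0⟩⟩
  · refine ⟨fun _ _ => 0, ?_, ?_, ?_, ?_⟩
    · intro t ht
      obtain ⟨f, hf⟩ := hacy 0 _ (hd t ht)
      exact ⟨f, hf, fun g _ σ => (hem.false σ).elim⟩
    · intro t _ g g' _ _
      simp
    · intro t _ g g' _
      rfl
    · intro t _ g _
      simp
  · have hex : ∀ t : Finset P, ∃ f : Co H 0, t.card = 4 → dl 0 f = dv Ξ t := by
      intro t
      by_cases ht : t.card = 4
      · obtain ⟨f, hf⟩ := hacy 0 _ (hd t ht)
        exact ⟨f, fun _ => hf⟩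
      · exact ⟨0, fun h => absurd h ht⟩
    choose F hF using hex
    have K : ∀ t : Finset P, t.card = 4 → ∀ g : G, g • t = t → ∀ σ : Sing H 0,
        F t (g • σ) + F t σ = F t (g • σ0) + F t σ0 := fun t ht g hg σ =>
      chr_k hconn Ξ hE g t t hg (F t) (F t) (hF t ht) (hF t ht) σ σ0
    refine ⟨fun t g => F t (g • σ0) + F t σ0, ?_, ?_, ?_, ?_⟩
    · intro t ht
      refine ⟨F t, hF t ht, ?_⟩
      intro g hg σ
      have h1 := K t ht g hg σ
      have h2 := CharTwo.add_self_eq_zero (F t σ)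
      simp only
      rw [← h1]
      have h3 : F t σ + (F t (g • σ) + F t σ) = F t (g • σ) + (F t σ + F t σ) := by ring
      rw [h3, h2]
      exact (add_zero _).symm
    · intro t ht g g' hg hg'
      have h1 := K t ht g hg (g' • σ0)
      have h2 := CharTwo.add_self_eq_zero (F t (g' • σ0))
      simp only
      rw [mul_smul, ← h1]
      have h3 : F t (g • g' • σ0) + F t (g' • σ0) + (F t (g' • σ0) + F t σ0) =
        F t (g • g' • σ0) + (F t (g' • σ0) + F t (g' • σ0)) + F t σ0 := by ring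
      rw [h3, h2, add_zero]
    · intro t ht g g' hg'
      have hs : (g • t).card = 4 := by rw [Finset.card_smul_finset, ht]
      have hst : (g * g' * g⁻¹) • (g • t) = g • t := by
        rw [mul_smul, mul_smul, inv_smul_smul, hg']
      have h1 := K (g • t) hs (g * g' * g⁻¹) hst (g • σ0)
      have h2 := chr_k hconn Ξ hE g (g • t) t rfl (F (g • t)) (F t) (hF _ hs) (hF t ht)
        (g' • σ0) σ0
      have h3 : (g * g' * g⁻¹) • (g • σ0) = g • (g' • σ0) := by
        rw [mul_smul, mul_smul, inv_smul_smul]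
      rw [h3] at h1
      simp only
      rw [← h1]
      have h4 := CharTwo.add_self_eq_zero (F (g • t) (g • σ0))
      have h5 := CharTwo.add_self_eq_zero (F t (g' • σ0))
      -- F s (g g' σ0) = F s (g σ0) + F t σ0 + F t (g' σ0)
      have h6 : F (g • t) (g • g' • σ0) = F (g • t) (g • σ0) + F t σ0 + F t (g' • σ0) := by
        rw [← h2, add_assoc, h5, add_zero]
      rw [h6]
      have h7 : F (g • t) (g • σ0) + F t σ0 + F t (g' • σ0) + F (g • t) (g • σ0) =
        (F (g • t) (g • σ0) + F (g • t) (g • σ0)) + (F t (g' • σ0) + F t σ0) := by ring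
      rw [h7, h4, zero_add]
    · intro t ht g hg
      have hfix := hG.fix t g hg
      have h1 : dl 0 (∑ x ∈ t, F (t.erase x)) = 0 := by
        rw [map_sum]
        have h2 : ∑ x ∈ t, dl 0 (F (t.erase x)) = dv (dv Ξ) t := by
          change _ = ∑ x ∈ t, dv Ξ (t.erase x)
          refine Finset.sum_congr rfl fun x hx => ?_
          refine hF _ ?_
          rw [Finset.card_erase_of_mem hx, ht]
        rw [h2, dv_dv]
        rfl
      have h3 := hconn _ h1 (g • σ0) σ0
      simp only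
      rw [Finset.sum_add_distrib]
      rw [Finset.sum_apply, Finset.sum_apply] at h3
      rw [h3]
      exact CharTwo.add_self_eq_zero _

/-- the points fixed by the stabilizer of `t` -/
def Fx (G : Type) {P : Type} [Group G] [MulAction G P] [DecidableEq P] (t : Finset P) : Set P :=
  {q | ∀ g : G, g • t = t → g • q = q}

lemma lc_pow {G : Type} [Group G] (φ : G → F2) (s : G)
    (hφ : ∀ m n : ℤ, φ (s ^ m * s ^ n) = φ (s ^ m) + φ (s ^ n)) (n : ℤ) :
    φ (s ^ n) = (n : F2) * φ s := by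
  have h0 : φ (1 : G) = 0 := by
    have := hφ 0 0
    simp only [zpow_zero, mul_one] at this
    simpa using this
  induction n with
  | zero => simp [h0]
  | succ n ih =>
    have := hφ n 1
    rw [← zpow_add, ih, zpow_one] at this
    rw [this]; push_cast; ring
  | pred n ih =>
    have := hφ (-(n : ℤ) - 1) 1
    rw [← zpow_add, zpow_one, sub_add_cancel, ih] at this
    have h2 : φ (s ^ (-(n : ℤ) - 1)) = ((-(n : ℤ) : ℤ) : F2) * φ s - φ s := by
      rw [this]; ring
    rw [h2]; push_cast; ring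

lemma lc_fix {G P : Type} [Group G] [MulAction G P] [DecidableEq P] (g : G) (t : Finset P)
    (h : ∀ q ∈ t, g • q = q) : g • t = t := by
  ext q
  rw [Finset.mem_smul_finset]
  constructor
  · rintro ⟨y, hy, rfl⟩
    rw [h y hy]; exact hy
  · intro hq
    exact ⟨q, hq, h q hq⟩

lemma lc_zfix {G P : Type} [Group G] [MulAction G P] (s : G) (q : P)
    (h : s • q = q) (n : ℤ) : s ^ n • q = q := by
  have : s ∈ MulAction.stabilizer G q := h
  exact (MulAction.stabilizer G q).zpow_mem this n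

/-- correction on one line -/
theorem line_corr (hacy : Acyc H) (hconn : Conn H)
    (hfree : ∀ (g : G) (y : H), g • y = y → g = 1) (hG : Good G P) (Ξ : Finset P → Co H 1)
    (hE : Eqv G Ξ) (hd : ∀ t : Finset P, t.card = 4 → dl 1 (dv Ξ t) = 0)
    (t₀ : Finset P) (h₀ : 2 ≤ t₀.card) (g₀ : G) (hg₀ : g₀ • t₀ = t₀) (hg₁ : g₀ ≠ 1) :
    ∃ γ : Finset P → Co H 1, (∀ t, dl 1 (γ t) = 0) ∧
      (∀ g : G, g • Fx G t₀ = Fx G t₀ → ∀ (t : Finset P) (σ : Sing H 1),
        γ (g • t) (g • σ) = γ t σ) ∧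
      ∀ t : Finset P, t.card = 4 → (t : Set P) ⊆ Fx G t₀ →
        ∃ v : Co H 0, dl 0 v = dv Ξ t + dv γ t ∧ Sinv G t v := by
  classical
  obtain ⟨s, hs, hs2⟩ := hG.line t₀ h₀
  have hs1 : s ≠ 1 := by
    rintro rfl
    obtain ⟨n, hn⟩ := (hs g₀).1 hg₀
    rw [one_zpow] at hn
    exact hg₁ hn
  obtain ⟨hline, s', θ, hPs', hgen, hfr, hθ, hθs⟩ := hs2 hs1
  have hFx : Fx G t₀ = {q : P | s • q = q} := by
    ext q
    constructor
    · intro hq
      exact hq s ((hs s).2 ⟨1, (zpow_one s).symm⟩)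
    · intro hq g hg
      obtain ⟨n, rfl⟩ := (hs g).1 hg
      exact lc_zfix s q hq n
  rw [hFx]
  set S : Set P := {q : P | s • q = q} with hSdef
  have hmS : ∀ q, q ∈ S ↔ s • q = q := fun q => Iff.rfl
  have hPres : ∀ g : G, g • S = S → Pres (P := P) s g := by
    intro g hg q
    rw [← hmS, ← hmS]
    constructor
    · intro hq
      rw [← hg]; exact Set.smul_mem_smul_set hq
    · intro hq
      rw [← hg] at hq
      exact (Set.smul_mem_smul_set_iff).1 hq
  obtain ⟨χ, hχ1, hχ2, hχ3, hχ4⟩ := chr hacy hconn hG Ξ hE hd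
  -- stabilizers of subsets of the line
  have hst : ∀ t : Finset P, (t : Set P) ⊆ S → ∀ n : ℤ, s ^ n • t = t := by
    intro t ht n
    exact lc_fix _ _ fun q hq => lc_zfix s q (ht hq) n
  have hst1 : ∀ t : Finset P, (t : Set P) ⊆ S → s • t = t := by
    intro t ht
    exact lc_fix _ _ fun q hq => ht hq
  have hst2 : ∀ t : Finset P, 2 ≤ t.card → (t : Set P) ⊆ S → ∀ g : G, g • t = t →
      ∃ n : ℤ, g = s ^ n := fun t h2 ht g hg => hline t h2 (fun q hq => ht hq) g hg
  have hPS : ∀ (g : G), Pres (P := P) s g → ∀ t : Finset P, ((g • t : Finset P) : Set P) ⊆ S ↔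
      (t : Set P) ⊆ S := by
    intro g hg t
    constructor
    · intro h q hq
      exact (hg q).2 (h (Finset.smul_mem_smul_finset (a := g) (Finset.mem_coe.1 hq)))
    · intro h q hq
      obtain ⟨y, hy, rfl⟩ := Finset.mem_smul_finset.1 (Finset.mem_coe.1 hq)
      exact (hg y).1 (h hy)
  have hPone : Pres (P := P) s (1 : G) := by intro q; rw [one_smul]
  have hPmul : ∀ g g' : G, Pres (P := P) s g → Pres (P := P) s g' → Pres (P := P) s (g * g') := by
    intro g g' h h' q
    rw [h' q, h (g' • q), mul_smul]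
  have hPinv : ∀ g : G, Pres (P := P) s g → Pres (P := P) s g⁻¹ := by
    intro g h q
    have := h (g⁻¹ • q)
    rw [smul_inv_smul] at this
    exact this.symm
  have hPs : ∀ n : ℤ, Pres (P := P) s (s ^ n) := by
    intro n q
    constructor
    · intro h
      rw [lc_zfix s q h n]; exact h
    · intro h
      have h1 := lc_zfix s _ h (-n)
      rw [smul_smul, ← zpow_add, neg_add_cancel, zpow_zero, one_smul] at h1
      rw [h1]; exact h
  -- the parity of the conjugation exponent
  have hinvχ : ∀ t : Finset P, t.card = 4 → (t : Set P) ⊆ S → χ (s' • t) s = χ t s := by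
    intro t ht htS
    have a1 : (s'⁻¹ * s * s') • t = t := by
      rw [mul_smul, mul_smul, hst1 _ ((hPS s' hPs' t).2 htS), inv_smul_smul]
    have a2 : (s' * s * s'⁻¹) • t = t := by
      rw [mul_smul, mul_smul, hst1 _ ((hPS s'⁻¹ (hPinv _ hPs') t).2 htS), smul_inv_smul]
    obtain ⟨k, hk⟩ := hst2 t (by omega) htS _ a1
    obtain ⟨m, hm⟩ := hst2 t (by omega) htS _ a2
    have e1 : s = s ^ (m * k) := by
      have : s = s' * (s'⁻¹ * s * s') * s'⁻¹ := by group
      rw [hk] at this
      rw [zpow_mul, ← hm, conj_zpow]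
      exact this
    have e2 : m * k = 1 := by
      by_contra hne
      apply hG.tf s hs1 (m * k - 1) (by omega)
      rw [zpow_sub, zpow_one, ← e1, mul_inv_cancel]
    have e3 : ((k : ℤ) : F2) = 1 := by
      rcases Int.mul_eq_one_iff_eq_one_or_neg_one.1 e2 with ⟨_, h⟩ | ⟨_, h⟩
      · rw [h]; simp
      · rw [h]; decide
    have e4 := hχ3 t ht s' (s'⁻¹ * s * s') a1
    have e5 : s' * (s'⁻¹ * s * s') * s'⁻¹ = s := by group
    rw [e5, hk, lc_pow (χ t) s (fun m n => hχ2 t ht _ _ (hst t htS m) (hst t htS n)), e3,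
      one_mul] at e4
    exact e4
  obtain ⟨l, hl1, hl2⟩ := lam S s' (fun q => hPs' q)
    (by
      intro n hn u hu huS h
      obtain ⟨p, hp⟩ := hu
      exact hfr n hn p (huS hp) (hG.fix u _ h p hp))
    (fun t => χ t s) (fun t ht htS => hχ4 t ht s (hst1 t htS)) hinvχ
  obtain ⟨h, hh⟩ := hfun (G := G) (H := H) hfree {g : G | Pres (P := P) s g} hPone
    (fun g hg g' hg' => hPmul g g' hg hg') (fun g hg => hPinv g hg) θ
    (fun g hg g' hg' => hθ g g' hg hg')
  have hκ : ∀ g : G, Pres (P := P) s g → ∀ σ : Sing H 1, dl 0 h (g • σ) = dl 0 h σ := by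
    intro g hg σ
    rw [← dl_smul]
    have e : (fun τ : Sing H 0 => h (g • τ)) = fun τ => h τ + θ g := by
      funext τ; exact hh g hg τ
    rw [e, dl_apply, dl_apply, Finset.sum_add_distrib]
    have : ∑ _i : Fin (0 + 2), θ g = 0 := by
      rw [Fin.sum_const]
      simp only [zero_add]
      exact CharTwo.two_nsmul _
    rw [this, add_zero]
  have hln : ∀ t : Finset P, t.card = 3 → (t : Set P) ⊆ S → ∀ n : ℕ,
      l (s' ^ n • t) = l t ∧ ((s' ^ n • t : Finset P) : Set P) ⊆ S := by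
    intro t ht htS n
    induction n with
    | zero => simpa using htS
    | succ n ih =>
      rw [pow_succ', mul_smul]
      refine ⟨?_, ?_⟩
      · rw [hl2 _ (by rw [Finset.card_smul_finset]; exact ht) ih.2]
        exact ih.1
      · exact (hPS s' hPs' _).2 ih.2
  have hPn : ∀ n : ℕ, Pres (P := P) s (s' ^ n) := by
    intro n
    induction n with
    | zero => rw [pow_zero]; exact hPone
    | succ n ih => rw [pow_succ]; exact hPmul _ _ ih hPs'
  have hlz : ∀ t : Finset P, t.card = 3 → (t : Set P) ⊆ S → ∀ n : ℤ,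
      l (s' ^ n • t) = l t := by
    intro t ht htS n
    obtain ⟨m, rfl | rfl⟩ := n.eq_nat_or_neg
    · rw [zpow_natCast]; exact (hln t ht htS m).1
    · have h1 := (hln (s' ^ (-(m : ℤ)) • t) (by rw [Finset.card_smul_finset]; exact ht)
        (by
          rw [zpow_neg, zpow_natCast]
          exact (hPS _ (hPinv _ (hPn m)) t).2 htS) m).1
      rw [← zpow_natCast, smul_smul, ← zpow_add, add_neg_cancel, zpow_zero, one_smul] at h1
      exact h1.symm
  refine ⟨fun t => if t.card = 3 ∧ (t : Set P) ⊆ S then l t • dl 0 h else 0, ?_, ?_, ?_⟩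
  · intro t
    dsimp only
    split_ifs with hc
    · rw [map_smul, dl_dl, smul_zero]
    · rw [map_zero]
  · intro g hg t σ
    have hgP := hPres g hg
    dsimp only
    rw [Finset.card_smul_finset]
    have hiff := hPS g hgP t
    by_cases hc : t.card = 3 ∧ (t : Set P) ⊆ S
    · rw [if_pos hc, if_pos ⟨hc.1, hiff.2 hc.2⟩]
      obtain ⟨n, hn⟩ := hgen g hgP
      have e : g • t = s' ^ n • t := by
        ext q
        rw [Finset.mem_smul_finset, Finset.mem_smul_finset]
        constructor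
        · rintro ⟨y, hy, rfl⟩
          exact ⟨y, hy, (hn y (hc.2 hy)).symm⟩
        · rintro ⟨y, hy, rfl⟩
          exact ⟨y, hy, hn y (hc.2 hy)⟩
      rw [e, hlz t hc.1 hc.2 n]
      change l t • dl 0 h (g • σ) = l t • dl 0 h σ
      rw [hκ g hgP σ]
    · rw [if_neg hc, if_neg fun hc' => hc ⟨hc'.1, hiff.1 hc'.2⟩]
      rfl
  · intro t ht htS
    obtain ⟨f, hf1, hf2⟩ := hχ1 t ht
    have hdv : dv (fun t => if t.card = 3 ∧ (t : Set P) ⊆ S then l t • dl 0 h else 0) t =
        χ t s • dl 0 h := by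
      have : ∀ x ∈ t, (if (t.erase x).card = 3 ∧ ((t.erase x : Finset P) : Set P) ⊆ S then
          l (t.erase x) • dl 0 h else 0) = l (t.erase x) • dl 0 h := by
        intro x hx
        rw [if_pos]
        refine ⟨by rw [Finset.card_erase_of_mem hx, ht], ?_⟩
        exact fun q hq => htS (Finset.mem_of_mem_erase (Finset.mem_coe.1 hq))
      have e1 : dv (fun t => if t.card = 3 ∧ (t : Set P) ⊆ S then l t • dl 0 h else 0) t =
          ∑ x ∈ t, l (t.erase x) • dl 0 h := Finset.sum_congr rfl this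
      rw [e1, ← Finset.sum_smul, hl1 t ht htS]
    rw [hdv]
    refine ⟨f + χ t s • h, ?_, ?_⟩
    · rw [map_add, map_smul, hf1]
    · intro g hg σ
      obtain ⟨n, rfl⟩ := hst2 t (by omega) htS g hg
      change f (s ^ n • σ) + χ t s * h (s ^ n • σ) = f σ + χ t s * h σ
      rw [hf2 _ hg, hh _ (hPs n), lc_pow (χ t) s (fun m n => hχ2 t ht _ _ (hst t htS m) (hst t htS n)),
        lc_pow θ s (fun m n => hθ _ _ (hPs m) (hPs n)), hθs, mul_one]
      generalize f σ = a
      generalize h σ = b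
      generalize χ t s = c
      generalize ((n : ℤ) : F2) = d
      revert a b c d
      decide

theorem ifour_Fx (g : G) (t : Finset P) : g • Fx G t = Fx G (g • t) := by
  ext q
  rw [Set.mem_smul_set_iff_inv_smul_mem]
  constructor
  · intro h k hk
    have h1 : (g⁻¹ * k * g) • t = t := by
      rw [mul_smul, mul_smul, hk, inv_smul_smul]
    have h2 := h _ h1
    rw [mul_smul, mul_smul, smul_inv_smul] at h2
    exact smul_left_cancel _ h2
  · intro h k hk
    have h1 : (g * k * g⁻¹) • (g • t) = g • t := by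
      rw [mul_smul, mul_smul, inv_smul_smul, hk]
    have h2 := h _ h1
    rw [mul_smul, mul_smul] at h2
    exact eq_inv_smul_iff.mpr h2

theorem ifour_erase (g : G) (t : Finset P) (x : P) :
    g • (t.erase x) = (g • t).erase (g • x) := by
  ext y
  rw [← Finset.inv_smul_mem_iff, Finset.mem_erase, Finset.mem_erase, ← Finset.inv_smul_mem_iff,
    Ne, Ne, inv_smul_eq_iff]

theorem ifour_dvact {p : ℕ} (γ : Finset P → Co H p) (g : G) (t : Finset P) (σ : Sing H p) :
    dv (fun t σ => γ (g⁻¹ • t) (g⁻¹ • σ)) t σ = dv γ (g⁻¹ • t) (g⁻¹ • σ) := by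
  rw [dv, dv, Finset.sum_apply, Finset.sum_apply]
  refine Finset.sum_nbij' (fun x => g⁻¹ • x) (fun y => g • y) ?_ ?_ ?_ ?_ ?_
  · intro x hx
    exact Finset.smul_mem_smul_finset hx
  · intro y hy
    rwa [← Finset.inv_smul_mem_iff, inv_inv] at hy
  · intro x _
    exact smul_inv_smul _ _
  · intro x _
    exact inv_smul_smul _ _
  · intro x _
    rw [ifour_erase]

/-- the last obstruction can be removed -/
theorem ifour (hacy : Acyc H) (hconn : Conn H)
    (hfree : ∀ (g : G) (y : H), g • y = y → g = 1) (hG : Good G P) (Ξ : Finset P → Co H 1)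
    (hE : Eqv G Ξ) (hd : ∀ t : Finset P, t.card = 4 → dl 1 (dv Ξ t) = 0) :
    ∃ γ : Finset P → Co H 1, Eqv G γ ∧ (∀ t, dl 1 (γ t) = 0) ∧
      ∀ t : Finset P, t.card = 4 → ∃ v : Co H 0, dl 0 v = dv Ξ t + dv γ t ∧ Sinv G t v := by
  obtain ⟨F, hF1, hF2⟩ := eq_choice (G := G) (T := Set P) (V := Finset P → Co H 1)
    (fun g γ => fun t σ => γ (g⁻¹ • t) (g⁻¹ • σ))
    (by
      intro γ
      funext t σ
      simp only [inv_one, one_smul])
    (by
      intro g g' γ
      funext t σ
      simp only [mul_inv_rev, mul_smul])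
    (fun S γ => (∀ t, dl 1 (γ t) = 0) ∧ ∀ t : Finset P, t.card = 4 → (t : Set P) ⊆ S →
      (∃ (t₀ : Finset P) (g₀ : G), 2 ≤ t₀.card ∧ g₀ • t₀ = t₀ ∧ g₀ ≠ 1 ∧ S = Fx G t₀) →
      ∃ v : Co H 0, dl 0 v = dv Ξ t + dv γ t ∧ Sinv G t v)
    (by
      rintro g S γ ⟨h1, h2⟩
      constructor
      · intro t
        funext σ
        have := dl_smul (g := g⁻¹) (γ (g⁻¹ • t)) σ
        exact this.trans (by rw [h1]; rfl)
      · rintro t ht htS ⟨t₀, g₀, ht₀, hg₀, hg₁, hS⟩
        obtain ⟨v, hv1, hv2⟩ := h2 (g⁻¹ • t) (by rw [Finset.card_smul_finset]; exact ht)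
          (by
            intro q hq
            rw [Finset.mem_coe, ← Finset.inv_smul_mem_iff, inv_inv] at hq
            have := htS hq
            rw [Set.mem_smul_set_iff_inv_smul_mem, inv_smul_smul] at this
            exact this)
          ⟨g⁻¹ • t₀, g⁻¹ * g₀ * g, by rw [Finset.card_smul_finset]; exact ht₀, by
            rw [mul_smul, mul_smul, smul_inv_smul, hg₀], by
            intro h
            apply hg₁
            have : g₀ = g * (g⁻¹ * g₀ * g) * g⁻¹ := by group
            rw [this, h]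
            group, by
            rw [← ifour_Fx, ← hS, inv_smul_smul]⟩
        refine ⟨fun σ => v (g⁻¹ • σ), ?_, ?_⟩
        · funext σ
          have e1 := dl_smul (g := g⁻¹) v σ
          rw [e1, hv1, Pi.add_apply, Pi.add_apply, ifour_dvact]
          congr 1
          exact (hE.dv) g⁻¹ t σ
        · intro k hk σ
          show v (g⁻¹ • k • σ) = v (g⁻¹ • σ)
          have h3 := hv2 (g⁻¹ * k * g) (by rw [mul_smul, mul_smul, smul_inv_smul, hk]) (g⁻¹ • σ)
          rw [mul_smul, mul_smul, smul_inv_smul] at h3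
          exact h3)
    (by
      intro S
      by_cases hS : ∃ (t₀ : Finset P) (g₀ : G), 2 ≤ t₀.card ∧ g₀ • t₀ = t₀ ∧ g₀ ≠ 1 ∧ S = Fx G t₀
      · obtain ⟨t₀, g₀, ht₀, hg₀, hg₁, hS'⟩ := hS
        obtain ⟨γ, hγ1, hγ2, hγ3⟩ := line_corr hacy hconn hfree hG Ξ hE hd t₀ ht₀ g₀ hg₀ hg₁
        refine ⟨γ, ⟨hγ1, fun t ht htS _ => hγ3 t ht (by rw [← hS']; exact htS)⟩, ?_⟩
        intro g hg
        funext t σ
        refine hγ2 g⁻¹ ?_ t σ
        rw [← hS', inv_smul_eq_iff]
        exact hg.symm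
      · refine ⟨0, ⟨fun t => ?_, fun t _ _ h => absurd h hS⟩, fun g _ => rfl⟩
        exact map_zero _)
  have hEqv : Eqv G (fun t => F (Fx G t) t) := by
    intro g t σ
    show F (Fx G (g • t)) (g • t) (g • σ) = F (Fx G t) t σ
    rw [← ifour_Fx, hF1]
    show F (Fx G t) (g⁻¹ • g • t) (g⁻¹ • g • σ) = F (Fx G t) t σ
    rw [inv_smul_smul, inv_smul_smul]
  refine ⟨fun t => F (Fx G t) t, hEqv, fun t => (hF2 (Fx G t)).1 t, ?_⟩
  intro t ht
  by_cases hst : ∃ g₀ : G, g₀ ≠ 1 ∧ g₀ • t = t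
  · obtain ⟨g₀, hg₁, hg₀⟩ := hst
    have htS : (t : Set P) ⊆ Fx G t := fun p hp g hg => hG.fix t g hg p (Finset.mem_coe.mp hp)
    obtain ⟨v, hv1, hv2⟩ := (hF2 (Fx G t)).2 t ht htS ⟨t, g₀, by omega, hg₀, hg₁, rfl⟩
    refine ⟨v, ?_, hv2⟩
    rw [hv1]
    congr 1
    rw [dv, dv]
    refine Finset.sum_congr rfl fun x hx => ?_
    have hFx : Fx G (t.erase x) = Fx G t := by
      obtain ⟨s, hs1, hs2⟩ := hG.line t (by omega)
      obtain ⟨n₀, hn₀⟩ := (hs1 g₀).mp hg₀
      have hs : s ≠ 1 := by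
        rintro rfl
        rw [one_zpow] at hn₀
        exact hg₁ hn₀
      obtain ⟨hs3, -⟩ := hs2 hs
      have hst : s • t = t := (hs1 s).mpr ⟨1, (zpow_one s).symm⟩
      have hstab : ∀ g : G, g • t.erase x = t.erase x ↔ g • t = t := by
        intro g
        constructor
        · intro hg
          have h3 := hs3 (t.erase x) (by rw [Finset.card_erase_of_mem hx]; omega)
            (fun q hq => hG.fix t s hst q (Finset.mem_of_mem_erase hq)) g hg
          exact (hs1 g).mpr h3
        · intro hg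
          rw [ifour_erase, hg, hG.fix t g hg x hx]
      ext q
      constructor
      · intro h g hg
        exact h g ((hstab g).mpr hg)
      · intro h g hg
        exact h g ((hstab g).mp hg)
    show F (Fx G t) (t.erase x) = F (Fx G (t.erase x)) (t.erase x)
    rw [hFx]
  · push Not at hst
    have hcyc : dl 1 (dv Ξ t + dv (fun t => F (Fx G t) t) t) = 0 := by
      rw [map_add, hd t ht, zero_add, dl_dv]
      have h0 : (fun t => dl 1 (F (Fx G t) t)) = (fun _ : Finset P => (0 : Co H 2)) := by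
        funext t'
        exact (hF2 (Fx G t')).1 t'
      rw [h0, dv]
      simp
    obtain ⟨v, hv⟩ := hacy 0 _ hcyc
    refine ⟨v, hv, ?_⟩
    intro g hg σ
    have : g = 1 := by
      by_contra h
      exact hst g h hg
    rw [this, one_smul]

theorem ch_stage {p : ℕ} (c : ℕ) (tgt : Finset P → Co H (p + 1)) (hE : Eqv G tgt)
    (h : ∀ t : Finset P, t.card = c → ∃ v : Co H p, dl p v = tgt t ∧ Sinv G t v) :
    ∃ f : Finset P → Co H p, Eqv G f ∧ ∀ t : Finset P, t.card = c → dl p (f t) = tgt t := by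
  refine eq_cochain (G := G) (fun t v => t.card = c → dl p v = tgt t) ?_ ?_
  · intro g t v hv hc
    rw [Finset.card_smul_finset] at hc
    funext σ
    rw [dl_smul, hv hc, ← hE g t, smul_inv_smul]
  · intro t
    by_cases hc : t.card = c
    · obtain ⟨v, h1, h2⟩ := h t hc
      exact ⟨v, fun _ => h1, h2⟩
    · exact ⟨fun _ => 0, fun h => absurd h hc, fun g _ σ => rfl⟩

theorem ch_zpow {p : ℕ} (s : G) (v : Co H p) (h : ∀ σ : Sing H p, v (s • σ) = v σ) (k : ℤ)
    (σ : Sing H p) : v (s ^ k • σ) = v σ := by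
  let K : Subgroup G :=
    { carrier := {g | ∀ σ : Sing H p, v (g • σ) = v σ}
      mul_mem' := by
        intro a b ha hb σ
        rw [mul_smul, ha, hb]
      one_mem' := by
        intro σ
        rw [one_smul]
      inv_mem' := by
        intro a ha σ
        rw [← ha, smul_inv_smul] }
  have hs : s ∈ K := h
  exact K.zpow_mem hs k σ

theorem ch_prim (hacy : Acyc H) (hfree : ∀ (g : G) (y : H), g • y = y → g = 1) (hG : Good G P)
    {n : ℕ} (Ξ : Finset P → Co H (n + 2)) (hE : Eqv G Ξ) (t : Finset P) (ht : 2 ≤ t.card)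
    (hc : dl (n + 2) (dv Ξ t) = 0) :
    ∃ v : Co H (n + 1), dl (n + 1) v = dv Ξ t ∧ Sinv G t v := by
  obtain ⟨s, hs, -⟩ := hG.line t ht
  have hst : s • t = t := (hs s).2 ⟨1, (zpow_one s).symm⟩
  obtain ⟨v, h1, h2⟩ := vz hacy hfree s (hG.tf s) (dv Ξ t) hc (by
    intro σ
    have h3 := hE.dv s t σ
    rw [hst] at h3
    exact h3)
  refine ⟨v, h1, ?_⟩
  intro g hg σ
  obtain ⟨k, rfl⟩ := (hs g).1 hg
  exact ch_zpow s v h2 k σ

theorem ch_cyc {p : ℕ} (c : ℕ) (Ξ : Finset P → Co H (p + 1)) (Θ : Finset P → Co H p)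
    (h : ∀ t : Finset P, t.card = c → dl p (Θ t) = dv Ξ t) (t : Finset P) (ht : t.card = c + 1) :
    dl p (dv Θ t) = 0 := by
  rw [dl_dv]
  have h1 : dv (fun t => dl p (Θ t)) t = dv (dv Ξ) t := by
    unfold dv
    refine Finset.sum_congr rfl fun x hx => ?_
    have := h (t.erase x) (by rw [Finset.card_erase_of_mem hx, ht]; rfl)
    simpa only [dv] using this
  rw [h1, dv_dv]
  rfl

/-- the algebraic chase -/
theorem chase (hacy : Acyc H) (hconn : Conn H)
    (hfree : ∀ (g : G) (y : H), g • y = y → g = 1) (hG : Good G P)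
    (hV : ∀ (p : P) (u : Co H 4), dl 4 u = 0 → Sinv G {p} u → ∃ v : Co H 3, dl 3 v = u ∧ Sinv G {p} v)
    (α : Co H 4) (hα : dl 4 α = 0) (hinv : ∀ (g : G) (σ : Sing H 4), α (g • σ) = α σ) :
    ∃ (Ξ3 : Finset P → Co H 3) (Ξ2 : Finset P → Co H 2) (Ξ1 : Finset P → Co H 1)
      (Ξ0 : Finset P → Co H 0), Eqv G Ξ3 ∧ Eqv G Ξ2 ∧ Eqv G Ξ1 ∧ Eqv G Ξ0 ∧
      (∀ p : P, dl 3 (Ξ3 {p}) = α) ∧
      (∀ t : Finset P, t.card = 2 → dl 2 (Ξ2 t) = dv Ξ3 t) ∧
      (∀ t : Finset P, t.card = 3 → dl 1 (Ξ1 t) = dv Ξ2 t) ∧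
      (∀ t : Finset P, t.card = 4 → dl 0 (Ξ0 t) = dv Ξ1 t) := by
  obtain ⟨Ξ3, e3, h3⟩ := ch_stage (G := G) (P := P) 1 (fun _ => α) (fun g t σ => hinv g σ) (by
    intro t ht
    obtain ⟨p, rfl⟩ := Finset.card_eq_one.1 ht
    exact hV p α hα (fun g _ σ => hinv g σ))
  have c3 : ∀ t : Finset P, t.card = 2 → dl 3 (dv Ξ3 t) = 0 := by
    intro t ht
    rw [dl_dv]
    have h1 : dv (fun t => dl 3 (Ξ3 t)) t = ∑ x ∈ t, α := by
      unfold dv
      refine Finset.sum_congr rfl fun x hx => ?_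
      exact h3 (t.erase x) (by rw [Finset.card_erase_of_mem hx, ht])
    rw [h1, Finset.sum_const, ht, two_nsmul]
    funext σ
    exact CharTwo.add_self_eq_zero _
  obtain ⟨Ξ2, e2, h2⟩ := ch_stage (G := G) (P := P) 2 (dv Ξ3) e3.dv
    (fun t ht => ch_prim hacy hfree hG Ξ3 e3 t ht.ge (c3 t ht))
  have c2 : ∀ t : Finset P, t.card = 3 → dl 2 (dv Ξ2 t) = 0 :=
    fun t ht => ch_cyc 2 Ξ3 Ξ2 h2 t ht
  obtain ⟨Ξ1, e1, h1⟩ := ch_stage (G := G) (P := P) 3 (dv Ξ2) e2.dv
    (fun t ht => ch_prim hacy hfree hG Ξ2 e2 t (by omega) (c2 t ht))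
  have c1 : ∀ t : Finset P, t.card = 4 → dl 1 (dv Ξ1 t) = 0 :=
    fun t ht => ch_cyc 3 Ξ2 Ξ1 h1 t ht
  obtain ⟨γ, eγ, dγ, hγ⟩ := ifour hacy hconn hfree hG Ξ1 e1 c1
  have e1' : Eqv G (fun t => Ξ1 t + γ t) := by
    intro g t σ
    have a1 := e1 g t σ
    have a2 := eγ g t σ
    change Ξ1 (g • t) (g • σ) + γ (g • t) (g • σ) = Ξ1 t σ + γ t σ
    rw [a1, a2]
  have hadd : ∀ t : Finset P, dv (fun t => Ξ1 t + γ t) t = dv Ξ1 t + dv γ t := by
    intro t
    unfold dv
    exact Finset.sum_add_distrib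
  obtain ⟨Ξ0, e0, h0⟩ := ch_stage (G := G) (P := P) 4 (dv (fun t => Ξ1 t + γ t)) e1'.dv
    (fun t ht => by
      obtain ⟨v, v1, v2⟩ := hγ t ht
      exact ⟨v, by rw [v1, hadd], v2⟩)
  refine ⟨Ξ3, Ξ2, fun t => Ξ1 t + γ t, Ξ0, e3, e2, e1', e0, ?_, h2, ?_, h0⟩
  · intro p
    exact h3 {p} (Finset.card_singleton p)
  · intro t ht
    rw [map_add, h1 t ht, dγ, add_zero]

/-- the set of labels of the last `q + 1` vertices -/
noncomputable def lab (l : H → P) {p q r : ℕ} (h : p + q = r) (σ : Sing H r) : Finset P :=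
  Finset.univ.image (fun i : Fin (q + 1) => l (σ (vert r (back h i))))

/-- cup product of a family of cochains with the labels -/
noncomputable def tm (l : H → P) {p q r : ℕ} (h : p + q = r) (Ξ : Finset P → Co H p) : Co H r :=
  fun σ => if (lab l h σ).card = q + 1 then Ξ (lab l h σ) (sub (front h) σ) else 0

theorem dl_tm_aux_sum (p q r : ℕ) (h : r + 2 = (p + 1) + (q + 1)) (A B C : ℕ → F2)
    (h1 : ∀ i, i ≤ p → A i = B i) (h2 : ∀ i, A (p + 1 + i) = C (i + 1)) (h3 : B (p + 1) = C 0) :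
    ∑ i ∈ Finset.range (r + 2), A i =
      ∑ i ∈ Finset.range (p + 2), B i + ∑ i ∈ Finset.range (q + 2), C i := by
  rw [h, Finset.sum_range_add, Finset.sum_range_succ B (p + 1),
    Finset.sum_range_succ' C (q + 1), h3]
  have e4 : ∑ i ∈ Finset.range (p + 1), A i = ∑ i ∈ Finset.range (p + 1), B i :=
    Finset.sum_congr rfl fun i hi => h1 i (by have := Finset.mem_range.1 hi; omega)
  have e5 : ∑ i ∈ Finset.range (q + 1), A (p + 1 + i) = ∑ i ∈ Finset.range (q + 1), C (i + 1) :=
    Finset.sum_congr rfl fun i hi => h2 i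
  rw [e4, e5]
  generalize (∑ i ∈ Finset.range (p + 1), B i) = A'
  generalize (∑ i ∈ Finset.range (q + 1), C (i + 1)) = B'
  generalize C 0 = D
  revert A' B' D
  decide

theorem dl_tm_aux_comb {P : Type} [DecidableEq P] (q : ℕ) (n : Fin (q + 2) → P)
    (F : Finset P → F2) :
    (∑ i : Fin (q + 2), if (Finset.univ.image (fun j => n (i.succAbove j))).card = q + 1 then
      F (Finset.univ.image (fun j => n (i.succAbove j))) else 0) =
    if (Finset.univ.image n).card = q + 1 + 1 then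
      ∑ x ∈ Finset.univ.image n, F ((Finset.univ.image n).erase x) else 0 := by
  by_cases hn : Function.Injective n
  · have hc : (Finset.univ.image n).card = q + 1 + 1 := by
      rw [Finset.card_image_of_injective _ hn]; simp
    rw [if_pos hc, Finset.sum_image (fun a _ b _ hab => hn hab)]
    refine Finset.sum_congr rfl fun i _ => ?_
    have e1 : Finset.univ.image (fun j => n (i.succAbove j)) = (Finset.univ.image n).erase (n i) := by
      ext x
      simp only [Finset.mem_image, Finset.mem_univ, true_and, Finset.mem_erase]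
      constructor
      · rintro ⟨j, rfl⟩
        exact ⟨fun h => Fin.succAbove_ne i j (hn h), _, rfl⟩
      · rintro ⟨hx, j, rfl⟩
        have hji : j ≠ i := fun h => hx (by rw [h])
        obtain ⟨k, hk⟩ := Fin.exists_succAbove_eq hji
        exact ⟨k, by rw [hk]⟩
    have e2 : (Finset.univ.image (fun j => n (i.succAbove j))).card = q + 1 := by
      have h6 : Function.Injective (fun j => n (i.succAbove j)) :=
        hn.comp Fin.succAbove_right_injective
      rw [Finset.card_image_of_injective _ h6]; simp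
    rw [if_pos e2, e1]
  · have hc : (Finset.univ.image n).card ≠ q + 1 + 1 := by
      intro h
      apply hn
      have h3 : (Finset.univ.image n).card = (Finset.univ : Finset (Fin (q + 2))).card := by
        rw [h]; simp
      have h4 := Finset.card_image_iff.1 h3
      exact fun a b hab => h4 (Finset.mem_coe.2 (Finset.mem_univ _)) (Finset.mem_coe.2 (Finset.mem_univ _)) hab
    rw [if_neg hc]
    rw [Function.not_injective_iff] at hn
    obtain ⟨a, b, hab, hne⟩ := hn
    have key : ∀ i : Fin (q + 2), i ≠ a → i ≠ b →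
        (Finset.univ.image (fun j => n (i.succAbove j))).card ≠ q + 1 := by
      intro i hia hib h
      have h3 : (Finset.univ.image (fun j => n (i.succAbove j))).card =
          (Finset.univ : Finset (Fin (q + 1))).card := by
        rw [h]; simp
      have h4 := Finset.card_image_iff.1 h3
      obtain ⟨a', ha'⟩ := Fin.exists_succAbove_eq (Ne.symm hia)
      obtain ⟨b', hb'⟩ := Fin.exists_succAbove_eq (Ne.symm hib)
      have h5 : a' = b' := h4 (Finset.mem_coe.2 (Finset.mem_univ _))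
        (Finset.mem_coe.2 (Finset.mem_univ _)) (by simp only [ha', hb', hab])
      exact hne (by rw [← ha', ← hb', h5])
    have full : ∀ i i' : Fin (q + 2), i ≠ i' → n i = n i' →
        Finset.univ.image (fun j => n (i.succAbove j)) = Finset.univ.image n := by
      intro i i' hii hn'
      ext x
      simp only [Finset.mem_image, Finset.mem_univ, true_and]
      constructor
      · rintro ⟨j, rfl⟩
        exact ⟨_, rfl⟩
      · rintro ⟨j, rfl⟩
        by_cases hji : j = i
        · obtain ⟨k, hk⟩ := Fin.exists_succAbove_eq (Ne.symm hii)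
          exact ⟨k, by rw [hk, hji, hn']⟩
        · obtain ⟨k, hk⟩ := Fin.exists_succAbove_eq hji
          exact ⟨k, by rw [hk]⟩
    rw [← Finset.sum_subset (Finset.subset_univ ({a, b} : Finset (Fin (q + 2)))),
      Finset.sum_pair hne, full a b hne hab, full b a (Ne.symm hne) hab.symm]
    · exact CharTwo.add_self_eq_zero _
    · intro i _ hi
      simp only [Finset.mem_insert, Finset.mem_singleton, not_or] at hi
      rw [if_neg (key i hi.1 hi.2)]

/-- the Leibniz rule for the product with labels -/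
theorem dl_tm (l : H → P) {p q r : ℕ} (h : p + q = r) (h1 : p + 1 + q = r + 1)
    (h2 : p + (q + 1) = r + 1) (Ξ : Finset P → Co H p) :
    dl r (tm l h Ξ) = tm l h1 (fun t => dl p (Ξ t)) + tm l h2 (dv Ξ) := by
  funext σ
  rw [dl_apply, Pi.add_apply]
  have hv : ∀ (i : Fin (r + 2)) (j : Fin (r + 1)),
      (sface r i σ) (vert r j) = σ (vert (r + 1) (i.succAbove j)) := by
    intro i j
    change σ (stdSimplex.map i.succAbove (stdSimplex.vertex j)) = σ (stdSimplex.vertex _)
    rw [stdSimplex.map_vertex]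
  have e1 : ∑ i : Fin (r + 2), tm l h Ξ (sface r i σ) =
      ∑ i ∈ Finset.range (r + 2),
        if (Finset.univ.image (fun j : Fin (q + 1) =>
          l (σ (vert (r + 1) (ww_lz h i j))))).card = q + 1 then
        Ξ (Finset.univ.image (fun j : Fin (q + 1) => l (σ (vert (r + 1) (ww_lz h i j)))))
          (sub (uu_lz h i) σ) else 0 := by
    rw [Finset.sum_range]
    refine Finset.sum_congr rfl fun i _ => ?_
    unfold tm
    have f1 : i.succAbove ∘ front h = uu_lz h i := by
      funext j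
      apply Fin.ext
      simp only [Function.comp, uu_lz, front, Fin.succAbove, Fin.lt_def]
      split_ifs <;> simp_all
    have f2 : ∀ j, i.succAbove (back h j) = ww_lz h i j := by
      intro j
      apply Fin.ext
      simp only [ww_lz, back, Fin.succAbove, Fin.lt_def]
      split_ifs <;> simp_all
    have f3 : lab l h (sface r i σ) =
        Finset.univ.image (fun j : Fin (q + 1) => l (σ (vert (r + 1) (ww_lz h i j)))) := by
      unfold lab
      congr 1
      funext j
      rw [hv, f2]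
    rw [f3, sface_sub_lz, sub_sub_lz, f1]
  have e2 : tm l h1 (fun t => dl p (Ξ t)) σ =
      ∑ i ∈ Finset.range (p + 2), if (lab l h1 σ).card = q + 1 then
        Ξ (lab l h1 σ) (sub (uu_lz h i) σ) else 0 := by
    unfold tm
    by_cases hc : (lab l h1 σ).card = q + 1
    · simp only [if_pos hc]
      rw [dl_apply, Finset.sum_range]
      refine Finset.sum_congr rfl fun i _ => ?_
      rw [sface_sub_lz, sub_sub_lz]
      have f1 : front (show p + 1 + q = r + 1 by omega) ∘ i.succAbove = uu_lz h i := by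
        funext j
        apply Fin.ext
        simp only [Function.comp, uu_lz, front, Fin.succAbove, Fin.lt_def]
        split_ifs <;> simp_all
      rw [f1]
    · simp only [if_neg hc, Finset.sum_const_zero]
  have e3 : tm l h2 (dv Ξ) σ =
      ∑ i ∈ Finset.range (q + 2),
        if (Finset.univ.image (fun j : Fin (q + 1) =>
          l (σ (vert (r + 1) (ww_lz h (p + i) j))))).card = q + 1 then
        Ξ (Finset.univ.image (fun j : Fin (q + 1) => l (σ (vert (r + 1) (ww_lz h (p + i) j)))))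
          (sub (front h2) σ) else 0 := by
    have c1 := dl_tm_aux_comb q (fun j : Fin (q + 2) => l (σ (vert (r + 1) (back h2 j))))
      (fun t => Ξ t (sub (front h2) σ))
    unfold tm dv
    rw [Finset.sum_apply]
    have c2 : lab l h2 σ =
        Finset.univ.image (fun j : Fin (q + 2) => l (σ (vert (r + 1) (back h2 j)))) := rfl
    rw [c2]
    refine c1.symm.trans ?_
    rw [Finset.sum_range]
    refine Finset.sum_congr rfl fun i _ => ?_
    have f1 : ∀ j, back (show p + (q + 1) = r + 1 by omega) (i.succAbove j) = ww_lz h (p + i) j := by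
      intro j
      apply Fin.ext
      simp only [ww_lz, back, Fin.succAbove, Fin.lt_def]
      split_ifs <;> simp_all <;> omega
    simp only [f1]
  rw [e1, e2, e3]
  have g1 : ∀ i, p < i → uu_lz h i = front h2 := by
    intro i hi
    funext j
    apply Fin.ext
    have := j.2
    simp only [uu_lz, front]
    rw [if_pos (by omega)]
  have g2 : ∀ i, i ≤ p → Finset.univ.image (fun j : Fin (q + 1) =>
      l (σ (vert (r + 1) (ww_lz h i j)))) = lab l h1 σ := by
    intro i hi
    unfold lab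
    congr 1
    funext j
    have : ww_lz h i j = back h1 j := by
      apply Fin.ext
      simp only [ww_lz, back]
      rw [if_neg (by omega)]
      simp only []
      omega
    rw [this]
  refine dl_tm_aux_sum p q r (by omega) _ _ _ ?_ ?_ ?_
  · intro i hi
    simp only [g2 i hi]
  · intro i
    simp only [g1 (p + 1 + i) (by omega)]
    rw [show p + 1 + i = p + (i + 1) by omega]
  · simp only [g1 (p + 1) (by omega), g2 (p + 0) (by omega)]

omit [Group G] [MulAction G P] in
theorem beta_congr (l : H → P) {p q r : ℕ} (h : p + q = r) (Ξ Ξ' : Finset P → Co H p)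
    (he : ∀ t : Finset P, t.card = q + 1 → Ξ t = Ξ' t) : tm l h Ξ = tm l h Ξ' := by
  funext σ
  unfold tm
  by_cases hc : (lab l h σ).card = q + 1
  · rw [if_pos hc, if_pos hc, he _ hc]
  · rw [if_neg hc, if_neg hc]

theorem beta_lab (l : H → P) (hl : ∀ (g : G) (y : H), l (g • y) = g • l y) {p q r : ℕ}
    (h : p + q = r) (g : G) (σ : Sing H r) : lab l h (g • σ) = g • lab l h σ := by
  unfold lab
  rw [← Finset.image_smul, Finset.image_image]
  refine Finset.image_congr fun i _ => ?_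
  exact hl g _

theorem beta_inv (l : H → P) (hl : ∀ (g : G) (y : H), l (g • y) = g • l y) {p q r : ℕ}
    (h : p + q = r) (Ξ : Finset P → Co H p) (hE : Eqv G Ξ) (g : G) (σ : Sing H r) :
    tm l h Ξ (g • σ) = tm l h Ξ σ := by
  unfold tm
  rw [beta_lab l hl, Finset.card_smul_finset]
  by_cases hc : (lab l h σ).card = q + 1
  · rw [if_pos hc, if_pos hc]
    exact hE g (lab l h σ) (sub (front h) σ)
  · rw [if_neg hc, if_neg hc]

theorem beta_sub_id {r : ℕ} (h : r + 0 = r) (σ : Sing H r) : sub (front h) σ = σ := by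
  refine ContinuousMap.ext fun x => ?_
  change σ (stdSimplex.map (front h) x) = σ x
  have : (front h : Fin (r + 1) → Fin (r + 1)) = id := by
    funext i
    exact Fin.ext rfl
  rw [this, stdSimplex.map_id_apply]

omit [Group G] [MulAction G P] in
theorem beta_top (l : H → P) (α : Co H 4) (Ξ : Finset P → Co H 4) (h : 4 + 0 = 4)
    (h3 : ∀ p : P, Ξ {p} = α) (σ : Sing H 4) : tm l h Ξ σ = α σ := by
  have hl : lab l h σ = {l (σ (vert 4 (back h 0)))} := by
    unfold lab
    rw [show (Finset.univ : Finset (Fin (0 + 1))) = {0} from rfl, Finset.image_singleton]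
  unfold tm
  rw [hl, Finset.card_singleton, if_pos rfl, h3, beta_sub_id]

omit [Group G] [MulAction G P] in
theorem beta_bot (l : H → P) (Ξ : Finset P → Co H 0) (h : 0 + 4 = 4) (σ : Sing H 4)
    (hσ : ¬ Function.Injective (fun i : Fin 5 => l (σ (vert 4 i)))) : tm l h Ξ σ = 0 := by
  unfold tm
  rw [if_neg]
  intro hc
  apply hσ
  have h1 : Set.InjOn (fun i : Fin (4 + 1) => l (σ (vert 4 (back h i))))
      ((Finset.univ : Finset (Fin (4 + 1))) : Set (Fin (4 + 1))) := by
    rw [← Finset.card_image_iff]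
    rw [Finset.card_univ, Fintype.card_fin]
    exact hc
  have hb : ∀ i : Fin (4 + 1), back h i = i := fun i => Fin.ext (Nat.zero_add _)
  intro i j hij
  refine h1 (Finset.mem_coe.2 (Finset.mem_univ i)) (Finset.mem_coe.2 (Finset.mem_univ j)) ?_
  simp only [hb]
  exact hij

/-- an invariant cochain with the right coboundary on simplices with repeated labels -/
theorem beta (l : H → P) (hl : ∀ (g : G) (y : H), l (g • y) = g • l y)
    (α : Co H 4)
    (Ξ3 : Finset P → Co H 3) (Ξ2 : Finset P → Co H 2) (Ξ1 : Finset P → Co H 1)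
    (Ξ0 : Finset P → Co H 0) (e3 : Eqv G Ξ3) (e2 : Eqv G Ξ2) (e1 : Eqv G Ξ1) (e0 : Eqv G Ξ0)
    (h3 : ∀ p : P, dl 3 (Ξ3 {p}) = α)
    (h2 : ∀ t : Finset P, t.card = 2 → dl 2 (Ξ2 t) = dv Ξ3 t)
    (h1 : ∀ t : Finset P, t.card = 3 → dl 1 (Ξ1 t) = dv Ξ2 t)
    (h0 : ∀ t : Finset P, t.card = 4 → dl 0 (Ξ0 t) = dv Ξ1 t) :
    ∃ β : Co H 3, (∀ (g : G) (σ : Sing H 3), β (g • σ) = β σ) ∧
      ∀ σ : Sing H 4, ¬ Function.Injective (fun i : Fin 5 => l (σ (vert 4 i))) →
        dl 3 β σ = α σ := by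
  refine ⟨tm l (show 3 + 0 = 3 from rfl) Ξ3 + tm l (show 2 + 1 = 3 from rfl) Ξ2 +
    tm l (show 1 + 2 = 3 from rfl) Ξ1 + tm l (show 0 + 3 = 3 from rfl) Ξ0, ?_, ?_⟩
  · intro g σ
    simp only [Pi.add_apply]
    rw [beta_inv l hl _ Ξ3 e3, beta_inv l hl _ Ξ2 e2, beta_inv l hl _ Ξ1 e1,
      beta_inv l hl _ Ξ0 e0]
  · intro σ hσ
    rw [map_add, map_add, map_add, Pi.add_apply, Pi.add_apply, Pi.add_apply]
    have s3 : dl 3 (tm l (show 3 + 0 = 3 from rfl) Ξ3) σ =
        α σ + tm l (show 3 + 1 = 4 from rfl) (dv Ξ3) σ := by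
      rw [dl_tm l (show 3 + 0 = 3 from rfl) (show 3 + 1 + 0 = 3 + 1 from rfl)
        (show 3 + (0 + 1) = 3 + 1 from rfl) Ξ3, Pi.add_apply]
      congr 1
      exact beta_top l α (fun t => dl 3 (Ξ3 t)) rfl h3 σ
    have s2 : dl 3 (tm l (show 2 + 1 = 3 from rfl) Ξ2) σ =
        tm l (show 3 + 1 = 4 from rfl) (dv Ξ3) σ + tm l (show 2 + 2 = 4 from rfl) (dv Ξ2) σ := by
      rw [dl_tm l (show 2 + 1 = 3 from rfl) (show 2 + 1 + 1 = 3 + 1 from rfl)
        (show 2 + (1 + 1) = 3 + 1 from rfl) Ξ2, Pi.add_apply]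
      congr 1
      exact congrFun (beta_congr l (show 3 + 1 = 4 from rfl) (fun t => dl 2 (Ξ2 t)) (dv Ξ3)
        (fun t ht => h2 t ht)) σ
    have s1 : dl 3 (tm l (show 1 + 2 = 3 from rfl) Ξ1) σ =
        tm l (show 2 + 2 = 4 from rfl) (dv Ξ2) σ + tm l (show 1 + 3 = 4 from rfl) (dv Ξ1) σ := by
      rw [dl_tm l (show 1 + 2 = 3 from rfl) (show 1 + 1 + 2 = 3 + 1 from rfl)
        (show 1 + (2 + 1) = 3 + 1 from rfl) Ξ1, Pi.add_apply]
      congr 1
      exact congrFun (beta_congr l (show 2 + 2 = 4 from rfl) (fun t => dl 1 (Ξ1 t)) (dv Ξ2)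
        (fun t ht => h1 t ht)) σ
    have s0 : dl 3 (tm l (show 0 + 3 = 3 from rfl) Ξ0) σ =
        tm l (show 1 + 3 = 4 from rfl) (dv Ξ1) σ + 0 := by
      rw [dl_tm l (show 0 + 3 = 3 from rfl) (show 0 + 1 + 3 = 3 + 1 from rfl)
        (show 0 + (3 + 1) = 3 + 1 from rfl) Ξ0, Pi.add_apply]
      congr 1
      · exact congrFun (beta_congr l (show 1 + 3 = 4 from rfl) (fun t => dl 0 (Ξ0 t)) (dv Ξ1)
          (fun t ht => h0 t ht)) σ
      · exact beta_bot l (dv Ξ0) rfl σ hσ
    rw [s3, s2, s1, s0]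
    have key : ∀ a b c d : F2, a + b + (b + c) + (c + d) + (d + 0) = a := by decide
    exact key _ _ _ _

end

end Pool.Agent.Helper158.TC
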