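import Mathlib

set_option autoImplicit false
set_option linter.unusedVariables false


namespace Pool.Agent.Helper158.TC

open Set Topology UpperHalfPlane
open scoped MatrixGroups

/-- the diagonal matrix -/
noncomputable def dg (a b : ℝ) (ha : a ≠ 0) (hb : b ≠ 0) : GL (Fin 2) ℝ :=
  Matrix.GeneralLinearGroup.mkOfDetNeZero !![a, 0; 0, b] (by
    rw [Matrix.det_fin_two_of]
    simpa using ⟨ha, hb⟩)

theorem gl_dist_aux (M : GL (Fin 2) ℝ) (z w : ℍ) :
    num M z / denom M z - num M w / denom M w =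
      (M.det.val : ℂ) * ((z : ℂ) - w) / (denom M z * denom M w) := by
  have h1 := denom_ne_zero M z
  have h2 := denom_ne_zero M w
  rw [div_sub_div _ _ h1 h2]
  congr 1
  have hdet : M.det.val = M 0 0 * M 1 1 - M 0 1 * M 1 0 := by
    rw [Matrix.GeneralLinearGroup.val_det_apply, Matrix.det_fin_two]
  rw [hdet]
  simp only [num, denom]
  push_cast
  ring

/-- the action of the general linear group is by isometries -/
theorem gl_dist (M : GL (Fin 2) ℝ) (z w : ℍ) : dist (M • z) (M • w) = dist z w := by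
  have h1 : 0 < ‖denom M z‖ := norm_pos_iff.mpr (denom_ne_zero M z)
  have h2 : 0 < ‖denom M w‖ := norm_pos_iff.mpr (denom_ne_zero M w)
  have h3 : 0 < |M.det.val| := abs_pos.mpr M.det.ne_zero
  have hA : 0 < |M.det.val| / (‖denom M z‖ * ‖denom M w‖) := by positivity
  have e1 : dist ((M • z : ℍ) : ℂ) ((M • w : ℍ) : ℂ) =
      |M.det.val| / (‖denom M z‖ * ‖denom M w‖) * dist (z : ℂ) w := by
    rw [Complex.dist_eq, Complex.dist_eq, coe_smul, coe_smul, ← map_sub, norm_σ, gl_dist_aux,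
      norm_div, norm_mul, norm_mul, Complex.norm_real, Real.norm_eq_abs]
    ring
  have e2 : (M • z).im * (M • w).im =
      (|M.det.val| / (‖denom M z‖ * ‖denom M w‖)) ^ 2 * (z.im * w.im) := by
    rw [im_smul_eq_div_normSq, im_smul_eq_div_normSq, Complex.normSq_eq_norm_sq,
      Complex.normSq_eq_norm_sq]
    field_simp
  rw [dist_eq, dist_eq, e1, e2, Real.sqrt_mul (sq_nonneg _), Real.sqrt_sq hA.le,
    mul_left_comm 2, mul_div_mul_left _ _ hA.ne']

/-- the action of a diagonal matrix on the imaginary axis -/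
theorem dg_im (a b : ℝ) (ha : a ≠ 0) (hb : b ≠ 0) (y : ℝ) (hy : 0 < y) :
    dg a b ha hb • (⟨⟨0, y⟩, hy⟩ : ℍ) =
      ⟨⟨0, |a / b| * y⟩, mul_pos (abs_pos.2 (div_ne_zero ha hb)) hy⟩ := by
  have h00 : (dg a b ha hb) 0 0 = a := rfl
  have h01 : (dg a b ha hb) 0 1 = 0 := rfl
  have h10 : (dg a b ha hb) 1 0 = 0 := rfl
  have h11 : (dg a b ha hb) 1 1 = b := rfl
  have hdet : ((dg a b ha hb).det : ℝ) = a * b := by
    show (dg a b ha hb).1.det = a * b
    rw [Matrix.det_fin_two]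
    show a * b - 0 * 0 = a * b
    ring
  have hb2 : (b : ℝ) * b ≠ 0 := mul_ne_zero hb hb
  have hz : num (dg a b ha hb) ((⟨⟨0, y⟩, hy⟩ : ℍ) : ℂ) /
      denom (dg a b ha hb) ((⟨⟨0, y⟩, hy⟩ : ℍ) : ℂ) = ⟨0, a / b * y⟩ := by
    unfold num denom
    rw [h00, h01, h10, h11]
    have hbC : (b : ℂ) ≠ 0 := by exact_mod_cast hb
    rw [div_eq_iff (by simpa using hbC)]
    apply Complex.ext
    · show (a : ℝ) * 0 - 0 * y + 0 = _
      simp
    · simp
      field_simp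
  apply UpperHalfPlane.ext
  rw [UpperHalfPlane.coe_smul, hz]
  show σ (dg a b ha hb) ⟨0, a / b * y⟩ = (⟨0, |a / b| * y⟩ : ℂ)
  unfold σ
  by_cases hpos : 0 < a * b
  · rw [if_pos (by rw [hdet]; exact hpos)]
    have hab : 0 < a / b := by
      have h1 : a / b = a * b / (b * b) := by field_simp
      rw [h1]
      exact div_pos hpos (mul_self_pos.2 hb)
    rw [abs_of_pos hab]
    rfl
  · rw [if_neg (by rw [hdet]; exact hpos)]
    have hab : a / b < 0 := by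
      have h1 : a / b = a * b / (b * b) := by field_simp
      rw [h1]
      refine div_neg_of_neg_of_pos ?_ (mul_self_pos.2 hb)
      exact lt_of_le_of_ne (not_lt.1 hpos) (mul_ne_zero ha hb)
    rw [abs_of_neg hab]
    show (starRingEnd ℂ) ⟨0, a / b * y⟩ = _
    apply Complex.ext
    · simp
    · simp

theorem gl_faithful_aux (M : GL (Fin 2) ℝ) (h : ∀ z : ℍ, M • z = z) :
    M 0 1 = 0 ∧ M 1 0 = 0 ∧ M 0 0 = M 1 1 ∧ M 0 0 ≠ 0 := by
  have hdet : M.det.val = M 0 0 * M 1 1 - M 0 1 * M 1 0 := by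
    rw [Matrix.GeneralLinearGroup.val_det_apply, Matrix.det_fin_two]
  have hne : M.det.val ≠ 0 := M.det.ne_zero
  have hz0 : ∀ (x y : ℝ) (hy : 0 < y), ((M • (⟨⟨x, y⟩, hy⟩ : ℍ) : ℍ) : ℂ) = ⟨x, y⟩ := by
    intro x y hy
    rw [h]
  by_cases hp : 0 < M.det.val
  · have key : ∀ (x y : ℝ) (hy : 0 < y), (M 0 0 : ℂ) * ⟨x, y⟩ + (M 0 1 : ℂ) =
        ⟨x, y⟩ * ((M 1 0 : ℂ) * ⟨x, y⟩ + (M 1 1 : ℂ)) := by
      intro x y hy
      have h1 := hz0 x y hy
      rw [coe_smul_of_det_pos hp, div_eq_iff (denom_ne_zero M _)] at h1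
      exact h1
    have k1 := key 0 1 one_pos
    have k2 := key 0 2 two_pos
    rw [Complex.ext_iff] at k1 k2
    simp at k1 k2
    obtain ⟨a1, a2⟩ := k1
    obtain ⟨b1, b2⟩ := k2
    have hc : M 1 0 = 0 := by linarith
    have hb : M 0 1 = 0 := by rw [a1, hc, neg_zero]
    refine ⟨hb, hc, a2, ?_⟩
    intro h0
    rw [hdet, h0, hb] at hne
    apply hne
    ring
  · have hσ : ∀ w : ℂ, σ M w = (starRingEnd ℂ) w := by
      intro w
      unfold σ
      rw [if_neg hp]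
      rfl
    have key : ∀ (x y : ℝ) (hy : 0 < y), (M 0 0 : ℂ) * ⟨x, y⟩ + (M 0 1 : ℂ) =
        ⟨x, -y⟩ * ((M 1 0 : ℂ) * ⟨x, y⟩ + (M 1 1 : ℂ)) := by
      intro x y hy
      have h1 := hz0 x y hy
      rw [coe_smul, hσ] at h1
      have h2 := congrArg (starRingEnd ℂ) h1
      rw [Complex.conj_conj, div_eq_iff (denom_ne_zero M _)] at h2
      exact h2
    have k1 := key 0 1 one_pos
    have k2 := key 0 2 two_pos
    have k3 := key 1 1 one_pos
    rw [Complex.ext_iff] at k1 k2 k3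
    simp at k1 k2 k3
    obtain ⟨a1, a2⟩ := k1
    obtain ⟨b1, b2⟩ := k2
    obtain ⟨c1, c2⟩ := k3
    exfalso
    apply hne
    rw [hdet]
    have hc : M 1 0 = 0 := by linarith
    have hb : M 0 1 = 0 := by linarith
    have ha : M 0 0 = 0 := by nlinarith
    rw [ha, hb]
    ring

/-- the general linear group acts faithfully up to scalars -/
theorem gl_faithful (M M' : GL (Fin 2) ℝ) (h : ∀ z : ℍ, M • z = M' • z) :
    ∃ k : ℝ, k ≠ 0 ∧ ∀ i j, M i j = k * M' i j := by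
  obtain ⟨h1, h2, h3, h4⟩ := gl_faithful_aux (M'⁻¹ * M) (fun z => by
    rw [mul_smul, h z, inv_smul_smul])
  refine ⟨(M'⁻¹ * M) 0 0, h4, ?_⟩
  have hM : M = M' * (M'⁻¹ * M) := by group
  obtain ⟨N, hN⟩ : ∃ N, N = M'⁻¹ * M := ⟨_, rfl⟩
  rw [← hN] at h1 h2 h3 h4 hM ⊢
  intro i j
  have hMij : M i j = M' i 0 * N 0 j + M' i 1 * N 1 j := by
    conv_lhs => rw [hM]
    show ((M' : Matrix (Fin 2) (Fin 2) ℝ) * (N : Matrix (Fin 2) (Fin 2) ℝ)) i j = _
    rw [Matrix.mul_apply, Fin.sum_univ_two]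
  rw [hMij]
  fin_cases j
  · show M' i 0 * N 0 0 + M' i 1 * N 1 0 = N 0 0 * M' i 0
    rw [h2]
    ring
  · show M' i 0 * N 0 1 + M' i 1 * N 1 1 = N 0 0 * M' i 1
    rw [h1, h3]
    ring

/-- transformations commuting with a hyperbolic diagonal one are diagonal -/
theorem comm_diag (a b : ℝ) (ha : a ≠ 0) (hb : b ≠ 0) (hab : |a| ≠ |b|) (M : GL (Fin 2) ℝ)
    (h : ∀ z : ℍ, M • (dg a b ha hb • z) = dg a b ha hb • (M • z)) :
    ∃ (x y : ℝ) (hx : x ≠ 0) (hy : y ≠ 0), M = dg x y hx hy := by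
  obtain ⟨k, hk, hkk⟩ := gl_faithful (M * dg a b ha hb) (dg a b ha hb * M) (fun z => by
    rw [mul_smul, mul_smul]
    exact h z)
  have hab1 : a ≠ b := fun e => hab (by rw [e])
  have hab2 : a ≠ -b := fun e => hab (by rw [e, abs_neg])
  have hD : ∀ (x y : ℝ) (hx : x ≠ 0) (hy : y ≠ 0),
      ((dg x y hx hy : GL (Fin 2) ℝ) : Matrix (Fin 2) (Fin 2) ℝ) = !![x, 0; 0, y] := by
    intro x y hx hy
    rfl
  have e00 := hkk 0 0
  have e01 := hkk 0 1
  have e10 := hkk 1 0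
  have e11 := hkk 1 1
  rw [Units.val_mul, Units.val_mul, hD, Matrix.mul_apply, Matrix.mul_apply, Fin.sum_univ_two,
    Fin.sum_univ_two] at e00 e01 e10 e11
  simp only [Matrix.of_apply, Matrix.cons_val', Matrix.cons_val_zero, Matrix.cons_val_one,
    Matrix.cons_val_fin_one, mul_zero, zero_mul, add_zero, zero_add] at e00 e01 e10 e11
  have hdet : (M : Matrix (Fin 2) (Fin 2) ℝ) 0 0 * (M : Matrix (Fin 2) (Fin 2) ℝ) 1 1 -
      (M : Matrix (Fin 2) (Fin 2) ℝ) 0 1 * (M : Matrix (Fin 2) (Fin 2) ℝ) 1 0 ≠ 0 := by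
    have h1 := M.det_ne_zero
    rw [Matrix.det_fin_two] at h1
    exact h1
  generalize hM00 : (M : Matrix (Fin 2) (Fin 2) ℝ) 0 0 = p at *
  generalize hM01 : (M : Matrix (Fin 2) (Fin 2) ℝ) 0 1 = q at *
  generalize hM10 : (M : Matrix (Fin 2) (Fin 2) ℝ) 1 0 = r at *
  generalize hM11 : (M : Matrix (Fin 2) (Fin 2) ℝ) 1 1 = s at *
  have hk2 : (k - 1) * (k + 1) = 0 := by
    have h1 : (p * a) * (s * b) - (q * b) * (r * a) =
        (k * (a * p)) * (k * (b * s)) - (k * (a * q)) * (k * (b * r)) := by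
      rw [e00, e01, e10, e11]
    have h2 : ((k - 1) * (k + 1)) * ((p * s - q * r) * (a * b)) = 0 := by
      linear_combination -h1
    rcases mul_eq_zero.mp h2 with h3 | h3
    · exact h3
    · exact absurd h3 (mul_ne_zero hdet (mul_ne_zero ha hb))
  rcases mul_eq_zero.mp hk2 with h1 | h1
  · have hk1 : k = 1 := by linarith
    subst hk1
    have hq : q = 0 := by
      have h2 : q * (b - a) = 0 := by linear_combination e01
      rcases mul_eq_zero.mp h2 with h3 | h3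
      · exact h3
      · exact absurd (by linarith : a = b) hab1
    have hr : r = 0 := by
      have h2 : r * (a - b) = 0 := by linear_combination e10
      rcases mul_eq_zero.mp h2 with h3 | h3
      · exact h3
      · exact absurd (by linarith : a = b) hab1
    rw [hq, hr, mul_zero, sub_zero] at hdet
    refine ⟨p, s, left_ne_zero_of_mul hdet, right_ne_zero_of_mul hdet, ?_⟩
    apply Units.ext
    rw [hD]
    ext i j
    fin_cases i <;> fin_cases j
    · exact hM00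
    · exact hM01.trans hq
    · exact hM10.trans hr
    · exact hM11
  · have hk1 : k = -1 := by linarith
    subst hk1
    exfalso
    have hp : p = 0 := by
      have h2 : p * a = 0 := by linear_combination e00 / 2
      rcases mul_eq_zero.mp h2 with h3 | h3
      · exact h3
      · exact absurd h3 ha
    have hq : q = 0 := by
      have h2 : q * (b + a) = 0 := by linear_combination e01
      rcases mul_eq_zero.mp h2 with h3 | h3
      · exact h3
      · exact absurd (by linarith : a = -b) hab2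
    apply hdet
    rw [hp, hq]
    ring

/-- entries of a matrix: rows -/
theorem gl_ext_entries (M M' : GL (Fin 2) ℝ) (h00 : M 0 0 = M' 0 0) (h01 : M 0 1 = M' 0 1)
    (h10 : M 1 0 = M' 1 0) (h11 : M 1 1 = M' 1 1) : M = M' := by
  apply Units.ext
  ext i j
  fin_cases i <;> fin_cases j
  · exact h00
  · exact h01
  · exact h10
  · exact h11

/-- a matrix with nonzero determinant -/
noncomputable def mm (x y z w : ℝ) (h : x * w - y * z ≠ 0) : GL (Fin 2) ℝ :=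
  Matrix.GeneralLinearGroup.mkOfDetNeZero !![x, y; z, w] (by
    rw [Matrix.det_fin_two_of]
    exact h)

theorem mm00 (x y z w : ℝ) (h : x * w - y * z ≠ 0) : mm x y z w h 0 0 = x := rfl
theorem mm01 (x y z w : ℝ) (h : x * w - y * z ≠ 0) : mm x y z w h 0 1 = y := rfl
theorem mm10 (x y z w : ℝ) (h : x * w - y * z ≠ 0) : mm x y z w h 1 0 = z := rfl
theorem mm11 (x y z w : ℝ) (h : x * w - y * z ≠ 0) : mm x y z w h 1 1 = w := rfl
theorem dg00 (a b : ℝ) (ha : a ≠ 0) (hb : b ≠ 0) : dg a b ha hb 0 0 = a := rfl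
theorem dg01 (a b : ℝ) (ha : a ≠ 0) (hb : b ≠ 0) : dg a b ha hb 0 1 = 0 := rfl
theorem dg10 (a b : ℝ) (ha : a ≠ 0) (hb : b ≠ 0) : dg a b ha hb 1 0 = 0 := rfl
theorem dg11 (a b : ℝ) (ha : a ≠ 0) (hb : b ≠ 0) : dg a b ha hb 1 1 = b := rfl

theorem gl_mul (M N : GL (Fin 2) ℝ) (i j : Fin 2) :
    (M * N) i j = M i 0 * N 0 j + M i 1 * N 1 j := by
  rw [Units.val_mul, Matrix.mul_apply, Fin.sum_univ_two]

theorem gl_det (M : GL (Fin 2) ℝ) : M.det.val = M 0 0 * M 1 1 - M 0 1 * M 1 0 := by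
  rw [Matrix.GeneralLinearGroup.val_det_apply, Matrix.det_fin_two]

/-- positive discriminant: diagonalization -/
theorem diagz (M : GL (Fin 2) ℝ)
    (hd : 0 < (M 0 0 + M 1 1) ^ 2 - 4 * (M 0 0 * M 1 1 - M 0 1 * M 1 0)) :
    ∃ (A : GL (Fin 2) ℝ) (a b : ℝ) (ha : a ≠ 0) (hb : b ≠ 0), a ≠ b ∧
      M * A = A * dg a b ha hb := by
  have hD : M 0 0 * M 1 1 - M 0 1 * M 1 0 ≠ 0 := by
    rw [← gl_det]; exact M.det.ne_zero
  set p := M 0 0 with hp
  set q := M 0 1 with hq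
  set r := M 1 0 with hr
  set s := M 1 1 with hs
  by_cases h0 : r = 0
  · have hps : p * s ≠ 0 := by
      rw [h0] at hD; simpa using hD
    have hne : p ≠ s := by
      intro h
      rw [h0, h] at hd
      nlinarith
    have hp0 : p ≠ 0 := left_ne_zero_of_mul hps
    have hs0 : s ≠ 0 := right_ne_zero_of_mul hps
    have hA : (1 : ℝ) * (s - p) - q * 0 ≠ 0 := by
      simpa using sub_ne_zero.2 (Ne.symm hne)
    refine ⟨mm 1 q 0 (s - p) hA, p, s, hp0, hs0, hne, ?_⟩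
    apply gl_ext_entries <;> simp only [gl_mul, mm00, mm01, mm10, mm11, dg00, dg01, dg10, dg11,
      ← hp, ← hq, ← hr, ← hs, h0] <;> ring
  · set e := Real.sqrt ((p + s) ^ 2 - 4 * (p * s - q * r)) with he
    have he0 : 0 < e := Real.sqrt_pos.2 hd
    have he2 : e ^ 2 = (p + s) ^ 2 - 4 * (p * s - q * r) := Real.sq_sqrt hd.le
    set a := (p + s + e) / 2 with ha
    set b := (p + s - e) / 2 with hb
    have hab : a * b = p * s - q * r := by
      rw [ha, hb]; nlinarith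
    have hab0 : a * b ≠ 0 := by rw [hab]; exact hD
    have hne : a ≠ b := by
      intro h
      rw [ha, hb] at h
      linarith
    have ha0 : a ≠ 0 := left_ne_zero_of_mul hab0
    have hb0 : b ≠ 0 := right_ne_zero_of_mul hab0
    have hA : (a - s) * r - (b - s) * r ≠ 0 := by
      have : (a - s) * r - (b - s) * r = (a - b) * r := by ring
      rw [this]
      exact mul_ne_zero (sub_ne_zero.2 hne) h0
    have hab1 : a + b = p + s := by rw [ha, hb]; ring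
    refine ⟨mm (a - s) (b - s) r r hA, a, b, ha0, hb0, hne, ?_⟩
    apply gl_ext_entries <;> simp only [gl_mul, mm00, mm01, mm10, mm11, dg00, dg01, dg10, dg11,
      ← hp, ← hq, ← hr, ← hs]
    · have hb' : b = p + s - a := by linarith
      rw [hb'] at hab
      linarith
    · have ha' : a = p + s - b := by linarith
      rw [ha'] at hab
      linarith
    · ring
    · ring

/-- parabolic elements have small displacement -/
theorem para (l m : ℝ) (h : l * l - m * 0 ≠ 0) (ε : ℝ) (hε : 0 < ε) :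
    ∃ z : ℍ, dist z (mm l m 0 l h • z) < ε := by
  have hl : l ≠ 0 := by
    intro h0; apply h; rw [h0]; ring
  set t := |m / l| with ht
  have ht0 : 0 ≤ t := abs_nonneg _
  have hy : 0 < (t + 1) / ε := by positivity
  set y := (t + 1) / ε with hyd
  refine ⟨⟨⟨0, y⟩, hy⟩, ?_⟩
  have hdet : 0 < (mm l m 0 l h).det.val := by
    rw [gl_det, mm00, mm01, mm10, mm11]
    have : 0 < l * l := mul_self_pos.2 hl
    linarith
  have hlC : (l : ℂ) ≠ 0 := Complex.ofReal_ne_zero.2 hl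
  have hco : (↑(mm l m 0 l h • (⟨⟨0, y⟩, hy⟩ : ℍ)) : ℂ) = ⟨m / l, y⟩ := by
    rw [coe_smul_of_det_pos hdet, num, denom, mm00, mm01, mm10, mm11]
    have e1 : ((⟨⟨0, y⟩, hy⟩ : ℍ) : ℂ) = ⟨0, y⟩ := rfl
    rw [e1]
    have e2 : (⟨0, y⟩ : ℂ) = y * Complex.I := by
      apply Complex.ext <;> simp
    have e3 : (⟨m / l, y⟩ : ℂ) = m / l + y * Complex.I := by
      apply Complex.ext <;> simp [← Complex.ofReal_div]
    rw [e2, e3, Complex.ofReal_zero, zero_mul, zero_add, div_eq_iff hlC, add_mul,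
      div_mul_cancel₀ _ hlC]
    ring
  have him : (mm l m 0 l h • (⟨⟨0, y⟩, hy⟩ : ℍ)).im = y := by
    have := congrArg Complex.im hco
    simpa using this
  refine lt_of_le_of_lt (UpperHalfPlane.dist_le_dist_coe_div_sqrt _ _) ?_
  rw [him, hco]
  have e4 : (⟨⟨0, y⟩, hy⟩ : ℍ).im = y := rfl
  have e1 : ((⟨⟨0, y⟩, hy⟩ : ℍ) : ℂ) = ⟨0, y⟩ := rfl
  rw [e4, e1, Real.sqrt_mul_self hy.le, Complex.dist_eq]
  have e5 : (⟨0, y⟩ : ℂ) - ⟨m / l, y⟩ = ((-(m / l) : ℝ) : ℂ) := by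
    apply Complex.ext <;> simp
  rw [e5, Complex.norm_real, Real.norm_eq_abs, abs_neg, ← ht, div_lt_iff₀ hy, hyd]
  have : ε * ((t + 1) / ε) = t + 1 := by field_simp
  rw [this]
  linarith

/-- transfer of small displacement -/
theorem smdis (M A P : GL (Fin 2) ℝ) (h : M * A = A * P) (ε : ℝ)
    (hP : ∃ z : ℍ, dist z (P • z) < ε) : ∃ z : ℍ, dist z (M • z) < ε := by
  obtain ⟨z, hz⟩ := hP
  refine ⟨A • z, ?_⟩
  rw [← mul_smul, h, mul_smul, gl_dist]
  exact hz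

/-- classification: fixed point, hyperbolic, or arbitrarily small displacement -/
theorem classify (M : GL (Fin 2) ℝ) :
    (∃ z : ℍ, M • z = z) ∨
    (∃ (A : GL (Fin 2) ℝ) (a b : ℝ) (ha : a ≠ 0) (hb : b ≠ 0), |a| ≠ |b| ∧
      ∀ z : ℍ, M • (A • z) = A • (dg a b ha hb • z)) ∨
    (∀ ε > 0, ∃ z : ℍ, dist z (M • z) < ε) := by
  have hD : M 0 0 * M 1 1 - M 0 1 * M 1 0 ≠ 0 := by
    rw [← gl_det]; exact M.det.ne_zero
  rcases lt_trichotomy 0 ((M 0 0 + M 1 1) ^ 2 - 4 * (M 0 0 * M 1 1 - M 0 1 * M 1 0)) with hd | hd | hd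
  · obtain ⟨A, a, b, ha, hb, hne, h⟩ := diagz M hd
    by_cases hab : |a| = |b|
    · left
      refine ⟨A • (⟨⟨0, 1⟩, one_pos⟩ : ℍ), ?_⟩
      rw [← mul_smul, h, mul_smul, dg_im a b ha hb 1 one_pos]
      congr 1
      apply UpperHalfPlane.ext
      change (⟨0, |a / b| * 1⟩ : ℂ) = ⟨0, 1⟩
      rw [abs_div, hab, div_self (abs_ne_zero.2 hb), one_mul]
    · right; left
      refine ⟨A, a, b, ha, hb, hab, ?_⟩
      intro z
      rw [← mul_smul, h, mul_smul]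
  · right; right
    intro ε hε
    have hd' := hd.symm
    set p := M 0 0 with hp
    set q := M 0 1 with hq
    set r := M 1 0 with hr
    set s := M 1 1 with hs
    by_cases h0 : r = 0
    · rw [h0] at hd' hD
      have hps : p = s := by
        have : (p - s) ^ 2 = 0 := by linarith
        have := pow_eq_zero_iff (two_ne_zero) |>.1 this
        linarith
      have hdet : p * p - q * 0 ≠ 0 := by
        rw [← hps] at hD; exact hD
      have hM : M = mm p q 0 p hdet := by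
        apply gl_ext_entries <;> simp only [mm00, mm01, mm10, mm11, ← hp, ← hq, ← hr, ← hs, h0]
        exact hps.symm
      rw [hM]
      exact para p q hdet ε hε
    · set l := (p + s) / 2 with hl
      have hll : l * l = p * s - q * r := by rw [hl]; nlinarith
      have hdet : l * l - 1 * 0 ≠ 0 := by
        rw [hll]; simpa using hD
      have hA : (p - l) * 0 - 1 * r ≠ 0 := by simpa using h0
      refine smdis M (mm (p - l) 1 r 0 hA) (mm l 1 0 l hdet) ?_ ε (para l 1 hdet ε hε)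
      have hl2 : s = 2 * l - p := by rw [hl]; ring
      apply gl_ext_entries <;> simp only [gl_mul, mm00, mm01, mm10, mm11,
        ← hp, ← hq, ← hr, ← hs]
      · rw [hl2] at hll
        linarith
      · ring
      · rw [hl2]; ring
      · ring
  · left
    set p := M 0 0 with hp
    set q := M 0 1 with hq
    set r := M 1 0 with hr
    set s := M 1 1 with hs
    have hr0 : r ≠ 0 := by
      intro h0
      rw [h0] at hd
      nlinarith [sq_nonneg (p - s)]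
    have hDpos : 0 < M.det.val := by
      rw [gl_det, ← hp, ← hq, ← hr, ← hs]
      nlinarith [sq_nonneg (p + s)]
    set e := Real.sqrt (-((p + s) ^ 2 - 4 * (p * s - q * r))) with he
    have hneg : 0 < -((p + s) ^ 2 - 4 * (p * s - q * r)) := by linarith
    have he0 : 0 < e := Real.sqrt_pos.2 hneg
    have he2 : e ^ 2 = -((p + s) ^ 2 - 4 * (p * s - q * r)) := Real.sq_sqrt hneg.le
    have hy : 0 < e / (2 * |r|) := by
      have := abs_pos.2 hr0
      positivity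
    refine ⟨⟨⟨(p - s) / (2 * r), e / (2 * |r|)⟩, hy⟩, ?_⟩
    apply UpperHalfPlane.ext
    have hden := denom_ne_zero M (⟨⟨(p - s) / (2 * r), e / (2 * |r|)⟩, hy⟩ : ℍ)
    rw [coe_smul_of_det_pos hDpos, div_eq_iff hden, num, denom]
    have e1 : ((⟨⟨(p - s) / (2 * r), e / (2 * |r|)⟩, hy⟩ : ℍ) : ℂ) =
      ⟨(p - s) / (2 * r), e / (2 * |r|)⟩ := rfl
    rw [e1, ← hp, ← hq, ← hr, ← hs]
    have hz1 : r * ((p - s) / (2 * r)) = (p - s) / 2 := by field_simp
    have hz2 : (r * (e / (2 * |r|))) ^ 2 = e ^ 2 / 4 := by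
      have : |r| ^ 2 = r ^ 2 := sq_abs r
      have hra : |r| ≠ 0 := abs_ne_zero.2 hr0
      rw [mul_pow, div_pow, mul_pow, this]
      field_simp
      norm_num
    set x := (p - s) / (2 * r) with hx
    set w := e / (2 * |r|) with hw
    apply Complex.ext
    · simp
      have key : r * (r * x ^ 2 - r * w ^ 2 + (s - p) * x - q) = 0 := by
        have : r * (r * x ^ 2 - r * w ^ 2 + (s - p) * x - q) =
          (r * x) ^ 2 - (r * w) ^ 2 + (s - p) * (r * x) - q * r := by ring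
        rw [this, hz1, hz2, he2]
        ring
      have key2 := (mul_eq_zero.1 key).resolve_left hr0
      nlinarith
    · simp
      have : p * w = 2 * (r * x) * w + s * w := by rw [hz1]; ring
      linarith

section

variable {Γ : Type} [Group Γ] [MulAction Γ ℍ]

/-- displacements are bounded below for free, properly discontinuous, cocompact actions -/
theorem displ (hiso : ∀ γ : Γ, ∃ M : GL (Fin 2) ℝ, ∀ z : ℍ, γ • z = M • z)
    (hfree : ∀ (γ : Γ) (z : ℍ), γ • z = z → γ = 1) [ProperlyDiscontinuousSMul Γ ℍ]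
    (K : Set ℍ) (hK : IsCompact K) (hcc : ∀ z : ℍ, ∃ γ : Γ, γ • z ∈ K) :
    ∃ ε > 0, ∀ γ : Γ, γ ≠ 1 → ∀ z : ℍ, ε ≤ dist z (γ • z) := by
  classical
  have hdist : ∀ (γ : Γ) (z w : ℍ), dist (γ • z) (γ • w) = dist z w := by
    intro γ z w
    obtain ⟨M, hM⟩ := hiso γ
    rw [hM, hM]
    exact gl_dist M z w
  have hcont : ∀ γ : Γ, Continuous (fun z : ℍ => γ • z) := fun γ =>
    (Isometry.of_dist_eq (hdist γ)).continuous
  have hL : IsCompact (Metric.cthickening 1 K) := hK.cthickening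
  have hF := ProperlyDiscontinuousSMul.finite_disjoint_inter_image (Γ := Γ) hK hL
  have he : ∀ γ : Γ, ∃ e : ℝ, 0 < e ∧ (γ ≠ 1 → ∀ w ∈ K, e ≤ dist w (γ • w)) := by
    intro γ
    by_cases hγ : γ = 1
    · exact ⟨1, one_pos, fun h => absurd hγ h⟩
    rcases K.eq_empty_or_nonempty with h0 | hne
    · exact ⟨1, one_pos, fun _ w hw => by rw [h0] at hw; exact absurd hw (Set.notMem_empty w)⟩
    obtain ⟨w₀, hw₀, hmin⟩ := hK.exists_isMinOn hne
      (f := fun w : ℍ => dist w (γ • w)) (continuous_id.dist (hcont γ)).continuousOn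
    refine ⟨dist w₀ (γ • w₀), ?_, fun _ w hw => hmin hw⟩
    rw [dist_pos]
    intro h
    exact hγ (hfree γ w₀ h.symm)
  choose e he0 he1 using he
  obtain ⟨γ₀, -, hγ₀⟩ := Finset.exists_min_image (insert 1 hF.toFinset) e
    (Finset.insert_nonempty _ _)
  refine ⟨min 1 (e γ₀), lt_min one_pos (he0 γ₀), ?_⟩
  intro γ hγ z
  obtain ⟨g, hg⟩ := hcc z
  have hδ : g * γ * g⁻¹ ≠ 1 := by
    intro h
    apply hγ
    have : g * γ = g := by
      have := congrArg (· * g) h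
      simpa using this
    simpa using this
  have hd : dist z (γ • z) = dist (g • z) ((g * γ * g⁻¹) • (g • z)) := by
    rw [smul_smul, inv_mul_cancel_right, mul_smul, hdist]
  rw [hd]
  by_cases h1 : dist (g • z) ((g * γ * g⁻¹) • (g • z)) < 1
  · have hmem : (g * γ * g⁻¹) • (g • z) ∈ Metric.cthickening 1 K := by
      refine Metric.mem_cthickening_of_dist_le _ (g • z) 1 K hg ?_
      rw [dist_comm]
      exact h1.le
    have hin : g * γ * g⁻¹ ∈ insert 1 hF.toFinset := by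
      refine Finset.mem_insert_of_mem ?_
      rw [Set.Finite.mem_toFinset]
      have hne : ((fun x : ℍ => (g * γ * g⁻¹) • x) '' K ∩ Metric.cthickening 1 K).Nonempty :=
        ⟨(g * γ * g⁻¹) • (g • z), ⟨g • z, hg, rfl⟩, hmem⟩
      exact hne
    exact (min_le_right _ _).trans ((hγ₀ _ hin).trans (he1 _ hδ _ hg))
  · exact (min_le_left _ _).trans (not_lt.1 h1)

/-- every nontrivial element is hyperbolic -/
theorem hyp (hiso : ∀ γ : Γ, ∃ M : GL (Fin 2) ℝ, ∀ z : ℍ, γ • z = M • z)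
    (hfree : ∀ (γ : Γ) (z : ℍ), γ • z = z → γ = 1) [ProperlyDiscontinuousSMul Γ ℍ]
    (K : Set ℍ) (hK : IsCompact K) (hcc : ∀ z : ℍ, ∃ γ : Γ, γ • z ∈ K) (γ : Γ) (hγ : γ ≠ 1) :
    ∃ (A : GL (Fin 2) ℝ) (a b : ℝ) (ha : a ≠ 0) (hb : b ≠ 0), |a| ≠ |b| ∧
      ∀ z : ℍ, γ • (A • z) = A • (dg a b ha hb • z) := by
  obtain ⟨M, hM⟩ := hiso γ
  obtain ⟨ε, hε, hd⟩ := displ hiso hfree K hK hcc
  rcases classify M with ⟨z, hz⟩ | ⟨A, a, b, ha, hb, hab, h⟩ | h
  · exact absurd (hfree γ z ((hM z).trans hz)) hγ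
  · exact ⟨A, a, b, ha, hb, hab, fun z => (hM _).trans (h z)⟩
  · obtain ⟨z, hz⟩ := h ε hε
    have := hd γ hγ z
    rw [hM z] at this
    exact absurd hz (not_lt.2 this)

theorem geo_tf_pt {y y' : ℝ} (hy : 0 < y) (hy' : 0 < y') (h : y = y') :
    (⟨⟨0, y⟩, hy⟩ : ℍ) = ⟨⟨0, y'⟩, hy'⟩ := by
  subst h
  rfl

/-- no torsion -/
theorem geo_tf (hiso : ∀ γ : Γ, ∃ M : GL (Fin 2) ℝ, ∀ z : ℍ, γ • z = M • z)
    (hfree : ∀ (γ : Γ) (z : ℍ), γ • z = z → γ = 1)
    (hyp : ∀ γ : Γ, γ ≠ 1 → ∃ (A : GL (Fin 2) ℝ) (a b : ℝ) (ha : a ≠ 0) (hb : b ≠ 0), |a| ≠ |b| ∧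
      ∀ z : ℍ, γ • (A • z) = A • (dg a b ha hb • z))
    (γ : Γ) (hγ : γ ≠ 1) (n : ℤ) (hn : n ≠ 0) : γ ^ n ≠ 1 := by
  intro h
  obtain ⟨A, a, b, ha, hb, hab, hA⟩ := hyp γ hγ
  have hpos : 0 < |a / b| := abs_pos.2 (div_ne_zero ha hb)
  have key : ∀ (k : ℕ) (y : ℝ) (hy : 0 < y), γ ^ k • (A • (⟨⟨0, y⟩, hy⟩ : ℍ)) =
      A • (⟨⟨0, |a / b| ^ k * y⟩, mul_pos (pow_pos hpos k) hy⟩ : ℍ) := by
    intro k
    induction k with
    | zero =>
      intro y hy
      rw [pow_zero, one_smul]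
      congr 1
      exact geo_tf_pt _ _ (by rw [pow_zero, one_mul])
    | succ k ih =>
      intro y hy
      rw [pow_succ, mul_smul, hA, dg_im, ih]
      congr 1
      exact geo_tf_pt _ _ (by rw [pow_succ, mul_assoc])
  have h1 : γ ^ n.natAbs = 1 := pow_natAbs_eq_one.2 h
  have h2 := key n.natAbs 1 one_pos
  rw [h1, one_smul] at h2
  have h3 := smul_left_cancel A h2
  have h4 : (1 : ℝ) = |a / b| ^ n.natAbs * 1 := congrArg UpperHalfPlane.im h3
  rw [mul_one] at h4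
  have h5 : |a / b| = 1 :=
    (pow_eq_one_iff_of_nonneg hpos.le (Int.natAbs_ne_zero.2 hn)).1 h4.symm
  rw [abs_div, div_eq_one_iff_eq (abs_ne_zero.2 hb)] at h5
  exact hab h5


/-- the point `i exp s` -/
noncomputable def ccP (s : ℝ) : ℍ := ⟨⟨0, Real.exp s⟩, Real.exp_pos s⟩

theorem ccP_im (s : ℝ) : (ccP s).im = Real.exp s := rfl

theorem ccP_re (s : ℝ) : (ccP s).re = 0 := rfl

theorem ccP_dist (s t : ℝ) : dist (ccP s) (ccP t) = |s - t| := by
  rw [UpperHalfPlane.dist_of_re_eq (by rw [ccP_re, ccP_re]), ccP_im, ccP_im, Real.log_exp,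
    Real.log_exp, Real.dist_eq]

theorem cc_mk_congr (y y' : ℝ) (h : 0 < y) (h' : 0 < y') (e : y = y') :
    (⟨⟨0, y⟩, h⟩ : ℍ) = ⟨⟨0, y'⟩, h'⟩ := by
  subst e
  rfl

theorem ccP_dg (u v : ℝ) (hu : u ≠ 0) (hv : v ≠ 0) (s : ℝ) :
    dg u v hu hv • ccP s = ccP (s + Real.log |u / v|) := by
  have hp : 0 < |u / v| := abs_pos.2 (div_ne_zero hu hv)
  have h1 : dg u v hu hv • ccP s =
      ⟨⟨0, |u / v| * Real.exp s⟩, mul_pos (abs_pos.2 (div_ne_zero hu hv)) (Real.exp_pos s)⟩ :=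
    dg_im u v hu hv (Real.exp s) (Real.exp_pos s)
  rw [h1]
  apply cc_mk_congr
  rw [Real.exp_add, Real.exp_log hp, mul_comm]

/-- `x` centralizes `γ` and translates along the axis by `r` -/
def ccR (γ : Γ) (A : GL (Fin 2) ℝ) (x : Γ) (r : ℝ) : Prop :=
  x * γ = γ * x ∧ ∀ s : ℝ, x • (A • ccP s) = A • ccP (s + r)

theorem ccR_one (γ : Γ) (A : GL (Fin 2) ℝ) : ccR γ A 1 0 := by
  refine ⟨by rw [one_mul, mul_one], fun s => ?_⟩
  rw [one_smul, add_zero]

theorem ccR_mul {γ : Γ} {A : GL (Fin 2) ℝ} {x x' : Γ} {r r' : ℝ} (h : ccR γ A x r)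
    (h' : ccR γ A x' r') : ccR γ A (x * x') (r + r') := by
  refine ⟨?_, fun s => ?_⟩
  · rw [mul_assoc, h'.1, ← mul_assoc, h.1, mul_assoc]
  · rw [mul_smul, h'.2, h.2, add_assoc, add_comm r' r]

theorem ccR_inv {γ : Γ} {A : GL (Fin 2) ℝ} {x : Γ} {r : ℝ} (h : ccR γ A x r) :
    ccR γ A x⁻¹ (-r) := by
  refine ⟨?_, fun s => ?_⟩
  · rw [inv_mul_eq_iff_eq_mul, ← mul_assoc, h.1, mul_assoc, mul_inv_cancel, mul_one]
  · rw [inv_smul_eq_iff, h.2, neg_add_cancel_right]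

theorem ccR_pow {γ : Γ} {A : GL (Fin 2) ℝ} {x : Γ} {r : ℝ} (h : ccR γ A x r) (n : ℕ) :
    ccR γ A (x ^ n) (n • r) := by
  induction n with
  | zero =>
    rw [pow_zero, zero_smul]
    exact ccR_one γ A
  | succ n ih =>
    rw [pow_succ, succ_nsmul]
    exact ccR_mul ih h

theorem ccR_zpow {γ : Γ} {A : GL (Fin 2) ℝ} {x : Γ} {r : ℝ} (h : ccR γ A x r) (n : ℤ) :
    ccR γ A (x ^ n) (n • r) := by
  obtain ⟨m, hm | hm⟩ := n.eq_nat_or_neg
  · rw [hm, zpow_natCast, natCast_zsmul]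
    exact ccR_pow h m
  · rw [hm, zpow_neg, zpow_natCast, neg_zsmul, natCast_zsmul]
    exact ccR_inv (ccR_pow h m)

/-- centralizers are cyclic -/
theorem geo_cc (hiso : ∀ γ : Γ, ∃ M : GL (Fin 2) ℝ, ∀ z : ℍ, γ • z = M • z)
    (hfree : ∀ (γ : Γ) (z : ℍ), γ • z = z → γ = 1) [ProperlyDiscontinuousSMul Γ ℍ]
    (hyp : ∀ γ : Γ, γ ≠ 1 → ∃ (A : GL (Fin 2) ℝ) (a b : ℝ) (ha : a ≠ 0) (hb : b ≠ 0), |a| ≠ |b| ∧
      ∀ z : ℍ, γ • (A • z) = A • (dg a b ha hb • z))
    (γ : Γ) (hγ : γ ≠ 1) : ∃ c : Γ, ∀ x : Γ, x * γ = γ * x ↔ ∃ n : ℤ, x = c ^ n := by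
  obtain ⟨A, a, b, ha, hb, hab, hA⟩ := hyp γ hγ
  -- every element of the centralizer translates along the axis
  have hex : ∀ x : Γ, x * γ = γ * x → ∃ r : ℝ, ccR γ A x r := by
    intro x hx
    obtain ⟨X, hX⟩ := hiso x
    have hA' : ∀ z : ℍ, γ • z = A • (dg a b ha hb • (A⁻¹ • z)) := by
      intro z
      have h1 := hA (A⁻¹ • z)
      rw [smul_inv_smul] at h1
      exact h1
    have hcomm : ∀ z : ℍ, (A⁻¹ * X * A) • (dg a b ha hb • z) =
        dg a b ha hb • ((A⁻¹ * X * A) • z) := by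
      intro z
      rw [mul_smul, mul_smul, mul_smul, mul_smul, ← hA, ← hX, ← mul_smul x γ, hx, mul_smul γ x, hA',
        inv_smul_smul, ← hX]
    obtain ⟨u, v, hu, hv, huv⟩ := comm_diag a b ha hb hab _ hcomm
    refine ⟨Real.log |u / v|, hx, fun s => ?_⟩
    have h1 : A⁻¹ • (X • (A • ccP s)) = dg u v hu hv • ccP s := by
      rw [← huv, mul_smul, mul_smul]
    rw [hX, ← ccP_dg u v hu hv s, ← h1, smul_inv_smul]
  obtain ⟨H, hH⟩ : ∃ H : AddSubgroup ℝ, ∀ r : ℝ, r ∈ H ↔ ∃ x : Γ, ccR γ A x r := by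
    refine ⟨{ carrier := {r | ∃ x : Γ, ccR γ A x r}
              zero_mem' := ⟨1, ccR_one γ A⟩
              add_mem' := ?_
              neg_mem' := ?_ }, fun r => Iff.rfl⟩
    · rintro r r' ⟨x, hx⟩ ⟨x', hx'⟩
      exact ⟨x * x', ccR_mul hx hx'⟩
    · rintro r ⟨x, hx⟩
      exact ⟨x⁻¹, ccR_inv hx⟩
  -- finiteness
  have hfin : ((H : Set ℝ) ∩ Ioo 0 1).Finite := by
    have h1 := ProperlyDiscontinuousSMul.finite_disjoint_inter_image (Γ := Γ)
      (K := {A • ccP 0}) (L := Metric.closedBall (A • ccP 0) 1) isCompact_singleton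
      (isCompact_closedBall _ _)
    refine (h1.image (fun x : Γ => Real.log (A⁻¹ • (x • (A • ccP 0))).im)).subset ?_
    rintro r ⟨hr, hr0, hr1⟩
    obtain ⟨x, hx⟩ := (hH r).mp hr
    have h2 := hx.2 0
    rw [zero_add] at h2
    refine ⟨x, ?_, ?_⟩
    · refine ⟨x • (A • ccP 0), ⟨A • ccP 0, rfl, rfl⟩, ?_⟩
      rw [Metric.mem_closedBall, h2, gl_dist, ccP_dist, sub_zero, abs_of_pos hr0]
      exact hr1.le
    · show Real.log (A⁻¹ • (x • (A • ccP 0))).im = r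
      rw [h2, inv_smul_smul, ccP_im, Real.log_exp]
  have hiso0 : ∃ a : ℝ, 0 < a ∧ Disjoint (H : Set ℝ) (Ioo 0 a) := by
    rcases Set.eq_empty_or_nonempty ((H : Set ℝ) ∩ Ioo 0 1) with h | h
    · exact ⟨1, one_pos, Set.disjoint_iff_inter_eq_empty.mpr h⟩
    · obtain ⟨m, hm, hmin⟩ := Set.exists_min_image _ id hfin h
      refine ⟨m, hm.2.1, ?_⟩
      rw [Set.disjoint_left]
      intro r hr hrm
      have h3 := hmin r ⟨hr, hrm.1, hrm.2.trans hm.2.2⟩
      exact absurd hrm.2 (not_lt.mpr h3)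
  obtain ⟨a0, ha0, hdis⟩ := hiso0
  obtain ⟨g, hg⟩ := AddSubgroup.cyclic_of_isolated_zero ha0 hdis
  have hgH : g ∈ H := by
    rw [hg]
    exact AddSubgroup.mem_closure_singleton_self g
  obtain ⟨c, hc⟩ := (hH g).mp hgH
  refine ⟨c, fun x => ⟨fun hx => ?_, ?_⟩⟩
  · obtain ⟨r, hr⟩ := hex x hx
    have hrH : r ∈ H := (hH r).mpr ⟨x, hr⟩
    rw [hg, AddSubgroup.mem_closure_singleton] at hrH
    obtain ⟨n, hn⟩ := hrH
    refine ⟨n, ?_⟩
    have h1 := ccR_mul (ccR_inv (ccR_zpow hc n)) hr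
    rw [hn, neg_add_cancel] at h1
    have h2 := h1.2 0
    rw [add_zero] at h2
    have h3 := hfree _ _ h2
    rw [inv_mul_eq_one] at h3
    exact h3.symm
  · rintro ⟨n, rfl⟩
    exact (ccR_zpow hc n).1

end

/-- coefficients of the quadratic form of a point -/
noncomputable def htpyQa (z : ℍ) : ℝ := (z.re ^ 2 + z.im ^ 2) / z.im

noncomputable def htpyQb (z : ℍ) : ℝ := z.re / z.im

noncomputable def htpyQc (z : ℍ) : ℝ := 1 / z.im

theorem htpyN_pos (M : GL (Fin 2) ℝ) (z : ℍ) :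
    0 < (M 1 0 * z.re + M 1 1) ^ 2 + (M 1 0 * z.im) ^ 2 := by
  have h := UpperHalfPlane.normSq_denom_pos M (z := (z : ℂ)) z.im_ne_zero
  have e : Complex.normSq (UpperHalfPlane.denom M (z : ℂ)) =
      (M 1 0 * z.re + M 1 1) ^ 2 + (M 1 0 * z.im) ^ 2 := by
    rw [Complex.normSq_apply, UpperHalfPlane.denom]
    simp
    ring
  rwa [e] at h

theorem htpyD_ne (M : GL (Fin 2) ℝ) : M 0 0 * M 1 1 - M 0 1 * M 1 0 ≠ 0 := by
  have h := M.det.ne_zero
  have e : M.det.val = M 0 0 * M 1 1 - M 0 1 * M 1 0 := Matrix.det_fin_two _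
  rwa [e] at h

theorem htpy_re (M : GL (Fin 2) ℝ) (z : ℍ) : (M • z).re =
    (M 0 0 * M 1 0 * (z.re ^ 2 + z.im ^ 2) + (M 0 0 * M 1 1 + M 0 1 * M 1 0) * z.re +
      M 0 1 * M 1 1) / ((M 1 0 * z.re + M 1 1) ^ 2 + (M 1 0 * z.im) ^ 2) := by
  have e : Complex.normSq (UpperHalfPlane.denom M (z : ℂ)) =
      (M 1 0 * z.re + M 1 1) ^ 2 + (M 1 0 * z.im) ^ 2 := by
    rw [Complex.normSq_apply, UpperHalfPlane.denom]
    simp
    ring
  rw [UpperHalfPlane.re_smul, Complex.div_re, e, ← add_div]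
  congr 1
  rw [UpperHalfPlane.denom, UpperHalfPlane.num]
  simp
  ring

theorem htpy_im (M : GL (Fin 2) ℝ) (z : ℍ) : (M • z).im =
    |M 0 0 * M 1 1 - M 0 1 * M 1 0| * z.im /
      ((M 1 0 * z.re + M 1 1) ^ 2 + (M 1 0 * z.im) ^ 2) := by
  have e : Complex.normSq (UpperHalfPlane.denom M (z : ℂ)) =
      (M 1 0 * z.re + M 1 1) ^ 2 + (M 1 0 * z.im) ^ 2 := by
    rw [Complex.normSq_apply, UpperHalfPlane.denom]
    simp
    ring
  have e2 : M.det.val = M 0 0 * M 1 1 - M 0 1 * M 1 0 := Matrix.det_fin_two _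
  rw [UpperHalfPlane.im_smul_eq_div_normSq, e, e2]

theorem htpy_qa (M : GL (Fin 2) ℝ) (z : ℍ) : htpyQa (M • z) =
    (M 0 0 ^ 2 * htpyQa z + 2 * M 0 0 * M 0 1 * htpyQb z + M 0 1 ^ 2 * htpyQc z) /
      |M 0 0 * M 1 1 - M 0 1 * M 1 0| := by
  have hN := htpyN_pos M z
  have hD : |M 0 0 * M 1 1 - M 0 1 * M 1 0| ≠ 0 := abs_ne_zero.2 (htpyD_ne M)
  have hD2 : |M 0 0 * M 1 1 - M 0 1 * M 1 0| ^ 2 = (M 0 0 * M 1 1 - M 0 1 * M 1 0) ^ 2 := sq_abs _
  have hy := z.im_ne_zero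
  unfold htpyQa htpyQb htpyQc
  rw [htpy_re, htpy_im]
  generalize |M 0 0 * M 1 1 - M 0 1 * M 1 0| = D at *
  generalize M 0 0 = a at *
  generalize M 0 1 = b at *
  generalize M 1 0 = c at *
  generalize M 1 1 = d at *
  generalize z.re = x at *
  generalize z.im = y at *
  have hN' := hN.ne'
  have key : (a * c * (x ^ 2 + y ^ 2) + (a * d + b * c) * x + b * d) ^ 2 + (D * y) ^ 2 =
      ((c * x + d) ^ 2 + (c * y) ^ 2) * (a ^ 2 * (x ^ 2 + y ^ 2) + 2 * a * b * x + b ^ 2) := by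
    rw [mul_pow, hD2]
    ring
  have e1 : ((a * c * (x ^ 2 + y ^ 2) + (a * d + b * c) * x + b * d) /
      ((c * x + d) ^ 2 + (c * y) ^ 2)) ^ 2 + (D * y / ((c * x + d) ^ 2 + (c * y) ^ 2)) ^ 2 =
      (a ^ 2 * (x ^ 2 + y ^ 2) + 2 * a * b * x + b ^ 2) / ((c * x + d) ^ 2 + (c * y) ^ 2) := by
    rw [div_pow, div_pow, ← add_div, key, pow_two ((c * x + d) ^ 2 + (c * y) ^ 2),
      mul_div_mul_left _ _ hN']
  rw [e1, div_div_div_cancel_right₀ hN']
  field_simp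

theorem htpy_qb (M : GL (Fin 2) ℝ) (z : ℍ) : htpyQb (M • z) =
    (M 0 0 * M 1 0 * htpyQa z + (M 0 0 * M 1 1 + M 0 1 * M 1 0) * htpyQb z + M 0 1 * M 1 1 * htpyQc z) /
      |M 0 0 * M 1 1 - M 0 1 * M 1 0| := by
  have hN := (htpyN_pos M z).ne'
  have hD : |M 0 0 * M 1 1 - M 0 1 * M 1 0| ≠ 0 := abs_ne_zero.2 (htpyD_ne M)
  have hy := z.im_ne_zero
  unfold htpyQa htpyQb htpyQc
  rw [htpy_re, htpy_im, div_div_div_cancel_right₀ hN]
  field_simp

theorem htpy_qc (M : GL (Fin 2) ℝ) (z : ℍ) : htpyQc (M • z) =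
    (M 1 0 ^ 2 * htpyQa z + 2 * M 1 0 * M 1 1 * htpyQb z + M 1 1 ^ 2 * htpyQc z) /
      |M 0 0 * M 1 1 - M 0 1 * M 1 0| := by
  have hN := (htpyN_pos M z).ne'
  have hD : |M 0 0 * M 1 1 - M 0 1 * M 1 0| ≠ 0 := abs_ne_zero.2 (htpyD_ne M)
  have hy := z.im_ne_zero
  unfold htpyQa htpyQb htpyQc
  rw [htpy_im, one_div_div]
  field_simp
  ring


theorem htpy_disc (z : ℍ) : htpyQa z * htpyQc z - htpyQb z ^ 2 = 1 := by
  have hy := z.im_ne_zero
  unfold htpyQa htpyQb htpyQc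
  field_simp
  ring

/-- the pencil of quadratic forms -/
noncomputable def htpyA (y : ℍ × ℍ) (t : ℝ) : ℝ := (1 - t) * htpyQa y.1 + t * htpyQa y.2

noncomputable def htpyB (y : ℍ × ℍ) (t : ℝ) : ℝ := (1 - t) * htpyQb y.1 + t * htpyQb y.2

noncomputable def htpyC (y : ℍ × ℍ) (t : ℝ) : ℝ := (1 - t) * htpyQc y.1 + t * htpyQc y.2

noncomputable def htpyDel (y : ℍ × ℍ) (t : ℝ) : ℝ := htpyA y t * htpyC y t - htpyB y t ^ 2

theorem htpyQc_pos (z : ℍ) : 0 < htpyQc z := one_div_pos.2 z.im_pos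

theorem htpyC_pos (y : ℍ × ℍ) (t : ℝ) (h0 : 0 ≤ t) (h1 : t ≤ 1) : 0 < htpyC y t := by
  unfold htpyC
  have a1 := htpyQc_pos y.1
  have a2 := htpyQc_pos y.2
  rcases eq_or_lt_of_le h0 with h | h
  · rw [← h]
    simpa using a1
  · have b1 : 0 ≤ (1 - t) * htpyQc y.1 := mul_nonneg (by linarith) a1.le
    have b2 : 0 < t * htpyQc y.2 := mul_pos h a2
    linarith

theorem htpyDel_pos (y : ℍ × ℍ) (t : ℝ) (h0 : 0 ≤ t) (h1 : t ≤ 1) : 0 < htpyDel y t := by
  have d1 := htpy_disc y.1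
  have d2 := htpy_disc y.2
  have e : htpyDel y t = (1 - t) ^ 2 + t ^ 2 +
      t * (1 - t) * (htpyQa y.1 * htpyQc y.2 + htpyQa y.2 * htpyQc y.1 - 2 * htpyQb y.1 * htpyQb y.2) := by
    unfold htpyDel htpyA htpyB htpyC
    linear_combination (1 - t) ^ 2 * d1 + t ^ 2 * d2
  have p : 0 < htpyQa y.1 * htpyQc y.2 + htpyQa y.2 * htpyQc y.1 - 2 * htpyQb y.1 * htpyQb y.2 := by
    have e2 : htpyQa y.1 * htpyQc y.2 + htpyQa y.2 * htpyQc y.1 - 2 * htpyQb y.1 * htpyQb y.2 =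
        ((y.1.re - y.2.re) ^ 2 + y.1.im ^ 2 + y.2.im ^ 2) / (y.1.im * y.2.im) := by
      have hy1 := y.1.im_ne_zero
      have hy2 := y.2.im_ne_zero
      unfold htpyQa htpyQb htpyQc
      field_simp
      ring
    rw [e2]
    have q1 := y.1.im_pos
    have q2 := y.2.im_pos
    positivity
  rw [e]
  have r : 0 ≤ t * (1 - t) * (htpyQa y.1 * htpyQc y.2 + htpyQa y.2 * htpyQc y.1 - 2 * htpyQb y.1 * htpyQb y.2) :=
    mul_nonneg (mul_nonneg h0 (by linarith)) p.le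
  nlinarith [sq_nonneg (1 - 2 * t)]

theorem htpyA_smul (M : GL (Fin 2) ℝ) (y : ℍ × ℍ) (t : ℝ) : htpyA (M • y.1, M • y.2) t =
    (M 0 0 ^ 2 * htpyA y t + 2 * M 0 0 * M 0 1 * htpyB y t + M 0 1 ^ 2 * htpyC y t) /
      |M 0 0 * M 1 1 - M 0 1 * M 1 0| := by
  unfold htpyA htpyB htpyC
  rw [htpy_qa, htpy_qa]
  ring

theorem htpyB_smul (M : GL (Fin 2) ℝ) (y : ℍ × ℍ) (t : ℝ) : htpyB (M • y.1, M • y.2) t =
    (M 0 0 * M 1 0 * htpyA y t + (M 0 0 * M 1 1 + M 0 1 * M 1 0) * htpyB y t +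
      M 0 1 * M 1 1 * htpyC y t) / |M 0 0 * M 1 1 - M 0 1 * M 1 0| := by
  unfold htpyA htpyB htpyC
  rw [htpy_qb, htpy_qb]
  ring

theorem htpyC_smul (M : GL (Fin 2) ℝ) (y : ℍ × ℍ) (t : ℝ) : htpyC (M • y.1, M • y.2) t =
    (M 1 0 ^ 2 * htpyA y t + 2 * M 1 0 * M 1 1 * htpyB y t + M 1 1 ^ 2 * htpyC y t) /
      |M 0 0 * M 1 1 - M 0 1 * M 1 0| := by
  unfold htpyA htpyB htpyC
  rw [htpy_qc, htpy_qc]
  ring

theorem htpyDel_smul (M : GL (Fin 2) ℝ) (y : ℍ × ℍ) (t : ℝ) :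
    htpyDel (M • y.1, M • y.2) t = htpyDel y t := by
  have hD : |M 0 0 * M 1 1 - M 0 1 * M 1 0| ≠ 0 := abs_ne_zero.2 (htpyD_ne M)
  have hD2 : |M 0 0 * M 1 1 - M 0 1 * M 1 0| ^ 2 = (M 0 0 * M 1 1 - M 0 1 * M 1 0) ^ 2 := sq_abs _
  unfold htpyDel
  rw [htpyA_smul, htpyB_smul, htpyC_smul]
  generalize |M 0 0 * M 1 1 - M 0 1 * M 1 0| = D at *
  rw [div_mul_div_comm, div_pow, ← pow_two, ← sub_div, div_eq_iff (pow_ne_zero 2 hD), hD2]
  ring

theorem htpy_cont_qa : Continuous htpyQa := by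
  unfold htpyQa
  exact ((UpperHalfPlane.continuous_re.pow 2).add (UpperHalfPlane.continuous_im.pow 2)).div
    UpperHalfPlane.continuous_im fun z => z.im_ne_zero

theorem htpy_cont_qb : Continuous htpyQb :=
  UpperHalfPlane.continuous_re.div UpperHalfPlane.continuous_im fun z => z.im_ne_zero

theorem htpy_cont_qc : Continuous htpyQc :=
  continuous_const.div UpperHalfPlane.continuous_im fun z => z.im_ne_zero

theorem htpy_cont_lin (q : ℍ → ℝ) (hq : Continuous q) :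
    Continuous fun p : (ℍ × ℍ) × unitInterval => (1 - (p.2 : ℝ)) * q p.1.1 + (p.2 : ℝ) * q p.1.2 := by
  have h1 : Continuous fun p : (ℍ × ℍ) × unitInterval => (p.2 : ℝ) :=
    continuous_subtype_val.comp continuous_snd
  have h2 : Continuous fun p : (ℍ × ℍ) × unitInterval => q p.1.1 :=
    hq.comp (continuous_fst.comp continuous_fst)
  have h3 : Continuous fun p : (ℍ × ℍ) × unitInterval => q p.1.2 :=
    hq.comp (continuous_snd.comp continuous_fst)
  exact ((continuous_const.sub h1).mul h2).add (h1.mul h3)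

/-- an equivariant way to join two points of the upper half plane -/
theorem geo_htpy : ∃ F : C((ℍ × ℍ) × unitInterval, ℍ), (∀ y : ℍ × ℍ, F (y, 0) = y.1) ∧
    (∀ y : ℍ × ℍ, F (y, 1) = y.2) ∧
    ∀ (M : GL (Fin 2) ℝ) (y : ℍ × ℍ) (t : unitInterval),
      F ((M • y.1, M • y.2), t) = M • F (y, t) := by
  have cA : Continuous fun p : (ℍ × ℍ) × unitInterval => htpyA p.1 p.2 := htpy_cont_lin _ htpy_cont_qa
  have cB : Continuous fun p : (ℍ × ℍ) × unitInterval => htpyB p.1 p.2 := htpy_cont_lin _ htpy_cont_qb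
  have cC : Continuous fun p : (ℍ × ℍ) × unitInterval => htpyC p.1 p.2 := htpy_cont_lin _ htpy_cont_qc
  have pC : ∀ p : (ℍ × ℍ) × unitInterval, 0 < htpyC p.1 p.2 :=
    fun p => htpyC_pos p.1 p.2 p.2.2.1 p.2.2.2
  have pD : ∀ p : (ℍ × ℍ) × unitInterval, 0 < htpyDel p.1 p.2 :=
    fun p => htpyDel_pos p.1 p.2 p.2.2.1 p.2.2.2
  have pI : ∀ p : (ℍ × ℍ) × unitInterval,
      0 < (Complex.mk (htpyB p.1 p.2 / htpyC p.1 p.2) (Real.sqrt (htpyDel p.1 p.2) / htpyC p.1 p.2)).im :=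
    fun p => div_pos (Real.sqrt_pos.2 (pD p)) (pC p)
  have cF : Continuous fun p : (ℍ × ℍ) × unitInterval =>
      (Complex.mk (htpyB p.1 p.2 / htpyC p.1 p.2) (Real.sqrt (htpyDel p.1 p.2) / htpyC p.1 p.2)) := by
    have c1 : Continuous fun p : (ℍ × ℍ) × unitInterval => htpyB p.1 p.2 / htpyC p.1 p.2 :=
      cB.div cC fun p => (pC p).ne'
    have c2 : Continuous fun p : (ℍ × ℍ) × unitInterval =>
        Real.sqrt (htpyDel p.1 p.2) / htpyC p.1 p.2 := by
      refine Continuous.div ?_ cC fun p => (pC p).ne'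
      refine Real.continuous_sqrt.comp ?_
      exact (cA.mul cC).sub (cB.pow 2)
    have c3 := Complex.equivRealProdCLM.symm.continuous.comp (c1.prodMk c2)
    refine c3.congr fun p => ?_
    rfl
  have hq0 : ∀ z : ℍ, htpyQb z / htpyQc z = z.re ∧ Real.sqrt 1 / htpyQc z = z.im := by
    intro z
    have hy := z.im_ne_zero
    unfold htpyQb htpyQc
    constructor
    · field_simp
    · rw [Real.sqrt_one, one_div_one_div]
  refine ⟨⟨fun p => UpperHalfPlane.mk _ (pI p), cF.upperHalfPlaneMk pI⟩, ?_, ?_, ?_⟩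
  · intro y
    refine UpperHalfPlane.ext_re_im ?_ ?_
    · show htpyB y ((0 : unitInterval) : ℝ) / htpyC y ((0 : unitInterval) : ℝ) = _
      unfold htpyB htpyC
      rw [Set.Icc.coe_zero]
      simp only [sub_zero, one_mul, zero_mul, add_zero]
      exact (hq0 y.1).1
    · show Real.sqrt (htpyDel y ((0 : unitInterval) : ℝ)) / htpyC y ((0 : unitInterval) : ℝ) = _
      unfold htpyDel htpyA htpyB htpyC
      rw [Set.Icc.coe_zero]
      simp only [sub_zero, one_mul, zero_mul, add_zero]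
      rw [htpy_disc]
      exact (hq0 y.1).2
  · intro y
    refine UpperHalfPlane.ext_re_im ?_ ?_
    · show htpyB y ((1 : unitInterval) : ℝ) / htpyC y ((1 : unitInterval) : ℝ) = _
      unfold htpyB htpyC
      rw [Set.Icc.coe_one]
      simp only [sub_self, one_mul, zero_mul, zero_add]
      exact (hq0 y.2).1
    · show Real.sqrt (htpyDel y ((1 : unitInterval) : ℝ)) / htpyC y ((1 : unitInterval) : ℝ) = _
      unfold htpyDel htpyA htpyB htpyC
      rw [Set.Icc.coe_one]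
      simp only [sub_self, one_mul, zero_mul, zero_add]
      rw [htpy_disc]
      exact (hq0 y.2).2
  · intro M y t
    have hD : |M 0 0 * M 1 1 - M 0 1 * M 1 0| ≠ 0 := abs_ne_zero.2 (htpyD_ne M)
    set w : ℍ := UpperHalfPlane.mk _ (pI (y, t)) with hw
    have wre : w.re = htpyB y t / htpyC y t := rfl
    have wim : w.im = Real.sqrt (htpyDel y t) / htpyC y t := rfl
    have hCp : 0 < htpyC y t := pC (y, t)
    have hCn := hCp.ne'
    have hsq : Real.sqrt (htpyDel y t) ^ 2 = htpyDel y t := Real.sq_sqrt (pD (y, t)).le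
    have wn : w.re ^ 2 + w.im ^ 2 = htpyA y t / htpyC y t := by
      rw [wre, wim, div_pow, div_pow, hsq, htpyDel, ← add_div, div_eq_div_iff (pow_ne_zero 2 hCn) hCn]
      ring
    have hC'p : 0 < htpyC (M • y.1, M • y.2) t := pC ((M • y.1, M • y.2), t)
    have hNw : (M 1 0 * w.re + M 1 1) ^ 2 + (M 1 0 * w.im) ^ 2 =
        |M 0 0 * M 1 1 - M 0 1 * M 1 0| * htpyC (M • y.1, M • y.2) t / htpyC y t := by
      have e1 : (M 1 0 * w.re + M 1 1) ^ 2 + (M 1 0 * w.im) ^ 2 =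
          M 1 0 ^ 2 * (w.re ^ 2 + w.im ^ 2) + 2 * M 1 0 * M 1 1 * w.re + M 1 1 ^ 2 := by
        ring
      rw [e1, wn, wre, htpyC_smul]
      generalize |M 0 0 * M 1 1 - M 0 1 * M 1 0| = D at hD ⊢
      field_simp
    refine UpperHalfPlane.ext_re_im ?_ ?_
    · show htpyB (M • y.1, M • y.2) t / htpyC (M • y.1, M • y.2) t = (M • w).re
      rw [htpy_re, hNw, wn, wre]
      rw [div_eq_div_iff hC'p.ne' (div_pos (mul_pos (abs_pos.2 (htpyD_ne M)) hC'p) hCp).ne']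
      rw [htpyB_smul]
      generalize |M 0 0 * M 1 1 - M 0 1 * M 1 0| = D at hD ⊢
      field_simp
    · show Real.sqrt (htpyDel (M • y.1, M • y.2) t) / htpyC (M • y.1, M • y.2) t = (M • w).im
      rw [htpy_im, hNw, wim, htpyDel_smul]
      have hC'n := hC'p.ne'
      field_simp

end Pool.Agent.Helper158.TC
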