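import Pool.Agent.Helper158.TC.Alg

set_option autoImplicit false
set_option linter.unusedVariables false

namespace Pool.Agent.Helper158.TC

open Set Topology
open Pool.Agent.Helper158.PD
open Pool.Agent.Helper922.HB.Sc (Sing sface altd vert)
open scoped Pointwise

/-- the group `N × N` acting on both sides -/
def Dg {Γ : Type} [Group Γ] (N : Subgroup Γ) : Type := N × N

instance {Γ : Type} [Group Γ] (N : Subgroup Γ) : Group (Dg N) := inferInstanceAs (Group (N × N))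

/-- the two-sided action on the ambient group -/
instance {Γ : Type} [Group Γ] (N : Subgroup Γ) : MulAction (Dg N) Γ where
  smul g p := (g.1 : Γ) * p * (g.2 : Γ)⁻¹
  one_smul p := by
    change ((1 : N) : Γ) * p * ((1 : N) : Γ)⁻¹ = p
    simp
  mul_smul g g' p := by
    change ((g.1 * g'.1 : N) : Γ) * p * ((g.2 * g'.2 : N) : Γ)⁻¹ =
      (g.1 : Γ) * ((g'.1 : Γ) * p * (g'.2 : Γ)⁻¹) * (g.2 : Γ)⁻¹
    simp [mul_assoc]

/-- the product action -/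
instance {Γ Y : Type} [Group Γ] [MulAction Γ Y] (N : Subgroup Γ) : MulAction (Dg N) (Y × Y) where
  smul g y := ((g.1 : Γ) • y.1, (g.2 : Γ) • y.2)
  one_smul y := by
    change (((1 : N) : Γ) • y.1, ((1 : N) : Γ) • y.2) = y
    simp
  mul_smul g g' y := by
    change (((g.1 * g'.1 : N) : Γ) • y.1, ((g.2 * g'.2 : N) : Γ) • y.2) =
      ((g.1 : Γ) • ((g'.1 : Γ) • y.1), (g.2 : Γ) • ((g'.2 : Γ) • y.2))
    simp [mul_smul]

section

variable {Γ : Type} [Group Γ] (N : Subgroup Γ)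

theorem Dg.smul_def (g : Dg N) (p : Γ) : g • p = (g.1 : Γ) * p * (g.2 : Γ)⁻¹ := rfl

theorem Dg.smul_prod {Y : Type} [MulAction Γ Y] (g : Dg N) (y : Y × Y) :
    g • y = ((g.1 : Γ) • y.1, (g.2 : Γ) • y.2) := rfl

/-- uniqueness of roots -/
theorem root_unique (tf : ∀ γ : Γ, γ ≠ 1 → ∀ n : ℤ, n ≠ 0 → γ ^ n ≠ 1)
    (cc : ∀ γ : Γ, γ ≠ 1 → ∃ c : Γ, ∀ x : Γ, x * γ = γ * x ↔ ∃ n : ℤ, x = c ^ n)
    (x y : Γ) (n : ℤ) (hn : n ≠ 0) (h : x ^ n = y ^ n) : x = y := by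
  by_cases hz : x ^ n = 1
  · have hx : x = 1 := by
      by_contra hx
      exact tf x hx n hn hz
    have hy : y = 1 := by
      by_contra hy
      exact tf y hy n hn (h ▸ hz)
    rw [hx, hy]
  · obtain ⟨c, hc⟩ := cc (x ^ n) hz
    obtain ⟨i, hi⟩ := (hc x).1 ((Commute.refl x).zpow_right n).eq
    obtain ⟨j, hj⟩ := (hc y).1 (by rw [h]; exact ((Commute.refl y).zpow_right n).eq)
    have hc1 : c ≠ 1 := by
      intro h1
      apply hz
      rw [hi, h1, one_zpow, one_zpow]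
    have hij : c ^ ((i - j) * n) = 1 := by
      rw [sub_mul, zpow_sub, zpow_mul, zpow_mul, ← hi, ← hj, h, mul_inv_cancel]
    have h0 : (i - j) * n = 0 := by
      by_contra h0
      exact tf c hc1 _ h0 hij
    have h1 : i - j = 0 := by
      rcases mul_eq_zero.mp h0 with h1 | h1
      · exact h1
      · exact absurd h1 hn
    have h2 : i = j := by omega
    rw [hi, hj, h2]

/-- commuting nontrivial elements have the same centralizer -/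
theorem cent_eq (tf : ∀ γ : Γ, γ ≠ 1 → ∀ n : ℤ, n ≠ 0 → γ ^ n ≠ 1)
    (cc : ∀ γ : Γ, γ ≠ 1 → ∃ c : Γ, ∀ x : Γ, x * γ = γ * x ↔ ∃ n : ℤ, x = c ^ n)
    (a b : Γ) (ha : a ≠ 1) (hb : b ≠ 1) (hab : a * b = b * a) (x : Γ) :
    x * a = a * x ↔ x * b = b * x := by
  have key : ∀ a b : Γ, a ≠ 1 → a * b = b * a → x * a = a * x → x * b = b * x := by
    intro a b ha hab hx
    obtain ⟨c, hc⟩ := cc a ha
    obtain ⟨m, hm⟩ := (hc b).1 hab.symm
    obtain ⟨k, hk⟩ := (hc x).1 hx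
    rw [hm, hk]
    exact (((Commute.refl c).zpow_left k).zpow_right m).eq
  exact ⟨key a b ha hab, key b a hb hab.symm⟩

/-- generator of the centralizer inside `N` -/
theorem exists_gen [N.FiniteIndex]
    (tf : ∀ γ : Γ, γ ≠ 1 → ∀ n : ℤ, n ≠ 0 → γ ^ n ≠ 1)
    (cc : ∀ γ : Γ, γ ≠ 1 → ∃ c : Γ, ∀ x : Γ, x * γ = γ * x ↔ ∃ n : ℤ, x = c ^ n)
    (a : Γ) (ha : a ≠ 1) :
    ∃ c ∈ N, c ≠ 1 ∧ (∀ x : Γ, x * a = a * x ↔ x * c = c * x) ∧
      ∀ x ∈ N, x * c = c * x → ∃ n : ℤ, x = c ^ n := by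
  obtain ⟨d, hd⟩ := cc a ha
  obtain ⟨m, hm⟩ := (hd a).1 rfl
  have hd1 : d ≠ 1 := by
    rintro rfl
    exact ha (by rw [hm, one_zpow])
  -- the exponents landing in `N`
  let K : AddSubgroup ℤ :=
    { carrier := {k : ℤ | d ^ k ∈ N}
      add_mem' := by
        intro x y (hx : d ^ x ∈ N) (hy : d ^ y ∈ N)
        change d ^ (x + y) ∈ N
        rw [zpow_add]
        exact N.mul_mem hx hy
      zero_mem' := by
        change d ^ (0 : ℤ) ∈ N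
        rw [zpow_zero]
        exact N.one_mem
      neg_mem' := by
        intro x (hx : d ^ x ∈ N)
        change d ^ (-x) ∈ N
        rw [zpow_neg]
        exact N.inv_mem hx }
  have hK : ∀ k : ℤ, k ∈ K ↔ d ^ k ∈ N := fun _ => Iff.rfl
  obtain ⟨k0, hk0⟩ := Int.subgroup_cyclic K
  have hmem : ∀ k : ℤ, d ^ k ∈ N ↔ ∃ j : ℤ, k = j * k0 := by
    intro k
    rw [← hK, hk0, AddSubgroup.mem_closure_singleton]
    constructor
    · rintro ⟨j, hj⟩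
      exact ⟨j, by rw [← hj, smul_eq_mul]⟩
    · rintro ⟨j, hj⟩
      exact ⟨j, by rw [hj, smul_eq_mul]⟩
  have hk00 : k0 ≠ 0 := by
    rintro rfl
    obtain ⟨n, hn, -, hnN⟩ :=
      Subgroup.exists_pow_mem_of_index_ne_zero (H := N) Subgroup.FiniteIndex.index_ne_zero d
    have h1 : d ^ (n : ℤ) ∈ N := by
      rw [zpow_natCast]
      exact hnN
    obtain ⟨j, hj⟩ := (hmem _).1 h1
    rw [mul_zero] at hj
    omega
  have hcN : d ^ k0 ∈ N := (hmem _).2 ⟨1, by rw [one_mul]⟩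
  have hc1 : d ^ k0 ≠ 1 := tf d hd1 k0 hk00
  have hcomm : a * d ^ k0 = d ^ k0 * a := ((hd (d ^ k0)).2 ⟨k0, rfl⟩).symm
  have hcent := cent_eq tf cc a (d ^ k0) ha hc1 hcomm
  refine ⟨d ^ k0, hcN, hc1, hcent, fun x hx hxc => ?_⟩
  obtain ⟨k, hk⟩ := (hd x).1 ((hcent x).2 hxc)
  rw [hk] at hx
  obtain ⟨j, hj⟩ := (hmem _).1 hx
  exact ⟨j, by rw [hk, hj, mul_comm, zpow_mul]⟩

theorem Dg.zpow_fst' (g : Dg N) (n : ℤ) : ((g ^ n : Dg N).1 : N) = (g.1 : N) ^ n := rfl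

theorem Dg.zpow_snd' (g : Dg N) (n : ℤ) : ((g ^ n : Dg N).2 : N) = (g.2 : N) ^ n := rfl

theorem dg_tf (tf : ∀ γ : Γ, γ ≠ 1 → ∀ n : ℤ, n ≠ 0 → γ ^ n ≠ 1) (g : Dg N) (hg : g ≠ 1)
    (n : ℤ) (hn : n ≠ 0) : g ^ n ≠ 1 := by
  intro h
  apply hg
  have h1 : (g.1 : N) ^ n = 1 := by
    rw [← Dg.zpow_fst', h]
    rfl
  have h2 : (g.2 : N) ^ n = 1 := by
    rw [← Dg.zpow_snd', h]
    rfl
  have h3 : (g.1 : N) = 1 := by
    by_contra hne
    have hne' : ((g.1 : N) : Γ) ≠ 1 := fun h' => hne (Subtype.ext h')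
    apply tf _ hne' n hn
    rw [← Subgroup.coe_zpow, h1]
    rfl
  have h4 : (g.2 : N) = 1 := by
    by_contra hne
    have hne' : ((g.2 : N) : Γ) ≠ 1 := fun h' => hne (Subtype.ext h')
    apply tf _ hne' n hn
    rw [← Subgroup.coe_zpow, h2]
    rfl
  exact Prod.ext h3 h4

theorem dg_fix [DecidableEq Γ] (tf : ∀ γ : Γ, γ ≠ 1 → ∀ n : ℤ, n ≠ 0 → γ ^ n ≠ 1)
    (cc : ∀ γ : Γ, γ ≠ 1 → ∃ c : Γ, ∀ x : Γ, x * γ = γ * x ↔ ∃ n : ℤ, x = c ^ n)
    (t : Finset Γ) (g : Dg N) (h : g • t = t) (p : Γ) (hp : p ∈ t) : g • p = p := by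
  have hpow : ∀ k : ℕ, g ^ k • p ∈ t := by
    intro k
    induction k with
    | zero => rw [pow_zero, one_smul]; exact hp
    | succ k ih =>
      rw [pow_succ', mul_smul]
      have := Finset.smul_mem_smul_finset (a := g) ih
      rwa [h] at this
  obtain ⟨i, j, hij, he⟩ := Finite.exists_ne_map_eq_of_infinite
    (fun k : ℕ => (⟨g ^ k • p, hpow k⟩ : t))
  have he' : g ^ i • p = g ^ j • p := congrArg Subtype.val he
  have hn : ((j : ℤ) - i) ≠ 0 := by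
    intro h'
    apply hij
    omega
  have h1 : g ^ ((j : ℤ) - i) • p = p := by
    rw [sub_eq_neg_add, zpow_add, mul_smul, zpow_natCast, ← he', zpow_neg, zpow_natCast, inv_smul_smul]
  rw [Dg.smul_def, Dg.zpow_fst', Dg.zpow_snd', Subgroup.coe_zpow, Subgroup.coe_zpow] at h1
  have h2 : (((g.1 : N) : Γ)) ^ ((j : ℤ) - i) = (p * ((g.2 : N) : Γ) * p⁻¹) ^ ((j : ℤ) - i) := by
    rw [conj_zpow]
    have h3 := mul_inv_eq_iff_eq_mul.1 h1
    rw [← h3]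
    group
  have h4 := root_unique tf cc _ _ _ hn h2
  rw [Dg.smul_def, h4]
  group

theorem dgs_pow (x y : N) (n : ℤ) :
    ((x, y) : Dg N) ^ n = (((x ^ n : N), (y ^ n : N)) : Dg N) := rfl

theorem dgs_fixed (g : Dg N) (q : Γ) : g • q = q ↔ (g.1 : Γ) = q * (g.2 : Γ) * q⁻¹ := by
  rw [Dg.smul_def]
  constructor
  · intro h
    have h2 : (g.1 : Γ) = ((g.1 : Γ) * q * (g.2 : Γ)⁻¹) * (g.2 : Γ) * q⁻¹ := by group
    rw [h] at h2
    exact h2
  · intro h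
    rw [h]
    group

theorem dgs_comm (g : Dg N) (p q : Γ) (hp : g • p = p) (hq : g • q = q) :
    (g.2 : Γ) * (p⁻¹ * q) = (p⁻¹ * q) * (g.2 : Γ) := by
  rw [dgs_fixed] at hp hq
  have h : p * (g.2 : Γ) * p⁻¹ = q * (g.2 : Γ) * q⁻¹ := hp.symm.trans hq
  have h2 : (g.2 : Γ) * (p⁻¹ * q) = p⁻¹ * (p * (g.2 : Γ) * p⁻¹) * q := by group
  rw [h2, h]
  group

/-- the stabilizer of a finite set with at least two elements -/
theorem dg_stab [DecidableEq Γ] [N.Normal] [N.FiniteIndex]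
    (tf : ∀ γ : Γ, γ ≠ 1 → ∀ n : ℤ, n ≠ 0 → γ ^ n ≠ 1)
    (cc : ∀ γ : Γ, γ ≠ 1 → ∃ c : Γ, ∀ x : Γ, x * γ = γ * x ↔ ∃ n : ℤ, x = c ^ n)
    (t : Finset Γ) (ht : 2 ≤ t.card) :
    (∀ g : Dg N, g • t = t ↔ g = 1) ∨
    ∃ (p c : Γ) (hc : c ∈ N) (hpc : p * c * p⁻¹ ∈ N), c ≠ 1 ∧
      (∀ x ∈ N, x * c = c * x → ∃ n : ℤ, x = c ^ n) ∧
      ∀ g : Dg N, g • t = t ↔ ∃ n : ℤ, g = (((⟨p * c * p⁻¹, hpc⟩ : N), (⟨c, hc⟩ : N)) : Dg N) ^ n := by
  have hst : ∀ g : Dg N, g • t = t ↔ ∀ q ∈ t, g • q = q := by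
    intro g
    constructor
    · intro h q hq
      exact dg_fix N tf cc t g h q hq
    · intro h
      ext x
      rw [Finset.mem_smul_finset]
      constructor
      · rintro ⟨y, hy, rfl⟩
        rw [h y hy]
        exact hy
      · intro hx
        exact ⟨x, hx, h x hx⟩
  obtain ⟨p, hp, q0, hq0, hpq⟩ := Finset.one_lt_card.1 (lt_of_lt_of_le one_lt_two ht)
  have ha0 : p⁻¹ * q0 ≠ 1 := by
    intro h
    apply hpq
    rw [inv_mul_eq_one] at h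
    exact h
  obtain ⟨c, hcN, hc1, hcc, hgen⟩ := exists_gen N tf cc (p⁻¹ * q0) ha0
  by_cases hA : ∀ q ∈ t, (p⁻¹ * q) * c = c * (p⁻¹ * q)
  · right
    have hpc : p * c * p⁻¹ ∈ N := Subgroup.Normal.conj_mem inferInstance c hcN p
    refine ⟨p, c, hcN, hpc, hc1, hgen, fun g => ?_⟩
    rw [hst]
    constructor
    · intro h
      have h1 := dgs_comm N g p q0 (h p hp) (h q0 hq0)
      obtain ⟨n, hn⟩ := hgen _ g.2.2 ((hcc _).1 h1)
      refine ⟨n, ?_⟩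
      rw [dgs_pow]
      apply Prod.ext
      · apply Subtype.ext
        rw [(dgs_fixed N g p).1 (h p hp)]
        change p * (g.2 : Γ) * p⁻¹ = (((⟨p * c * p⁻¹, hpc⟩ : N) ^ n : N) : Γ)
        rw [Subgroup.coe_zpow, conj_zpow, hn]
      · apply Subtype.ext
        change (g.2 : Γ) = (((⟨c, hcN⟩ : N) ^ n : N) : Γ)
        rw [Subgroup.coe_zpow, hn]
    · rintro ⟨n, hn⟩ q hq
      have e1 : (g.1 : Γ) = p * c ^ n * p⁻¹ := by
        rw [hn, dgs_pow]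
        change (((⟨p * c * p⁻¹, hpc⟩ : N) ^ n : N) : Γ) = _
        rw [Subgroup.coe_zpow, conj_zpow]
      have e2 : (g.2 : Γ) = c ^ n := by
        rw [hn, dgs_pow]
        change (((⟨c, hcN⟩ : N) ^ n : N) : Γ) = _
        rw [Subgroup.coe_zpow]
      rw [dgs_fixed, e1, e2]
      have hcomm : Commute (p⁻¹ * q) (c ^ n) := Commute.zpow_right (hA q hq) n
      have h3 : (p⁻¹ * q) * c ^ n = c ^ n * (p⁻¹ * q) := hcomm
      have h4 : q * c ^ n * q⁻¹ = p * ((p⁻¹ * q) * c ^ n) * q⁻¹ := by group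
      rw [h4, h3]
      group
  · left
    push Not at hA
    obtain ⟨q, hq, hqc⟩ := hA
    intro g
    rw [hst]
    constructor
    · intro h
      have h1 := dgs_comm N g p q0 (h p hp) (h q0 hq0)
      have h2 := dgs_comm N g p q (h p hp) (h q hq)
      have hb : (g.2 : Γ) = 1 := by
        by_contra hb
        apply hqc
        exact (cent_eq tf cc (g.2 : Γ) c hb hc1 ((hcc _).1 h1) (p⁻¹ * q)).1 h2.symm
      have ha : (g.1 : Γ) = 1 := by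
        rw [(dgs_fixed N g p).1 (h p hp), hb]
        group
      exact Prod.ext (Subtype.ext ha) (Subtype.ext hb)
    · rintro rfl q hq
      exact one_smul _ _

/-- the structure of a line: stabilizers of its finite subsets -/
theorem dg_line1 [DecidableEq Γ] [N.Normal]
    (tf : ∀ γ : Γ, γ ≠ 1 → ∀ n : ℤ, n ≠ 0 → γ ^ n ≠ 1)
    (cc : ∀ γ : Γ, γ ≠ 1 → ∃ c : Γ, ∀ x : Γ, x * γ = γ * x ↔ ∃ n : ℤ, x = c ^ n)
    (p c : Γ) (hc : c ∈ N) (hpc : p * c * p⁻¹ ∈ N) (hc1 : c ≠ 1)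
    (hgen : ∀ x ∈ N, x * c = c * x → ∃ n : ℤ, x = c ^ n)
    (s : Dg N) (hs : s = ((⟨p * c * p⁻¹, hpc⟩ : N), (⟨c, hc⟩ : N)))
    (t' : Finset Γ) (ht' : 2 ≤ t'.card) (hfix : ∀ q ∈ t', s • q = q) (g : Dg N) (hg : g • t' = t') :
    ∃ n : ℤ, g = s ^ n := by
  have hcomm : ∀ q ∈ t', Commute (p⁻¹ * q) c := by
    intro q hq
    have h1 := hfix q hq
    rw [Dg.smul_def, hs] at h1
    have h2 : p * c * p⁻¹ * q * c⁻¹ = q := h1
    show p⁻¹ * q * c = c * (p⁻¹ * q)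
    have h3 : p * c * p⁻¹ * q = q * c := mul_inv_eq_iff_eq_mul.mp h2
    calc p⁻¹ * q * c = p⁻¹ * (q * c) := mul_assoc _ _ _
      _ = p⁻¹ * (p * c * p⁻¹ * q) := by rw [h3]
      _ = c * (p⁻¹ * q) := by simp [mul_assoc]
  obtain ⟨q1, hq1, q2, hq2, hne⟩ := Finset.one_lt_card.mp (by omega : 1 < t'.card)
  have hg' : ∀ q ∈ t', (g.1 : Γ) = q * (g.2 : Γ) * q⁻¹ := by
    intro q hq
    have h1 := dg_fix N tf cc t' g hg q hq
    rw [Dg.smul_def] at h1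
    have h2 : (g.1 : Γ) * q = q * (g.2 : Γ) := by
      rw [← mul_inv_eq_iff_eq_mul]
      exact h1
    rw [← h2, mul_inv_cancel_right]
  have hw : q1⁻¹ * q2 ≠ 1 := by
    intro h
    exact hne (inv_mul_eq_one.mp h)
  have hwc : Commute (q1⁻¹ * q2) c := by
    have h1 := (hcomm q1 hq1).inv_left.mul_left (hcomm q2 hq2)
    have h2 : (p⁻¹ * q1)⁻¹ * (p⁻¹ * q2) = q1⁻¹ * q2 := by
      simp [mul_assoc]
    rwa [h2] at h1
  have hbw : (g.2 : Γ) * (q1⁻¹ * q2) = q1⁻¹ * q2 * (g.2 : Γ) := by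
    have h1 : q1 * (g.2 : Γ) * q1⁻¹ = q2 * (g.2 : Γ) * q2⁻¹ := by
      rw [← hg' q1 hq1, ← hg' q2 hq2]
    calc (g.2 : Γ) * (q1⁻¹ * q2) = q1⁻¹ * (q1 * (g.2 : Γ) * q1⁻¹) * q2 := by simp [mul_assoc]
      _ = q1⁻¹ * (q2 * (g.2 : Γ) * q2⁻¹) * q2 := by rw [h1]
      _ = _ := by simp [mul_assoc]
  have hbc := (cent_eq tf cc (q1⁻¹ * q2) c hw hc1 hwc (g.2 : Γ)).mp hbw
  obtain ⟨n, hn⟩ := hgen (g.2 : Γ) g.2.2 hbc
  refine ⟨n, ?_⟩
  have e1 : (s ^ n).1 = s.1 ^ n := map_zpow (MonoidHom.fst N N : N × N →* N) s n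
  have e2 : (s ^ n).2 = s.2 ^ n := map_zpow (MonoidHom.snd N N : N × N →* N) s n
  refine Prod.ext ?_ ?_
  · rw [e1, hs]
    apply Subtype.ext
    rw [SubgroupClass.coe_zpow]
    show (g.1 : Γ) = (p * c * p⁻¹) ^ n
    rw [conj_zpow, hg' q1 hq1, hn]
    have h1 : Commute (p⁻¹ * q1) (c ^ n) := (hcomm q1 hq1).zpow_right n
    have h2 : p⁻¹ * q1 * c ^ n * (p⁻¹ * q1)⁻¹ = c ^ n := by
      rw [h1.eq, mul_inv_cancel_right]
    calc q1 * c ^ n * q1⁻¹ = p * (p⁻¹ * q1 * c ^ n * (p⁻¹ * q1)⁻¹) * p⁻¹ := by simp [mul_assoc]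
      _ = p * c ^ n * p⁻¹ := by rw [h2]
  · rw [e2, hs]
    apply Subtype.ext
    rw [SubgroupClass.coe_zpow]
    exact hn


theorem dg_line2_fix (p c : Γ) (hc : c ∈ N) (hpc : p * c * p⁻¹ ∈ N)
    (s : Dg N) (hs : s = ((⟨p * c * p⁻¹, hpc⟩ : N), (⟨c, hc⟩ : N))) (q : Γ) :
    s • q = q ↔ (p⁻¹ * q) * c = c * (p⁻¹ * q) := by
  rw [hs, Dg.smul_def]
  change p * c * p⁻¹ * q * c⁻¹ = q ↔ _
  rw [mul_inv_eq_iff_eq_mul]
  constructor
  · intro h
    rw [mul_assoc, ← h]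
    group
  · intro h
    have e : p * c * p⁻¹ * q = p * (c * (p⁻¹ * q)) := by group
    rw [e, ← h]
    group

theorem dg_line2_inj (tf : ∀ γ : Γ, γ ≠ 1 → ∀ n : ℤ, n ≠ 0 → γ ^ n ≠ 1) (c : Γ) (hc1 : c ≠ 1)
    (i j : ℤ) (h : c ^ i = c ^ j) : i = j := by
  by_contra hne
  apply tf c hc1 (i - j) (sub_ne_zero.2 hne)
  rw [zpow_sub, h, mul_inv_cancel]

theorem dg_line2_pres [N.Normal]
    (tf : ∀ γ : Γ, γ ≠ 1 → ∀ n : ℤ, n ≠ 0 → γ ^ n ≠ 1)
    (cc : ∀ γ : Γ, γ ≠ 1 → ∃ c : Γ, ∀ x : Γ, x * γ = γ * x ↔ ∃ n : ℤ, x = c ^ n)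
    (p c : Γ) (hc : c ∈ N) (hpc : p * c * p⁻¹ ∈ N) (hc1 : c ≠ 1)
    (hgen : ∀ x ∈ N, x * c = c * x → ∃ n : ℤ, x = c ^ n)
    (s : Dg N) (hs : s = ((⟨p * c * p⁻¹, hpc⟩ : N), (⟨c, hc⟩ : N)))
    (g : Dg N) (hg : Pres (P := Γ) s g) :
    ∃ i j : ℤ, (g.1 : Γ) = p * c ^ i * p⁻¹ ∧ (g.2 : Γ) = c ^ j := by
  obtain ⟨a, ha⟩ : ∃ a : Γ, a = (g.1 : Γ) := ⟨_, rfl⟩
  obtain ⟨b, hb⟩ : ∃ b : Γ, b = (g.2 : Γ) := ⟨_, rfl⟩
  have haN : a ∈ N := by rw [ha]; exact g.1.2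
  have hbN : b ∈ N := by rw [hb]; exact g.2.2
  have hfx := dg_line2_fix N p c hc hpc s hs
  have hP : ∀ z : Γ, z * c = c * z ↔
      (p⁻¹ * (a * (p * z) * b⁻¹)) * c = c * (p⁻¹ * (a * (p * z) * b⁻¹)) := by
    intro z
    have h1 := hg (p * z)
    rw [hfx, hfx, Dg.smul_def, ← ha, ← hb] at h1
    have e : p⁻¹ * (p * z) = z := by group
    rw [e] at h1
    exact h1
  -- w commutes with c
  obtain ⟨w, hw⟩ : ∃ w : Γ, w = p⁻¹ * a * p * b⁻¹ := ⟨_, rfl⟩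
  have hwc : w * c = c * w := by
    have h1 := (hP 1).1 (by simp)
    have e : p⁻¹ * (a * (p * 1) * b⁻¹) = w := by rw [hw]; group
    rw [e] at h1
    exact h1
  have hP2 : ∀ z : Γ, z * c = c * z ↔ (b * z * b⁻¹) * c = c * (b * z * b⁻¹) := by
    intro z
    rw [hP z]
    have e : p⁻¹ * (a * (p * z) * b⁻¹) = w * (b * z * b⁻¹) := by rw [hw]; group
    rw [e]
    have hw' : Commute w c := hwc
    constructor
    · intro h
      have h' : Commute (w * (b * z * b⁻¹)) c := h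
      have h2 : Commute (w⁻¹ * (w * (b * z * b⁻¹))) c := (hw'.inv_left).mul_left h'
      rw [inv_mul_cancel_left] at h2
      exact h2
    · intro h
      have h' : Commute (b * z * b⁻¹) c := h
      exact hw'.mul_left h'
  -- powers
  obtain ⟨k, hk⟩ := hgen (b * c * b⁻¹) (N.mul_mem (N.mul_mem hbN hc) (N.inv_mem hbN))
    ((hP2 c).1 rfl)
  have hm0 : (b⁻¹ * c * b) * c = c * (b⁻¹ * c * b) := by
    rw [hP2]
    have e : b * (b⁻¹ * c * b) * b⁻¹ = c := by group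
    rw [e]
  obtain ⟨m, hm⟩ := hgen (b⁻¹ * c * b) (N.mul_mem (N.mul_mem (N.inv_mem hbN) hc) hbN) hm0
  have hkm : k * m = 1 := by
    apply dg_line2_inj tf c hc1
    rw [zpow_mul, ← hk, conj_zpow, ← hm, zpow_one]
    group
  have hbc : b * c = c * b := by
    rcases Int.eq_one_or_neg_one_of_mul_eq_one hkm with h1 | h1
    · rw [h1, zpow_one] at hk
      rw [mul_inv_eq_iff_eq_mul] at hk
      exact hk
    · exfalso
      rw [h1, zpow_neg, zpow_one] at hk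
      have hcc : c ≠ c⁻¹ := by
        intro h2
        apply tf c hc1 2 (by norm_num)
        rw [zpow_two]
        nth_rewrite 2 [h2]
        rw [mul_inv_cancel]
      have hb1 : b ≠ 1 := by
        intro h2
        rw [h2] at hk
        apply hcc
        rw [← hk]
        group
      have hb2 : b * b ≠ 1 := by
        rw [← zpow_two]
        exact tf b hb1 2 (by norm_num)
      have h3 : c * (b * b) = (b * b) * c := by
        have e1 : b * b * c = b * (b * c * b⁻¹) * b := by group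
        have e2 : b * c = c⁻¹ * b := by rw [← hk]; group
        have e3 : b * c⁻¹ = c * b := by
          have : b * c⁻¹ = (b * c * b⁻¹)⁻¹ * b := by group
          rw [this, hk, inv_inv]
        calc c * (b * b) = (c * b) * b := by group
          _ = b * c⁻¹ * b := by rw [e3]
          _ = b * (c⁻¹ * b) := by group
          _ = b * (b * c) := by rw [e2]
          _ = b * b * c := by group
      have h4 := (cent_eq tf cc b (b * b) hb1 hb2 (by group) c).2 h3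
      apply hcc
      rw [← hk, ← h4]
      group
  obtain ⟨j, hj⟩ := hgen b hbN hbc
  have hab : p⁻¹ * a * p = w * b := by rw [hw]; group
  have habN : p⁻¹ * a * p ∈ N := by
    have := (inferInstance : N.Normal).conj_mem a haN p⁻¹
    rwa [inv_inv] at this
  obtain ⟨i, hi⟩ := hgen (p⁻¹ * a * p) habN (by
    rw [hab]
    have h1 : Commute w c := hwc
    have h2 : Commute b c := hbc
    exact h1.mul_left h2)
  refine ⟨i, j, ?_, ?_⟩
  · rw [← ha, ← hi]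
    group
  · rw [← hb]
    exact hj

/-- the structure of a line: elements preserving it -/
theorem dg_line2 [N.Normal]
    (tf : ∀ γ : Γ, γ ≠ 1 → ∀ n : ℤ, n ≠ 0 → γ ^ n ≠ 1)
    (cc : ∀ γ : Γ, γ ≠ 1 → ∃ c : Γ, ∀ x : Γ, x * γ = γ * x ↔ ∃ n : ℤ, x = c ^ n)
    (p c : Γ) (hc : c ∈ N) (hpc : p * c * p⁻¹ ∈ N) (hc1 : c ≠ 1)
    (hgen : ∀ x ∈ N, x * c = c * x → ∃ n : ℤ, x = c ^ n)
    (s : Dg N) (hs : s = ((⟨p * c * p⁻¹, hpc⟩ : N), (⟨c, hc⟩ : N))) :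
    ∃ (s' : Dg N) (θ : Dg N → F2), Pres (P := Γ) s s' ∧
        (∀ g : Dg N, Pres (P := Γ) s g → ∃ n : ℤ, ∀ q : Γ, s • q = q → g • q = s' ^ n • q) ∧
        (∀ n : ℤ, n ≠ 0 → ∀ q : Γ, s • q = q → s' ^ n • q ≠ q) ∧
        (∀ g g' : Dg N, Pres (P := Γ) s g → Pres (P := Γ) s g' → θ (g * g') = θ g + θ g') ∧
        θ s = 1 := by
  classical
  have hfx := dg_line2_fix N p c hc hpc s hs
  have hinj := dg_line2_inj tf c hc1
  obtain ⟨s', hs'⟩ : ∃ s' : Dg N, s' = ((⟨p * c * p⁻¹, hpc⟩ : N), (1 : N)) := ⟨_, rfl⟩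
  have hpow1 : ∀ n : ℤ, ((s' ^ n).1 : Γ) = p * c ^ n * p⁻¹ := by
    intro n
    have h1 : (s' ^ n).1 = s'.1 ^ n := rfl
    rw [h1, hs', Subgroup.coe_zpow, conj_zpow]
  have hpow2 : ∀ n : ℤ, ((s' ^ n).2 : Γ) = 1 := by
    intro n
    have h1 : (s' ^ n).2 = s'.2 ^ n := rfl
    rw [h1, hs', Subgroup.coe_zpow]
    change (1 : Γ) ^ n = 1
    rw [one_zpow]
  have hpow : ∀ (n : ℤ) (q : Γ), s' ^ n • q = p * c ^ n * p⁻¹ * q := by
    intro n q
    rw [Dg.smul_def, hpow1, hpow2, inv_one, mul_one]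
  obtain ⟨θ, hθ⟩ : ∃ θ : Dg N → F2, θ = fun g => if h : ∃ j : ℤ, (g.2 : Γ) = c ^ j then
      ((h.choose : ℤ) : F2) else 0 := ⟨_, rfl⟩
  have hθj : ∀ (g : Dg N) (j : ℤ), (g.2 : Γ) = c ^ j → θ g = (j : F2) := by
    intro g j hj
    have hex : ∃ j : ℤ, (g.2 : Γ) = c ^ j := ⟨j, hj⟩
    rw [hθ]
    dsimp only
    rw [dif_pos hex]
    have h5 : c ^ j = c ^ hex.choose := hj.symm.trans hex.choose_spec
    exact congrArg (fun z : ℤ => (z : F2)) (hinj _ _ h5).symm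
  refine ⟨s', θ, ?_, ?_, ?_, ?_, ?_⟩
  · intro q
    rw [hfx, hfx]
    have e : s' • q = p * c * p⁻¹ * q := by
      have := hpow 1 q
      rwa [zpow_one, zpow_one] at this
    rw [e]
    have e2 : p⁻¹ * (p * c * p⁻¹ * q) = c * (p⁻¹ * q) := by group
    rw [e2]
    constructor
    · intro h
      rw [mul_assoc, h]
    · intro h
      rw [mul_assoc] at h
      exact mul_left_cancel h
  · intro g hg
    obtain ⟨i, j, h1, h2⟩ := dg_line2_pres N tf cc p c hc hpc hc1 hgen s hs g hg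
    refine ⟨i - j, fun q hq => ?_⟩
    rw [hfx] at hq
    rw [hpow, Dg.smul_def, h1, h2]
    have hq' : Commute (p⁻¹ * q) c := hq
    have hq2 : Commute (p⁻¹ * q) (c ^ (-j)) := hq'.zpow_right (-j)
    have e1 : p * c ^ i * p⁻¹ * q * (c ^ j)⁻¹ = p * c ^ i * ((p⁻¹ * q) * c ^ (-j)) := by
      rw [zpow_neg]; group
    rw [e1, hq2.eq]
    have e2 : p * c ^ (i - j) * p⁻¹ * q = p * (c ^ i * c ^ (-j)) * (p⁻¹ * q) := by
      rw [← zpow_add, ← sub_eq_add_neg]; group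
    rw [e2]
    group
  · intro n hn q hq h
    rw [hpow] at h
    apply tf c hc1 n hn
    have e : c ^ n = p⁻¹ * (p * c ^ n * p⁻¹ * q) * q⁻¹ * p := by group
    rw [e, h]
    group
  · intro g g' hg hg'
    obtain ⟨i, j, h1, h2⟩ := dg_line2_pres N tf cc p c hc hpc hc1 hgen s hs g hg
    obtain ⟨i', j', h1', h2'⟩ := dg_line2_pres N tf cc p c hc hpc hc1 hgen s hs g' hg'
    have h3 : ((g * g').2 : Γ) = c ^ (j + j') := by
      have : (g * g').2 = g.2 * g'.2 := rfl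
      rw [this, Subgroup.coe_mul, h2, h2', zpow_add]
    rw [hθj _ _ h3, hθj _ _ h2, hθj _ _ h2', Int.cast_add]
  · have h3 : (s.2 : Γ) = c ^ (1 : ℤ) := by
      rw [hs, zpow_one]
    rw [hθj _ _ h3, Int.cast_one]

theorem good_of [DecidableEq Γ] [N.Normal] [N.FiniteIndex]
    (tf : ∀ γ : Γ, γ ≠ 1 → ∀ n : ℤ, n ≠ 0 → γ ^ n ≠ 1)
    (cc : ∀ γ : Γ, γ ≠ 1 → ∃ c : Γ, ∀ x : Γ, x * γ = γ * x ↔ ∃ n : ℤ, x = c ^ n) :
    Good (Dg N) Γ where
  tf := dg_tf N tf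
  fix := dg_fix N tf cc
  line := by
    intro t ht
    rcases dg_stab N tf cc t ht with h | ⟨p, c, hc, hpc, hc1, hgen, h⟩
    · refine ⟨1, fun g => ?_, fun h1 => absurd rfl h1⟩
      rw [h g]
      constructor
      · intro h2
        exact ⟨0, by rw [h2]; simp⟩
      · rintro ⟨n, h2⟩
        rw [h2]
        simp
    · refine ⟨((⟨p * c * p⁻¹, hpc⟩ : N), (⟨c, hc⟩ : N)), h, fun _ => ⟨?_, ?_⟩⟩
      · intro t' ht' hfix g hg
        exact dg_line1 N tf cc p c hc hpc hc1 hgen _ rfl t' ht' hfix g hg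
      · exact dg_line2 N tf cc p c hc hpc hc1 hgen _ rfl

end

end Pool.Agent.Helper158.TC
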