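import Pool.Agent.Helper158.TC.Geo

set_option autoImplicit false
set_option linter.unusedVariables false


namespace Pool.Agent.Helper158.TC

open Set Topology UpperHalfPlane

/-- rotation matrix up to scaling -/
noncomputable def rotM (u v : ℝ) (h : u ^ 2 + v ^ 2 ≠ 0) : Matrix.GeneralLinearGroup (Fin 2) ℝ :=
  Matrix.GeneralLinearGroup.mkOfDetNeZero !![u, v; -v, u] (by
    rw [Matrix.det_fin_two_of]
    intro h2
    apply h
    linarith)

theorem rotM_smul (u v : ℝ) (h : u ^ 2 + v ^ 2 ≠ 0) (z : ℍ) :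
    ((rotM u v h • z : ℍ) : ℂ) = ((u : ℂ) * z + v) / (-(v : ℂ) * z + u) := by
  have hdet : 0 < (rotM u v h).det.val := by
    have e : (rotM u v h).det.val = u ^ 2 + v ^ 2 := by
      show Matrix.det !![u, v; -v, u] = _
      rw [Matrix.det_fin_two_of]
      ring
    rw [e]
    exact lt_of_le_of_ne (by positivity) h.symm
  rw [coe_smul_of_det_pos hdet]
  simp [num, denom, rotM, Matrix.GeneralLinearGroup.mkOfDetNeZero]

theorem rotM_I (u v : ℝ) (h : u ^ 2 + v ^ 2 ≠ 0) :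
    rotM u v h • UpperHalfPlane.I = UpperHalfPlane.I := by
  have hne : -(v : ℂ) * Complex.I + u ≠ 0 := by
    intro h0
    have h1 := congrArg Complex.re h0
    have h2 := congrArg Complex.im h0
    simp at h1 h2
    apply h
    rw [h1, h2]
    norm_num
  apply UpperHalfPlane.ext
  rw [rotM_smul]
  show ((u : ℂ) * Complex.I + v) / (-(v : ℂ) * Complex.I + u) = Complex.I
  rw [div_eq_iff hne]
  have := Complex.I_mul_I
  linear_combination (v : ℂ) * this

/-- any point of the upper half plane can be rotated about `i` onto the imaginary axis above `i` -/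
theorem iso_rot (w : ℍ) : ∃ (M : Matrix.GeneralLinearGroup (Fin 2) ℝ) (t : ℝ) (ht : 0 < t), 1 ≤ t ∧
    M • UpperHalfPlane.I = UpperHalfPlane.I ∧ M • w = (⟨⟨0, t⟩, ht⟩ : ℍ) := by
  obtain ⟨u, v, h, huv⟩ : ∃ u v : ℝ, u ^ 2 + v ^ 2 ≠ 0 ∧
      (u ^ 2 - v ^ 2) * w.re + u * v * (1 - (w.re ^ 2 + w.im ^ 2)) = 0 := by
    by_cases hx : w.re = 0
    · exact ⟨1, 0, by norm_num, by rw [hx]; ring⟩
    · set x := w.re
      set q := 1 - (x ^ 2 + w.im ^ 2)
      have hD : 0 ≤ q ^ 2 + 4 * x ^ 2 := by positivity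
      refine ⟨(-q + Real.sqrt (q ^ 2 + 4 * x ^ 2)) / (2 * x), 1, by positivity, ?_⟩
      have hs := Real.sq_sqrt hD
      field_simp
      linear_combination hs
  have key : ∃ (t : ℝ) (ht : 0 < t), rotM u v h • w = (⟨⟨0, t⟩, ht⟩ : ℍ) := by
    refine ⟨(rotM u v h • w).im, (rotM u v h • w).im_pos, ?_⟩
    apply UpperHalfPlane.ext
    apply Complex.ext
    · show ((rotM u v h • w : ℍ) : ℂ).re = 0
      rw [rotM_smul, Complex.div_re]
      have e1 : ((u : ℂ) * w + v).re = u * w.re + v := by simp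
      have e2 : ((u : ℂ) * w + v).im = u * w.im := by simp
      have e3 : (-(v : ℂ) * w + u).re = -v * w.re + u := by simp
      have e4 : (-(v : ℂ) * w + u).im = -v * w.im := by simp
      rw [e1, e2, e3, e4, ← add_div]
      have e5 : (u * w.re + v) * (-v * w.re + u) + u * w.im * (-v * w.im) = 0 := by
        linear_combination huv
      rw [e5, zero_div]
    · rfl
  obtain ⟨t, ht, hMt⟩ := key
  by_cases h1 : 1 ≤ t
  · exact ⟨rotM u v h, t, ht, h1, rotM_I u v h, hMt⟩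
  · have h01 : (0:ℝ) ^ 2 + 1 ^ 2 ≠ 0 := by norm_num
    refine ⟨rotM 0 1 h01 * rotM u v h, t⁻¹, inv_pos.2 ht, ?_, ?_, ?_⟩
    · exact (one_le_inv₀ ht).2 (not_le.1 h1).le
    · rw [mul_smul, rotM_I, rotM_I]
    · rw [mul_smul, hMt]
      apply UpperHalfPlane.ext
      rw [rotM_smul]
      show (((0:ℝ) : ℂ) * (⟨0, t⟩ : ℂ) + ((1:ℝ) : ℂ)) / (-((1:ℝ) : ℂ) * (⟨0, t⟩ : ℂ) + ((0:ℝ) : ℂ)) =
        (⟨0, t⁻¹⟩ : ℂ)
      have hne : -((1:ℝ) : ℂ) * (⟨0, t⟩ : ℂ) + ((0:ℝ) : ℂ) ≠ 0 := by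
        intro h0
        have h2 := congrArg Complex.im h0
        simp at h2
        exact ht.ne' h2
      rw [div_eq_iff hne]
      apply Complex.ext
      · simp
        field_simp
      · simp

/-- a point is determined by its distances to `i`, `2 i` and `1 + i` -/
theorem iso_three (z w : ℍ) (h1 : dist z UpperHalfPlane.I = dist w UpperHalfPlane.I)
    (h2 : dist z (⟨⟨0, 2⟩, two_pos⟩ : ℍ) = dist w (⟨⟨0, 2⟩, two_pos⟩ : ℍ)) :
    z.im = w.im ∧ z.re ^ 2 = w.re ^ 2 := by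
  have key : ∀ (a b : ℍ), dist (a : ℂ) b ^ 2 = (a.re - b.re) ^ 2 + (a.im - b.im) ^ 2 := by
    intro a b
    rw [Complex.dist_eq_re_im, Real.sq_sqrt (by positivity)]
    simp
  have e1 : Real.cosh (dist z UpperHalfPlane.I) = Real.cosh (dist w UpperHalfPlane.I) := by rw [h1]
  have e2 : Real.cosh (dist z (⟨⟨0, 2⟩, two_pos⟩ : ℍ)) =
      Real.cosh (dist w (⟨⟨0, 2⟩, two_pos⟩ : ℍ)) := by rw [h2]
  rw [UpperHalfPlane.cosh_dist, UpperHalfPlane.cosh_dist, key, key] at e1 e2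
  have i1 : UpperHalfPlane.I.re = 0 := by simp
  have i2 : UpperHalfPlane.I.im = 1 := by simp
  have j1 : (⟨⟨0, 2⟩, two_pos⟩ : ℍ).re = 0 := rfl
  have j2 : (⟨⟨0, 2⟩, two_pos⟩ : ℍ).im = 2 := rfl
  rw [i1, i2] at e1
  rw [j1, j2] at e2
  have hz : 0 < z.im := z.im_pos
  have hw : 0 < w.im := w.im_pos
  have hzn : z.im ≠ 0 := hz.ne'
  have hwn : w.im ≠ 0 := hw.ne'
  field_simp at e1 e2
  have h3 : z.im = w.im := by nlinarith
  refine ⟨h3, ?_⟩
  rw [h3] at e1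
  have := mul_left_cancel₀ hwn (by nlinarith : w.im * z.re ^ 2 = w.im * w.re ^ 2)
  exact this

/-- the action of the general linear group is by isometries -/
theorem iso_gl_dist (M : Matrix.GeneralLinearGroup (Fin 2) ℝ) (z w : ℍ) :
    dist (M • z) (M • w) = dist z w :=
  gl_dist M z w


theorem iso_gl_id (g : ℍ → ℍ) (hg : ∀ z w, dist (g z) (g w) = dist z w)
    (h1 : g UpperHalfPlane.I = UpperHalfPlane.I)
    (h2 : g (⟨⟨0, 2⟩, two_pos⟩ : ℍ) = (⟨⟨0, 2⟩, two_pos⟩ : ℍ))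
    (h3 : g (⟨⟨1, 1⟩, one_pos⟩ : ℍ) = (⟨⟨1, 1⟩, one_pos⟩ : ℍ)) : ∀ z, g z = z := by
  intro z
  have a1 : dist (g z) UpperHalfPlane.I = dist z UpperHalfPlane.I := by
    conv_lhs => rw [← h1]
    exact hg _ _
  have a2 : dist (g z) (⟨⟨0, 2⟩, two_pos⟩ : ℍ) = dist z (⟨⟨0, 2⟩, two_pos⟩ : ℍ) := by
    conv_lhs => rw [← h2]
    exact hg _ _
  have a3 : dist (g z) (⟨⟨1, 1⟩, one_pos⟩ : ℍ) = dist z (⟨⟨1, 1⟩, one_pos⟩ : ℍ) := by
    conv_lhs => rw [← h3]
    exact hg _ _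
  obtain ⟨him, hre⟩ := iso_three (g z) z a1 a2
  have c := congrArg Real.cosh a3
  rw [UpperHalfPlane.cosh_dist, UpperHalfPlane.cosh_dist] at c
  have him0 : z.im ≠ 0 := z.im_pos.ne'
  have e1 : (⟨⟨1, 1⟩, one_pos⟩ : ℍ).im = 1 := rfl
  rw [him, e1] at c
  have c2 : dist ((g z : ℍ) : ℂ) ((⟨⟨1, 1⟩, one_pos⟩ : ℍ) : ℂ) ^ 2
      = dist ((z : ℍ) : ℂ) ((⟨⟨1, 1⟩, one_pos⟩ : ℍ) : ℂ) ^ 2 := by
    have hne : (2 * z.im * 1 : ℝ) ≠ 0 := by simpa using him0
    have c3 := add_left_cancel c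
    rwa [div_left_inj' hne] at c3
  rw [Complex.dist_eq, Complex.dist_eq, ← Complex.normSq_eq_norm_sq, ← Complex.normSq_eq_norm_sq,
    Complex.normSq_apply, Complex.normSq_apply] at c2
  simp only [Complex.sub_re, Complex.sub_im, UpperHalfPlane.coe_re, UpperHalfPlane.coe_im, him] at c2
  have hre' : (g z).re = z.re := by
    nlinarith
  apply UpperHalfPlane.ext
  apply Complex.ext
  · exact hre'
  · exact him

/-- every isometry of the upper half plane comes from the general linear group -/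
theorem iso_gl (f : ℍ → ℍ) (hf : Isometry f) :
    ∃ M : Matrix.GeneralLinearGroup (Fin 2) ℝ, ∀ z : ℍ, f z = M • z := by
  obtain ⟨M1, hM1⟩ := MulAction.exists_smul_eq (Matrix.GeneralLinearGroup (Fin 2) ℝ)
    (f UpperHalfPlane.I) UpperHalfPlane.I
  obtain ⟨M2, t, ht, ht1, hM2I, hM2w⟩ := iso_rot (M1 • f (⟨⟨0, 2⟩, two_pos⟩ : ℍ))
  set g : ℍ → ℍ := fun z => M2 • M1 • f z with hgdef
  have hg : ∀ z w, dist (g z) (g w) = dist z w := by
    intro z w
    rw [hgdef]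
    simp only
    rw [iso_gl_dist, iso_gl_dist, hf.dist_eq]
  have g1 : g UpperHalfPlane.I = UpperHalfPlane.I := by
    show M2 • M1 • f UpperHalfPlane.I = _
    rw [hM1, hM2I]
  have g2' : g (⟨⟨0, 2⟩, two_pos⟩ : ℍ) = (⟨⟨0, t⟩, ht⟩ : ℍ) := hM2w
  have ht2 : t = 2 := by
    have h := hg (⟨⟨0, 2⟩, two_pos⟩ : ℍ) UpperHalfPlane.I
    rw [g1, g2', UpperHalfPlane.dist_of_re_eq, UpperHalfPlane.dist_of_re_eq] at h
    · have e1 : (⟨⟨0, 2⟩, two_pos⟩ : ℍ).im = 2 := rfl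
      have e2 : (⟨⟨0, t⟩, ht⟩ : ℍ).im = t := rfl
      rw [e1, e2, UpperHalfPlane.I_im, Real.log_one, Real.dist_eq, Real.dist_eq, sub_zero,
        sub_zero, abs_of_nonneg (Real.log_nonneg ht1), abs_of_nonneg (Real.log_nonneg one_le_two)]
        at h
      exact Real.log_injOn_pos (Set.mem_Ioi.2 ht) (Set.mem_Ioi.2 two_pos) h
    · rw [UpperHalfPlane.I_re]; rfl
    · rw [UpperHalfPlane.I_re]; rfl
  subst ht2
  have g2 : g (⟨⟨0, 2⟩, two_pos⟩ : ℍ) = (⟨⟨0, 2⟩, two_pos⟩ : ℍ) := g2'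
  have a1 : dist (g (⟨⟨1, 1⟩, one_pos⟩ : ℍ)) UpperHalfPlane.I
      = dist (⟨⟨1, 1⟩, one_pos⟩ : ℍ) UpperHalfPlane.I := by
    conv_lhs => rw [← g1]
    exact hg _ _
  have a2 : dist (g (⟨⟨1, 1⟩, one_pos⟩ : ℍ)) (⟨⟨0, 2⟩, two_pos⟩ : ℍ)
      = dist (⟨⟨1, 1⟩, one_pos⟩ : ℍ) (⟨⟨0, 2⟩, two_pos⟩ : ℍ) := by
    conv_lhs => rw [← g2]
    exact hg _ _
  obtain ⟨him, hre⟩ := iso_three _ _ a1 a2
  have e1 : (⟨⟨1, 1⟩, one_pos⟩ : ℍ).im = 1 := rfl
  have e2 : (⟨⟨1, 1⟩, one_pos⟩ : ℍ).re = 1 := rfl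
  rw [e1] at him
  rw [e2, one_pow] at hre
  rcases (sq_eq_one_iff.1 hre) with hre | hre
  · have g3 : g (⟨⟨1, 1⟩, one_pos⟩ : ℍ) = (⟨⟨1, 1⟩, one_pos⟩ : ℍ) := by
      apply UpperHalfPlane.ext
      apply Complex.ext
      · exact hre
      · exact him
    have hid := iso_gl_id g hg g1 g2 g3
    refine ⟨(M2 * M1)⁻¹, fun z => ?_⟩
    have := hid z
    rw [eq_inv_smul_iff, mul_smul]
    exact this
  · have hJ : ∀ z : ℍ, (UpperHalfPlane.J • z).re = - z.re ∧ (UpperHalfPlane.J • z).im = z.im := by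
      intro z
      have h := UpperHalfPlane.coe_J_smul z
      constructor
      · have := congrArg Complex.re h
        simpa using this
      · have := congrArg Complex.im h
        simpa using this
    have hid := iso_gl_id (fun z => UpperHalfPlane.J • g z)
      (fun z w => by
        rw [iso_gl_dist, hg])
      (by
        rw [g1]
        apply UpperHalfPlane.ext
        apply Complex.ext
        · have := (hJ UpperHalfPlane.I).1
          rw [UpperHalfPlane.I_re, neg_zero] at this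
          exact this.trans UpperHalfPlane.I_re.symm
        · exact (hJ UpperHalfPlane.I).2)
      (by
        rw [g2]
        apply UpperHalfPlane.ext
        apply Complex.ext
        · have := (hJ (⟨⟨0, 2⟩, two_pos⟩ : ℍ)).1
          refine this.trans ?_
          show -(0 : ℝ) = 0
          exact neg_zero
        · exact (hJ (⟨⟨0, 2⟩, two_pos⟩ : ℍ)).2)
      (by
        apply UpperHalfPlane.ext
        apply Complex.ext
        · have := (hJ (g (⟨⟨1, 1⟩, one_pos⟩ : ℍ))).1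
          refine this.trans ?_
          rw [hre, neg_neg]
        · exact (hJ (g (⟨⟨1, 1⟩, one_pos⟩ : ℍ))).2.trans him)
    refine ⟨(UpperHalfPlane.J * (M2 * M1))⁻¹, fun z => ?_⟩
    have := hid z
    rw [eq_inv_smul_iff, mul_smul, mul_smul]
    exact this

end Pool.Agent.Helper158.TC
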