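import Pool.Agent.Helper158.PD.Fin

set_option autoImplicit false
set_option linter.unusedVariables false


namespace Pool.Agent.Helper158.TC

open Set Topology
open Pool.Agent.Helper158.PD
open Pool.Agent.Helper922.HB.Sc (Sing sface altd vert)

/-- cocycles vanishing on small simplices are coboundaries -/
theorem small_zero {B : Type} [TopologicalSpace B] {n : ℕ} (W : Set (Set B))
    (hW : ∀ V ∈ W, IsOpen V) (hc : ∀ b : B, ∃ V ∈ W, b ∈ V)
    (u : Co B (n + 1)) (hu : dl (n + 1) u = 0)
    (h0 : ∀ σ : Sing B (n + 1), (∃ V ∈ W, range σ ⊆ V) → u σ = 0) : ∃ v : Co B n, dl n v = u := by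
  have hb : inc (n + 1) u ∈ NT (univ : Set B) := by
    refine inc_mem_N ?_
    intro x _
    obtain ⟨V, hV, hxV⟩ := hc x
    exact ⟨V, hW V hV, hxV, fun σ hσ => h0 σ ⟨V, hV, hσ⟩⟩
  obtain ⟨b', _, h⟩ := nt_univ_acyclic (inc (n + 1) u) hb (by rw [tdl_inc, hu, map_zero])
  refine ⟨cp n b', ?_⟩
  have h2 := congrArg (cp (n + 1)) h
  rw [cp_inc, cp_tdl_succ] at h2
  exact h2.symm

open Pool.Agent.Helper922.HB.Sc Finsupp in
/-- the prism operator: natural homotopy formula -/
theorem prism {A B : Type} [TopologicalSpace A] [TopologicalSpace B]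
    (F : C(A × unitInterval, B)) {n : ℕ} (u : Co B (n + 1)) (hu : dl (n + 1) u = 0) :
    ∃ v : Co A n, (∀ σ : Sing A (n + 1), dl n v σ =
        u (F.comp (σ.prodMk (ContinuousMap.const _ 1))) +
        u (F.comp (σ.prodMk (ContinuousMap.const _ 0)))) ∧
      ∀ (a : C(A, A)) (b : C(B, B)), (∀ (x : A) (t : unitInterval), F (a x, t) = b (F (x, t))) →
        (∀ τ : Sing B (n + 1), u (b.comp τ) = u τ) → ∀ σ : Sing A n, v (a.comp σ) = v σ := by
  refine ⟨fun σ => evc u (PD F n (single σ 1)), ?_, ?_⟩
  · intro σ
    have h0 : dl n (fun σ => evc u (PD F n (single σ 1))) σ =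
        altd F2 (sface (X := A)) n (fun σ => evc u (PD F n (single σ 1))) σ := rfl
    rw [h0, altd_eq_ev]
    have h1 : Finsupp.linearCombination ℤ (fun σ => evc u (PD F n (single σ 1))) =
        (evc u).comp (PD F n) := by
      apply Finsupp.lhom_ext'
      intro σ
      apply LinearMap.ext_ring
      simp only [LinearMap.comp_apply, lsingle_apply, linearCombination_single, one_smul]
    rw [h1, LinearMap.comp_apply]
    have h2 := sbd_PD F n (single σ 1)
    have h3 : evc u (sbd B (n + 1) (PD F (n + 1) (single σ 1))) = 0 := by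
      rw [← ev_altd]
      have h5 : altd F2 (sface (X := B)) (n + 1) u = 0 := hu
      rw [h5]
      simp
    have h4 := congrArg (evc u) h2
    rw [map_add, map_sub, cpush_single, cpush_single, evc_single, evc_single] at h4
    change evc u (bd (sface (X := B)) (n + 1) (PD F (n + 1) (single σ 1))) +
      evc u (PD F n (bd (sface (X := A)) n (single σ 1))) = _ at h4
    rw [h3, zero_add] at h4
    rw [h4, sub_eq_add_neg, CharTwo.neg_eq]
    rfl
  · intro a b hab hinv σ
    change evc u (PD F n (single (a.comp σ) 1)) = evc u (PD F n (single σ 1))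
    rw [PD_single, PD_single]
    have h1 : GG F (a.comp σ) = b.comp (GG F σ) := by
      apply ContinuousMap.ext
      rintro ⟨x, t⟩
      exact hab (σ x) t
    rw [h1]
    have h2 : ∀ z : (Fin (n + 1 + 1) → Dl n × Bool) →₀ ℤ,
        evc u (ppush (b.comp (GG F σ)) (n + 1) z) = evc u (ppush (GG F σ) (n + 1) z) := by
      intro z
      have h3 : (evc u).comp (ppush (b.comp (GG F σ)) (n + 1)) =
          (evc u).comp (ppush (GG F σ) (n + 1)) := by
        apply Finsupp.lhom_ext'
        intro c
        apply LinearMap.ext_ring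
        simp only [LinearMap.comp_apply, lsingle_apply]
        rw [ppush_single, ppush_single, evc_single, evc_single]
        exact hinv ((GG F σ).comp (paff c))
      exact LinearMap.congr_fun h3 z
    exact h2 _

end Pool.Agent.Helper158.TC
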