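import Pool.Agent.Helper158.TC.Top
import Pool.Agent.Helper158.TC.Geo

set_option autoImplicit false
set_option linter.unusedVariables false


namespace Pool.Agent.Helper158.TC

open Set Topology UpperHalfPlane
open Pool.Agent.Helper158.PD
open Pool.Agent.Helper922.HB.Sc (Sing sface altd vert)
open scoped Pointwise MatrixGroups

/-- the top cohomology of a closed manifold is nonzero -/
theorem top_ne (X : Type) [TopologicalSpace X] [CompactSpace X] [T2Space X] [Nonempty X] (m : ℕ)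
    [ChartedSpace (EuclideanSpace ℝ (Fin (m + 1))) X] : Cy X (m + 1) ≠ Bd X (m + 1) := by
  intro h
  obtain ⟨I, hI, hnd, -, -⟩ := poincare X m
  have h1 : (fun _ => 1 : Co X 0) ∈ Cy X 0 := by
    change dl 0 (fun _ => 1 : Co X 0) = 0
    funext σ
    rw [dl_apply, Fin.sum_univ_two]
    exact CharTwo.add_self_eq_zero _
  have h2 : (fun _ => 1 : Co X 0) ∈ Bd X 0 := by
    refine hnd 0 (m + 1) (by omega) _ h1 ?_
    intro b hb
    rw [h] at hb
    obtain ⟨c, rfl⟩ := hb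
    have h3 : cup (show 0 + (m + 1) = m + 1 by omega) (fun _ => 1 : Co X 0) (dl m c) = dl m c := by
      funext σ
      rw [cup_apply, one_mul]
      have h4 : back (show 0 + (m + 1) = m + 1 by omega) = id := by
        funext i
        apply Fin.ext
        simp [back]
      have h5 : sub (back (show 0 + (m + 1) = m + 1 by omega)) σ = σ := by
        rw [h4]
        apply ContinuousMap.ext
        intro x
        change σ (stdSimplex.map id x) = σ x
        rw [stdSimplex.map_id_apply]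
      rw [h5]
    rw [h3]
    exact hI c
  obtain ⟨x⟩ := (inferInstance : Nonempty X)
  have h5 : (fun _ => 1 : Co X 0) = 0 := h2
  have h6 := congrFun h5 (ContinuousMap.const _ x)
  exact one_ne_zero h6

variable {Γ G X : Type}

theorem main [Group Γ] [MulAction Γ ℍ]
    (hiso : ∀ γ : Γ, ∃ M : GL (Fin 2) ℝ, ∀ z : ℍ, γ • z = M • z)
    (hfree : ∀ (γ : Γ) (z : ℍ), γ • z = z → γ = 1) [ProperlyDiscontinuousSMul Γ ℍ]
    [TopologicalSpace X] [CompactSpace X] [T2Space X] [ChartedSpace (EuclideanSpace ℝ (Fin 2)) X]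
    [Group G] [Finite G] [TopologicalSpace G] [DiscreteTopology G] [MulAction G X]
    (φ : Γ →* G) (hφ : Function.Surjective φ) (q : ℍ → X) (hq : IsQuotientMap q)
    (hqf : ∀ z w, q z = q w ↔ ∃ γ, φ γ = 1 ∧ γ • z = w)
    (hqe : ∀ γ z, q (γ • z) = φ γ • q z) (U : Fin 4 → Set (X × X)) (hU : ∀ i, IsOpen (U i))
    (hcov : ⋃ i, U i = univ)
    (hs : ∀ i, ∃ s : C(U i, EG G X),
      ((ends G X).comp s).Homotopic ⟨Subtype.val, continuous_subtype_val⟩) : False := by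
  classical
  -- continuity of the action
  haveI : ContinuousConstSMul Γ ℍ := ⟨fun γ => by
    obtain ⟨M, hM⟩ := hiso γ
    have h1 : Isometry (fun z : ℍ => γ • z) := Isometry.of_dist_eq fun z w => by
      rw [hM z, hM w]
      exact gl_dist M z w
    exact h1.continuous⟩
  have hcq : Continuous q := hq.continuous
  haveI hcan : IsCancelSMul φ.ker ℍ := by
    rw [isCancelSMul_iff_eq_one_of_smul_eq]
    intro g z hz
    exact Subtype.ext (hfree g z hz)
  haveI : ProperlyDiscontinuousSMul φ.ker ℍ := ⟨fun {K L} hK hL => by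
    have h1 := ProperlyDiscontinuousSMul.finite_disjoint_inter_image (Γ := Γ) hK hL
    exact (h1.preimage (Subtype.val_injective.injOn) : Set.Finite ((Subtype.val : φ.ker → Γ) ⁻¹' _))⟩
  have hqc : IsQuotientCoveringMap q φ.ker := by
    refine hq.isQuotientCoveringMap_of_properlyDiscontinuousSMul ?_
    intro z w
    rw [hqf z w, MulAction.mem_orbit_iff]
    constructor
    · rintro ⟨γ, h1, h2⟩
      exact ⟨⟨γ⁻¹, by rw [MonoidHom.mem_ker, map_inv, h1, inv_one]⟩, by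
        rw [← h2]
        exact inv_smul_smul γ z⟩
    · rintro ⟨γ, h1⟩
      exact ⟨(γ : Γ)⁻¹, by rw [map_inv, MonoidHom.mem_ker.1 γ.2, inv_one], by
        rw [← h1]
        exact inv_smul_smul (γ : Γ) w⟩
  have hsurj : Function.Surjective q := hq.surjective
  haveI : Nonempty X := ⟨q UpperHalfPlane.I⟩
  -- cocompactness
  have hcc : ∃ K : Set ℍ, IsCompact K ∧ ∀ z : ℍ, ∃ γ : Γ, γ • z ∈ K := by
    have hopen : IsOpenMap q := hqc.isOpenQuotientMap.isOpenMap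
    have h1 : (univ : Set X) ⊆ ⋃ n : ℕ, q '' (Metric.ball UpperHalfPlane.I n) := by
      intro x _
      obtain ⟨z, rfl⟩ := hsurj x
      obtain ⟨n, hn⟩ := exists_nat_gt (dist z UpperHalfPlane.I)
      exact mem_iUnion.2 ⟨n, ⟨z, Metric.mem_ball.2 hn, rfl⟩⟩
    obtain ⟨t, ht⟩ := isCompact_univ.elim_finite_subcover _
      (fun n : ℕ => hopen _ (Metric.isOpen_ball (x := UpperHalfPlane.I) (ε := (n : ℝ)))) h1
    refine ⟨⋃ n ∈ t, Metric.closedBall UpperHalfPlane.I (n : ℝ),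
      t.isCompact_biUnion fun n _ => isCompact_closedBall _ _, fun z => ?_⟩
    obtain ⟨n, hn, w, hw, hwz⟩ : ∃ n ∈ t, ∃ w ∈ Metric.ball UpperHalfPlane.I (n : ℝ), q w = q z := by
      have h2 := ht (mem_univ (q z))
      simp only [mem_iUnion, mem_image] at h2
      obtain ⟨n, hn, w, hw, hwz⟩ := h2
      exact ⟨n, hn, w, hw, hwz⟩
    obtain ⟨γ, -, hγ⟩ := (hqf z w).1 hwz.symm
    exact ⟨γ, by
      rw [hγ]
      exact mem_biUnion hn (Metric.ball_subset_closedBall hw)⟩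
  obtain ⟨K, hK, hcc⟩ := hcc
  have hhyp := fun γ hγ => hyp hiso hfree K hK hcc γ hγ
  have tf := geo_tf hiso hfree hhyp
  have cc := geo_cc hiso hfree hhyp
  haveI : φ.ker.FiniteIndex := inferInstance
  have hG : Good (Dg φ.ker) Γ := good_of φ.ker tf cc
  -- lifting
  have hL1 : LiftK φ.ker ℍ X ⟨q, hcq⟩ := liftK_one hqc hcq
  have hL2 : LiftK (Dg φ.ker) (ℍ × ℍ) (X × X) ⟨Prod.map q q, hcq.prodMap hcq⟩ :=
    liftK_two φ.ker hqc hcq
  -- cohomology
  obtain ⟨I, hI, -, hX, -⟩ := poincare X 1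
  have hX4 : Cy X 4 = Bd X 4 := hX 4 (by norm_num)
  obtain ⟨hch⟩ := chart_prod X
  have hXX : Cy (X × X) 4 ≠ Bd (X × X) 4 := top_ne (X × X) 3
  apply hXX
  obtain ⟨F, hF0, hF1, hFe⟩ := geo_htpy
  have hFe' : ∀ (γ : Γ) (y : ℍ × ℍ) (t : unitInterval),
      F ((γ • y.1, γ • y.2), t) = γ • F (y, t) := by
    intro γ y t
    obtain ⟨M, hM⟩ := hiso γ
    rw [hM, hM, hM]
    exact hFe M y t
  have hV := vfour φ.ker ⟨q, hcq⟩ hL1 hX4 F hF0 hF1 hFe'
  -- labels
  have hlab : ∀ i, ∃ f : ℍ × ℍ → Γ,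
      (∀ (g : Dg φ.ker) (y : ℍ × ℍ), (q y.1, q y.2) ∈ U i → f (g • y) = g • f y) ∧
      ∀ y : ℍ × ℍ, (q y.1, q y.2) ∈ U i → ∀ᶠ y' in 𝓝 y, f y' = f y := by
    intro i
    obtain ⟨s, h⟩ := hs i
    exact labels hfree φ hφ q hq hqf hqe (U i) (hU i) s h
  choose f hf1 hf2 using hlab
  obtain ⟨W, hW, hWc, l, hl, hlW⟩ := colors (K := Dg φ.ker) (P := Γ)
    (⟨Prod.map q q, hcq.prodMap hcq⟩ : C(ℍ × ℍ, X × X)) hL2.inv U hU hcov f
    (fun i k y hy => hf1 i k y hy) (fun i y hy => hf2 i y hy)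
  refine hL2.fin W hW hWc ?_
  intro α hα hαi
  have hfreeH : ∀ (g : Dg φ.ker) (y : ℍ × ℍ), g • y = y → g = 1 := by
    intro g y hy
    have h1 : (g.1 : Γ) • y.1 = y.1 := congrArg Prod.fst hy
    have h2 : (g.2 : Γ) • y.2 = y.2 := congrArg Prod.snd hy
    exact Prod.ext (Subtype.ext (hfree _ _ h1)) (Subtype.ext (hfree _ _ h2))
  obtain ⟨Ξ3, Ξ2, Ξ1, Ξ0, e3, e2, e1, e0, k3, k2, k1, k0⟩ :=
    chase (G := Dg φ.ker) (P := Γ) (acyc_of (ℍ × ℍ)) (conn_of (ℍ × ℍ)) hfreeH hG hV α hα hαi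
  obtain ⟨β, hβ1, hβ2⟩ := beta l hl α Ξ3 Ξ2 Ξ1 Ξ0 e3 e2 e1 e0 k3 k2 k1 k0
  exact ⟨β, hβ1, fun σ hσ => hβ2 σ (hlW σ hσ)⟩

end Pool.Agent.Helper158.TC
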