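import Mathlib

set_option autoImplicit false
set_option linter.unusedVariables false


namespace Pool.Agent.Helper158.TC

open Set Topology UpperHalfPlane

/-- the covering of the orbit space for a free action of a finite group on a Hausdorff space -/
theorem red_cov {G X : Type} [Group G] [Finite G] [TopologicalSpace X] [T2Space X]
    [LocallyCompactSpace X] [MulAction G X] [ContinuousConstSMul G X]
    (hG : ∀ (g : G) (x : X), g • x = x → g = 1) :
    IsQuotientCoveringMap (Quotient.mk (MulAction.orbitRel G X)) G := by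
  haveI : IsCancelSMul G X := isCancelSMul_iff_eq_one_of_smul_eq.2 hG
  exact isQuotientCoveringMap_quotientMk_of_properlyDiscontinuousSMul

/-- lifting the universal covering of the orbit space -/
theorem red_lift {Γ G X Y : Type} [Group Γ] [TopologicalSpace Y] [MulAction Γ Y]
    [SimplyConnectedSpace Y] [LocallyPathConnectedSpace Y] [TopologicalSpace X] [ConnectedSpace X]
    [Group G] [MulAction G X] [ContinuousConstSMul Γ Y]
    (hY : IsQuotientCoveringMap (Quotient.mk (MulAction.orbitRel Γ Y)) Γ)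
    (hX : IsQuotientCoveringMap (Quotient.mk (MulAction.orbitRel G X)) G)
    (e : MulAction.orbitRel.Quotient Γ Y ≃ₜ MulAction.orbitRel.Quotient G X) :
    ∃ (φ : Γ →* G) (q : Y → X), Function.Surjective φ ∧ IsQuotientMap q ∧
      (∀ z w : Y, q z = q w ↔ ∃ γ : Γ, φ γ = 1 ∧ γ • z = w) ∧
      ∀ (γ : Γ) (z : Y), q (γ • z) = φ γ • q z := by
  classical
  haveI := hX.toContinuousConstSMul
  let m : Y → MulAction.orbitRel.Quotient Γ Y := Quotient.mk (MulAction.orbitRel Γ Y)
  let p : X → MulAction.orbitRel.Quotient G X := Quotient.mk (MulAction.orbitRel G X)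
  have hm : IsCoveringMap m := hY.isCoveringMap
  have hp : IsCoveringMap p := hX.isCoveringMap
  have hmm : ∀ (γ : Γ) (z : Y), m (γ • z) = m z := fun γ z => hY.map_smul γ
  have hpp : ∀ (g : G) (x : X), p (g • x) = p x := fun g x => hX.map_smul g
  have hmo : ∀ z w : Y, m z = m w → ∃ γ : Γ, γ • z = w := by
    intro z w h
    obtain ⟨γ, hγ⟩ := hY.apply_eq_iff_mem_orbit.mp h.symm
    exact ⟨γ, hγ⟩
  have hpo : ∀ x y : X, p x = p y → ∃ g : G, g • x = y := by
    intro z w h
    obtain ⟨γ, hγ⟩ := hX.apply_eq_iff_mem_orbit.mp h.symm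
    exact ⟨γ, hγ⟩
  have hps : Function.Surjective p := hX.surjective
  have hms : Function.Surjective m := hY.surjective
  obtain ⟨y0⟩ : Nonempty Y := inferInstance
  obtain ⟨x0, hx0⟩ := hps (e (m y0))
  obtain ⟨q, ⟨hq0, hq⟩, -⟩ := hp.existsUnique_continuousMap_lifts
    ⟨fun y => e (m y), e.continuous.comp hm.continuous⟩ y0 x0 hx0
  have hqz : ∀ z, p (q z) = e (m z) := fun z => congrFun hq z
  have hfree : ∀ (g g' : G) (x : X), g • x = g' • x → g = g' := by
    haveI := hX.isCancelSMul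
    intro g g' x h
    exact IsCancelSMul.right_cancel _ _ x h
  have key : ∀ (γ : Γ) (g : G) (w : Y), q (γ • w) = g • q w → ∀ z, q (γ • z) = g • q z := by
    intro γ g w hw z
    have := hp.eq_of_comp_eq (g₁ := fun z => q (γ • z)) (g₂ := fun z => g • q z)
      (q.continuous.comp (continuous_const_smul γ)) (q.continuous.const_smul g)
      (by funext z; simp only [Function.comp]; rw [hqz, hpp, hqz, hmm]) w hw
    exact congrFun this z
  have hex : ∀ γ : Γ, ∃ g : G, ∀ z, q (γ • z) = g • q z := by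
    intro γ
    have h1 : p (q y0) = p (q (γ • y0)) := by rw [hqz, hqz, hmm]
    obtain ⟨g, hg⟩ := hpo _ _ h1
    exact ⟨g, key γ g y0 hg.symm⟩
  choose φ hφ using hex
  have hop : IsOpenMap q := by
    refine (IsLocalHomeomorph.of_comp (g := p) ?_ hp.isLocalHomeomorph q.continuous).isOpenMap
    have : p ∘ q = e ∘ m := funext hqz
    rw [this]
    exact e.isLocalHomeomorph.comp hm.isLocalHomeomorph
  have hlift : ∀ (z w : Y) (g : G), g • q z = q w → ∃ γ : Γ, γ • z = w ∧ φ γ = g := by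
    intro z w g h
    have h1 : m z = m w := e.injective (by rw [← hqz, ← hqz, ← h, hpp])
    obtain ⟨γ, hγ⟩ := hmo _ _ h1
    refine ⟨γ, hγ, hfree _ _ (q z) ?_⟩
    rw [← hφ, hγ, h]
  have hsurj : Function.Surjective q := by
    have hcl : IsClopen (Set.range q) := by
      refine ⟨⟨?_⟩, hop.isOpen_range⟩
      rw [isOpen_iff_forall_mem_open]
      intro x hx
      obtain ⟨b, hb⟩ := hms (e.symm (p x))
      have h1 : p (q b) = p x := by rw [hqz, hb]; simp
      obtain ⟨g, hg⟩ := hpo _ _ h1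
      refine ⟨(fun x => g • x) '' Set.range q, ?_, (isOpenMap_smul g) _ hop.isOpen_range,
        ⟨q b, ⟨b, rfl⟩, hg⟩⟩
      rintro _ ⟨_, ⟨z, rfl⟩, rfl⟩ ⟨w, hw⟩
      obtain ⟨γ, -, hγ⟩ := hlift z w g hw.symm
      apply hx
      refine ⟨γ • b, ?_⟩
      rw [hφ, hγ, hg]
    have := hcl.eq_univ ⟨q y0, y0, rfl⟩
    exact Set.range_eq_univ.mp this
  refine ⟨⟨⟨φ, ?_⟩, ?_⟩, q, ?_, hop.isQuotientMap q.continuous hsurj, ?_, ?_⟩
  · apply hfree _ _ (q y0)
    rw [← hφ]; simp
  · intro a b
    apply hfree _ _ (q y0)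
    rw [← hφ, mul_smul, mul_smul, ← hφ b, ← hφ a]
  · intro g
    obtain ⟨w, hw⟩ := hsurj (g • q y0)
    obtain ⟨γ, -, hγ⟩ := hlift y0 w g hw.symm
    exact ⟨γ, hγ⟩
  · intro z w
    constructor
    · intro h
      obtain ⟨γ, h1, h2⟩ := hlift z w 1 (by rw [one_smul, h])
      exact ⟨γ, h2, h1⟩
    · rintro ⟨γ, h1, h2⟩
      have h1' : φ γ = 1 := h1
      rw [← h2, hφ, h1', one_smul]
  · intro γ z
    exact hφ γ z

end Pool.Agent.Helper158.TC
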