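import Pool.Agent.Helper158.TC.Grp
import Pool.Agent.Helper158.TC.Lib

set_option autoImplicit false
set_option linter.unusedVariables false

namespace Pool.Agent.Helper158.TC

open Set Topology
open Pool.Agent.Helper158.PD
open Pool.Agent.Helper922.HB.Sc (Sing sface altd vert)
open scoped Pointwise

section Defs

variable (G X : Type) [TopologicalSpace G] [TopologicalSpace X] [SMul G X]

/-- broken paths -/
def EG : Type :=
  {e : C(unitInterval, X) × G × C(unitInterval, X) // e.2.1 • e.1 1 = e.2.2 0}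

instance : TopologicalSpace (EG G X) := instTopologicalSpaceSubtype

/-- the end points of a broken path -/
def ends : C(EG G X, X × X) :=
  ⟨fun e => (e.1.1 0, e.1.2.2 1), by
    refine Continuous.prodMk ?_ ?_
    · exact (continuous_eval_const 0).comp (continuous_fst.comp continuous_subtype_val)
    · exact (continuous_eval_const 1).comp
        (continuous_snd.comp (continuous_snd.comp continuous_subtype_val))⟩

end Defs

instance {Γ Y : Type} [Group Γ] [TopologicalSpace Y] [MulAction Γ Y] [ContinuousConstSMul Γ Y]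
    (N : Subgroup Γ) : ContinuousConstSMul (Dg N) (Y × Y) where
  continuous_const_smul g := by
    change Continuous fun y : Y × Y => ((g.1 : Γ) • y.1, (g.2 : Γ) • y.2)
    fun_prop

instance {Γ Y : Type} [Group Γ] [TopologicalSpace Y] [MulAction Γ Y] [ContinuousConstSMul Γ Y]
    (N : Subgroup Γ) : ContinuousConstSMul N Y where
  continuous_const_smul g := continuous_const_smul (g : Γ)

/-- simplices lift along `f`, uniquely up to `K` -/
structure LiftK (K A B : Type) [Group K] [TopologicalSpace A] [TopologicalSpace B] [MulAction K A]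
    [ContinuousConstSMul K A] (f : C(A, B)) : Prop where
  inv : ∀ (k : K) (a : A), f (k • a) = f a
  ex : ∀ (n : ℕ) (σ : Sing B n), ∃ τ : Sing A n, f.comp τ = σ
  un : ∀ (n : ℕ) (τ τ' : Sing A n), f.comp τ = f.comp τ' → ∃ k : K, k • τ = τ'

section

variable {K A B : Type} [Group K] [TopologicalSpace A] [TopologicalSpace B] [MulAction K A]
    [ContinuousConstSMul K A] {f : C(A, B)}

theorem LiftK.desc (h : LiftK K A B f) {n : ℕ} (u : Co A n)
    (hu : ∀ (k : K) (σ : Sing A n), u (k • σ) = u σ) :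
    ∃ v : Co B n, ∀ σ : Sing A n, u σ = v (f.comp σ) := by
  refine ⟨fun σ => u (Classical.choose (h.ex n σ)), fun σ => ?_⟩
  have h1 := Classical.choose_spec (h.ex n (f.comp σ))
  obtain ⟨k, hk⟩ := h.un n _ σ h1
  change u σ = u (Classical.choose (h.ex n (f.comp σ)))
  rw [← hu k (Classical.choose (h.ex n (f.comp σ))), hk]

theorem LiftK.prim (h : LiftK K A B f) {n : ℕ} (hB : Cy B (n + 1) = Bd B (n + 1))
    (u : Co A (n + 1)) (hu : ∀ (k : K) (σ : Sing A (n + 1)), u (k • σ) = u σ)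
    (hd : dl (n + 1) u = 0) :
    ∃ v : Co A n, (∀ (k : K) (σ : Sing A n), v (k • σ) = v σ) ∧ dl n v = u := by
  obtain ⟨v, hv⟩ := h.desc u hu
  have hdv : dl (n + 1) v = 0 := by
    funext σ
    obtain ⟨τ, rfl⟩ := h.ex (n + 1 + 1) σ
    have h1 : dl (n + 1) v (f.comp τ) = dl (n + 1) u τ := by
      rw [dl_apply, dl_apply]
      refine Finset.sum_congr rfl fun i _ => ?_
      rw [hv]
      rfl
    rw [h1, hd]
    rfl
  have hvB : v ∈ Bd B (n + 1) := by
    rw [← hB]
    exact LinearMap.mem_ker.2 hdv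
  obtain ⟨w, hw⟩ : ∃ w : Co B n, dl n w = v := LinearMap.mem_range.1 hvB
  refine ⟨fun τ => w (f.comp τ), ?_, ?_⟩
  · intro k σ
    have h2 : f.comp (k • σ) = f.comp σ := by
      ext x
      exact h.inv k (σ x)
    change w (f.comp (k • σ)) = w (f.comp σ)
    rw [h2]
  · funext τ
    rw [hv τ, ← hw, dl_apply, dl_apply]
    refine Finset.sum_congr rfl fun i _ => ?_
    rfl


theorem LiftK.fin (h : LiftK K A B f) (W : Set (Set B)) (hW : ∀ V ∈ W, IsOpen V)
    (hc : ∀ b : B, ∃ V ∈ W, b ∈ V)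
    (hyp : ∀ α : Co A 4, dl 4 α = 0 → (∀ (k : K) (σ : Sing A 4), α (k • σ) = α σ) →
      ∃ β : Co A 3, (∀ (k : K) (σ : Sing A 3), β (k • σ) = β σ) ∧
        ∀ σ : Sing A 4, (∃ V ∈ W, ∀ x, f (σ x) ∈ V) → dl 3 β σ = α σ) :
    Cy B 4 = Bd B 4 := by
  apply le_antisymm
  · intro a ha
    have ha' : dl 4 a = 0 := ha
    have hcomp : ∀ (n : ℕ) (i : Fin (n + 2)) (τ : Sing A (n + 1)),
        f.comp (sface n i τ) = sface n i (f.comp τ) := fun n i τ => rfl
    have hα : dl 4 (fun τ : Sing A 4 => a (f.comp τ)) = 0 := by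
      funext τ
      rw [dl_apply]
      have h1 : ∑ i : Fin (4 + 2), a (f.comp (sface 4 i τ)) = dl 4 a (f.comp τ) := by
        rw [dl_apply]
        exact Finset.sum_congr rfl fun i _ => by rw [hcomp]
      rw [h1, ha']
      rfl
    have hinv : ∀ (k : K) (σ : Sing A 4), (fun τ : Sing A 4 => a (f.comp τ)) (k • σ) =
        (fun τ : Sing A 4 => a (f.comp τ)) σ := by
      intro k σ
      show a (f.comp (k • σ)) = a (f.comp σ)
      congr 1
      ext x
      exact h.inv k (σ x)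
    obtain ⟨β, hβ, hβ2⟩ := hyp _ hα hinv
    obtain ⟨b, hb⟩ := h.desc β hβ
    have hkey : ∀ σ : Sing B 4, (∃ V ∈ W, range σ ⊆ V) → (a - dl 3 b) σ = 0 := by
      rintro σ ⟨V, hV, hσV⟩
      obtain ⟨τ, rfl⟩ := h.ex 4 σ
      have h1 : dl 3 b (f.comp τ) = dl 3 β τ := by
        rw [dl_apply, dl_apply]
        exact Finset.sum_congr rfl fun i _ => by rw [hb, hcomp]
      have h2 : dl 3 β τ = a (f.comp τ) := hβ2 τ ⟨V, hV, fun x => hσV ⟨x, rfl⟩⟩
      show a (f.comp τ) - dl 3 b (f.comp τ) = 0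
      rw [h1, h2, sub_self]
    have hd : dl (3 + 1) (a - dl 3 b) = 0 := by
      rw [map_sub, dl_dl, sub_zero]
      exact ha'
    obtain ⟨v, hv⟩ := small_zero (n := 3) W hW hc (a - dl 3 b) hd hkey
    refine ⟨v + b, ?_⟩
    rw [map_add, hv, sub_add_cancel]
  · rintro _ ⟨c, rfl⟩
    exact dl_dl 3 c

end

theorem lsx_lpc (n : ℕ) : LocallyPathConnectedSpace (stdSimplex ℝ (Fin (n + 1))) := by
  refine LocallyPathConnectedSpace.of_bases (fun x => Metric.nhds_basis_ball (x := x)) ?_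
  intro x r hr
  have h1 : (Subtype.val '' (Metric.ball x r) : Set (Fin (n + 1) → ℝ)) =
      Metric.ball (x : Fin (n + 1) → ℝ) r ∩ stdSimplex ℝ (Fin (n + 1)) := by
    ext y
    constructor
    · rintro ⟨z, hz, rfl⟩
      exact ⟨hz, z.2⟩
    · rintro ⟨hy, hy'⟩
      exact ⟨⟨y, hy'⟩, hy, rfl⟩
  rw [Topology.IsInducing.subtypeVal.isPathConnected_iff, h1]
  refine Convex.isPathConnected ((convex_ball _ _).inter (convex_stdSimplex ℝ _)) ?_
  exact ⟨x, Metric.mem_ball_self hr, x.2⟩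

theorem lsx_sc (n : ℕ) : SimplyConnectedSpace (stdSimplex ℝ (Fin (n + 1))) := by
  have : ContractibleSpace (stdSimplex ℝ (Fin (n + 1))) :=
    (convex_stdSimplex ℝ (Fin (n + 1))).contractibleSpace ⟨_, single_mem_stdSimplex ℝ 0⟩
  infer_instance

/-- the standard simplex is simply connected and locally path connected, so simplices lift -/
theorem lift_simplex {Y X : Type} [TopologicalSpace Y] [TopologicalSpace X] {q : Y → X}
    (hq : IsCoveringMap q) {n : ℕ} (σ : Sing X n) (y : Y) (x₀ : stdSimplex ℝ (Fin (n + 1)))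
    (h : q y = σ x₀) :
    ∃! τ : Sing Y n, τ x₀ = y ∧ ∀ x, q (τ x) = σ x := by
  have := lsx_lpc n
  have := lsx_sc n
  obtain ⟨F, ⟨hF1, hF2⟩, hF3⟩ := hq.existsUnique_continuousMap_lifts σ x₀ y h
  refine ⟨F, ⟨hF1, fun x => congrFun hF2 x⟩, ?_⟩
  rintro τ ⟨h1, h2⟩
  exact hF3 τ ⟨h1, funext h2⟩

theorem liftK_one {K Y X : Type} [Group K] [TopologicalSpace Y] [TopologicalSpace X] [MulAction K Y]
    [ContinuousConstSMul K Y] {q : Y → X} (hq : IsQuotientCoveringMap q K) (hc : Continuous q) :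
    LiftK K Y X ⟨q, hc⟩ := by
  refine ⟨fun k a => hq.map_smul k, ?_, ?_⟩
  · intro n σ
    obtain ⟨y, hy⟩ := hq.surjective (σ (stdSimplex.vertex 0))
    obtain ⟨τ, ⟨-, hτ⟩, -⟩ := lift_simplex hq.isCoveringMap σ y (stdSimplex.vertex 0) hy
    exact ⟨τ, ContinuousMap.ext hτ⟩
  · intro n τ τ' hτ
    have hx : ∀ x, q (τ x) = q (τ' x) := fun x => DFunLike.congr_fun hτ x
    have h0 := hx (stdSimplex.vertex 0)
    obtain ⟨k, hk⟩ := hq.apply_eq_iff_mem_orbit.1 h0.symm
    have hk' : k • τ (stdSimplex.vertex 0) = τ' (stdSimplex.vertex 0) := hk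
    refine ⟨k, ?_⟩
    obtain ⟨ρ, -, hρ⟩ := lift_simplex hq.isCoveringMap
      (ContinuousMap.comp ⟨q, hc⟩ τ') (τ' (stdSimplex.vertex 0)) (stdSimplex.vertex 0) rfl
    have e1 : k • τ = ρ := by
      apply hρ
      refine ⟨hk', fun x => ?_⟩
      have : q (k • τ x) = q (τ x) := hq.map_smul k
      exact this.trans (hx x)
    have e2 : τ' = ρ := by
      apply hρ
      exact ⟨rfl, fun x => rfl⟩
    rw [e1, e2]

theorem liftK_two {Γ Y X : Type} [Group Γ] [TopologicalSpace Y] [TopologicalSpace X] [MulAction Γ Y]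
    [ContinuousConstSMul Γ Y] (N : Subgroup Γ) {q : Y → X} (hq : IsQuotientCoveringMap q N)
    (hc : Continuous q) :
    LiftK (Dg N) (Y × Y) (X × X) ⟨Prod.map q q, hc.prodMap hc⟩ := by
  have h1 := liftK_one hq hc
  refine ⟨?_, ?_, ?_⟩
  · intro k a
    have ha : q (k.1 • a.1) = q a.1 := h1.inv k.1 a.1
    have hb : q (k.2 • a.2) = q a.2 := h1.inv k.2 a.2
    exact Prod.ext ha hb
  · intro n σ
    obtain ⟨τ₁, h₁⟩ := h1.ex n (ContinuousMap.fst.comp σ)
    obtain ⟨τ₂, h₂⟩ := h1.ex n (ContinuousMap.snd.comp σ)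
    refine ⟨τ₁.prodMk τ₂, ?_⟩
    ext x
    · exact DFunLike.congr_fun h₁ x
    · exact DFunLike.congr_fun h₂ x
  · intro n τ τ' hτ
    have ha : (ContinuousMap.comp ⟨q, hc⟩ (ContinuousMap.fst.comp τ)) =
        ContinuousMap.comp ⟨q, hc⟩ (ContinuousMap.fst.comp τ') := by
      ext x
      exact congrArg Prod.fst (DFunLike.congr_fun hτ x)
    have hb : (ContinuousMap.comp ⟨q, hc⟩ (ContinuousMap.snd.comp τ)) =
        ContinuousMap.comp ⟨q, hc⟩ (ContinuousMap.snd.comp τ') := by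
      ext x
      exact congrArg Prod.snd (DFunLike.congr_fun hτ x)
    obtain ⟨k₁, hk₁⟩ := h1.un n _ _ ha
    obtain ⟨k₂, hk₂⟩ := h1.un n _ _ hb
    refine ⟨(k₁, k₂), ?_⟩
    refine ContinuousMap.ext fun x => ?_
    exact Prod.ext (DFunLike.congr_fun hk₁ x) (DFunLike.congr_fun hk₂ x)


theorem acyc_of (H : Type) [TopologicalSpace H] [ContractibleSpace H] : Acyc H := by
  intro n u hu
  obtain ⟨c, ⟨F0⟩⟩ := id_nullhomotopic H
  let F : C(H × unitInterval, H) := F0.toContinuousMap.comp ⟨Prod.swap, continuous_swap⟩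
  obtain ⟨v, hv, -⟩ := prism F u hu
  have hF0 : ∀ σ : Sing H (n + 1), F.comp (σ.prodMk (ContinuousMap.const _ 0)) = σ := by
    intro σ
    ext x
    exact F0.apply_zero (σ x)
  have hF1 : ∀ σ : Sing H (n + 1), F.comp (σ.prodMk (ContinuousMap.const _ 1)) =
      (ContinuousMap.const _ c : Sing H (n + 1)) := by
    intro σ
    ext x
    exact F0.apply_one (σ x)
  set a : F2 := u (ContinuousMap.const _ c : Sing H (n + 1)) with ha
  have h3 : (n + 1 + 2) • a = 0 := by
    have h := congrFun hu (ContinuousMap.const _ c : Sing H (n + 1 + 1))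
    rw [dl_apply] at h
    have e : ∀ i : Fin (n + 1 + 2), u (sface (n + 1) i
        (ContinuousMap.const _ c : Sing H (n + 1 + 1))) = a := fun i => rfl
    simp_rw [e] at h
    simpa using h
  have h2 : (n + 2) • a = a := by
    have e : (n + 1 + 2) • a = (n + 2) • a + a := by
      rw [show n + 1 + 2 = (n + 2) + 1 by omega, succ_nsmul]
    rw [e] at h3
    have h4 := eq_neg_of_add_eq_zero_left h3
    rw [h4]
    exact CharTwo.neg_eq a
  refine ⟨v + fun _ => a, ?_⟩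
  funext σ
  rw [map_add, Pi.add_apply, hv σ, hF0, hF1, dl_apply (c := fun _ => a)]
  simp only [Finset.sum_const, Finset.card_univ, Fintype.card_fin]
  rw [h2, ← ha, add_right_comm, CharTwo.add_self_eq_zero, zero_add]

theorem conn_of (H : Type) [TopologicalSpace H] [PathConnectedSpace H] : Conn H := by
  intro v hv σ σ'
  let pt : stdSimplex ℝ (Fin (0 + 1)) := stdSimplex.vertex 0
  let γ : Path (σ pt) (σ' pt) := PathConnectedSpace.somePath _ _
  let τ : Sing H (0 + 1) :=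
    ⟨fun p => γ ⟨p 1, stdSimplex.zero_le p 1, stdSimplex.le_one p 1⟩, by
      refine γ.continuous.comp (Continuous.subtype_mk ?_ _)
      exact (continuous_apply (1 : Fin (0 + 1 + 1))).comp continuous_subtype_val⟩
  have hs : Subsingleton (stdSimplex ℝ (Fin (0 + 1))) :=
    inferInstanceAs (Subsingleton (stdSimplex ℝ (Fin 1)))
  have h0 : sface 0 0 τ = σ' := by
    ext x
    rw [Subsingleton.elim x pt]
    change γ ⟨(stdSimplex.map (Fin.succAbove (0 : Fin (0 + 2))) pt) 1,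
        stdSimplex.zero_le _ 1, stdSimplex.le_one _ 1⟩ = σ' pt
    have e : (stdSimplex.map (Fin.succAbove (0 : Fin (0 + 2))) pt) (1 : Fin 2) = (1 : ℝ) := by
      change (stdSimplex.map (Fin.succAbove (0 : Fin (0 + 2)))
        (stdSimplex.vertex (S := ℝ) (0 : Fin (0 + 1)))) (1 : Fin 2) = (1 : ℝ)
      rw [stdSimplex.map_vertex, stdSimplex.vertex_coe]
      simp
    have e2 : (⟨(stdSimplex.map (Fin.succAbove (0 : Fin (0 + 2))) pt) 1,
        stdSimplex.zero_le _ 1, stdSimplex.le_one _ 1⟩ : unitInterval) = 1 := Subtype.ext e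
    rw [e2]
    exact γ.target
  have h1 : sface 0 1 τ = σ := by
    ext x
    rw [Subsingleton.elim x pt]
    change γ ⟨(stdSimplex.map (Fin.succAbove (1 : Fin (0 + 2))) pt) 1,
        stdSimplex.zero_le _ 1, stdSimplex.le_one _ 1⟩ = σ pt
    have e : (stdSimplex.map (Fin.succAbove (1 : Fin (0 + 2))) pt) (1 : Fin 2) = (0 : ℝ) := by
      change (stdSimplex.map (Fin.succAbove (1 : Fin (0 + 2)))
        (stdSimplex.vertex (S := ℝ) (0 : Fin (0 + 1)))) (1 : Fin 2) = (0 : ℝ)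
      rw [stdSimplex.map_vertex, stdSimplex.vertex_coe]
      simp
    have e2 : (⟨(stdSimplex.map (Fin.succAbove (1 : Fin (0 + 2))) pt) 1,
        stdSimplex.zero_le _ 1, stdSimplex.le_one _ 1⟩ : unitInterval) = 0 := Subtype.ext e
    rw [e2]
    exact γ.source
  have h := congrFun hv τ
  rw [dl_apply] at h
  have h2 : ∑ i : Fin (0 + 2), v (sface 0 i τ) = v (sface 0 0 τ) + v (sface 0 1 τ) :=
    Fin.sum_univ_two _
  rw [h2, h0, h1] at h
  have h3 := eq_neg_of_add_eq_zero_left h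
  rw [h3]
  exact (CharTwo.neg_eq _).symm

/-- labels for an open set with a homotopy section: lifting one homotopy -/
theorem lift_one {Γ Y M A : Type} [Group Γ] [TopologicalSpace Y] [TopologicalSpace M]
    [TopologicalSpace A] [MulAction Γ Y] [ContinuousConstSMul Γ Y] {m : Y → M}
    (hm : IsCoveringMap m) (hinv : ∀ (γ : Γ) (y : Y), m (γ • y) = m y)
    (H : C(unitInterval × A, M)) (f₀ : C(A, Y)) (h₀ : ∀ a, m (f₀ a) = H (0, a)) :
    ∃ f₁ : C(A, Y), (∀ a, m (f₁ a) = H (1, a)) ∧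
      ∀ (a a' : A) (γ : Γ), f₀ a' = γ • f₀ a → (∀ t, H (t, a') = H (t, a)) →
        f₁ a' = γ • f₁ a := by
  have h00 : ∀ a, H (0, a) = m (f₀ a) := fun a => (h₀ a).symm
  have hl : ∀ (t : unitInterval) (a : A), m (hm.liftHomotopy H f₀ h00 (t, a)) = H (t, a) :=
    fun t a => congr_fun (hm.liftHomotopy_lifts H f₀ h00) (t, a)
  have hz : ∀ a : A, hm.liftHomotopy H f₀ h00 (0, a) = f₀ a := hm.liftHomotopy_zero H f₀ h00
  refine ⟨⟨fun a => hm.liftHomotopy H f₀ h00 (1, a), by fun_prop⟩, fun a => hl 1 a, ?_⟩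
  intro a a' γ h1 h2
  have hc1 : Continuous fun t : unitInterval => hm.liftHomotopy H f₀ h00 (t, a') := by fun_prop
  have hc2 : Continuous fun t : unitInterval => γ • hm.liftHomotopy H f₀ h00 (t, a) := by
    refine (continuous_const_smul γ).comp ?_
    fun_prop
  have key := hm.eq_of_comp_eq hc1 hc2 (by
    funext t
    show m (hm.liftHomotopy H f₀ h00 (t, a')) = m (γ • hm.liftHomotopy H f₀ h00 (t, a))
    rw [hinv, hl, hl, h2]) 0 (by
    show hm.liftHomotopy H f₀ h00 (0, a') = γ • hm.liftHomotopy H f₀ h00 (0, a)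
    rw [hz, hz, h1])
  exact congr_fun key 1

/-- the quotient by the large group -/
theorem quot_map {Γ G X Y : Type} [Group Γ] [Group G] [TopologicalSpace X] [MulAction G X]
    [TopologicalSpace Y] [T2Space Y] [LocallyCompactSpace Y] [MulAction Γ Y]
    [ContinuousConstSMul Γ Y] [ProperlyDiscontinuousSMul Γ Y]
    (hfree : ∀ (γ : Γ) (y : Y), γ • y = y → γ = 1) (φ : Γ →* G)
    (hφ : Function.Surjective φ) (q : Y → X) (hq : IsQuotientMap q)
    (hqf : ∀ z w, q z = q w ↔ ∃ γ, φ γ = 1 ∧ γ • z = w)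
    (hqe : ∀ γ z, q (γ • z) = φ γ • q z) :
    ∃ (M : Type) (_ : TopologicalSpace M) (m : Y → M) (m' : C(X, M)), IsCoveringMap m ∧
      (∀ y, m' (q y) = m y) ∧ (∀ (h : G) (x : X), m' (h • x) = m' x) ∧
      (∀ (γ : Γ) (y : Y), m (γ • y) = m y) ∧ ∀ y y', m y = m y' → ∃ γ : Γ, y = γ • y' := by
  haveI hcs : IsCancelSMul Γ Y := isCancelSMul_iff_eq_one_of_smul_eq.mpr hfree
  have hcov : IsQuotientCoveringMap (Quotient.mk (MulAction.orbitRel Γ Y)) Γ :=
    isQuotientCoveringMap_quotientMk_of_properlyDiscontinuousSMul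
  have hmi : ∀ (γ : Γ) (y : Y), (Quotient.mk (MulAction.orbitRel Γ Y) (γ • y)) =
      Quotient.mk (MulAction.orbitRel Γ Y) y := by
    intro γ y
    exact Quotient.sound ⟨γ, rfl⟩
  have hfac : ∀ z w, q z = q w → Quotient.mk (MulAction.orbitRel Γ Y) z =
      Quotient.mk (MulAction.orbitRel Γ Y) w := by
    intro z w h
    obtain ⟨γ, _, h2⟩ := (hqf z w).mp h
    rw [← h2, hmi]
  have hmc : Continuous (Quotient.mk (MulAction.orbitRel Γ Y)) := continuous_quotient_mk'
  let m' : X → Quotient (MulAction.orbitRel Γ Y) := fun x =>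
    Quotient.mk (MulAction.orbitRel Γ Y) (Function.surjInv hq.surjective x)
  have hm' : ∀ y, m' (q y) = Quotient.mk (MulAction.orbitRel Γ Y) y := by
    intro y
    exact hfac _ _ (Function.surjInv_eq hq.surjective (q y))
  have hmc' : Continuous m' := by
    rw [hq.continuous_iff]
    have : m' ∘ q = Quotient.mk (MulAction.orbitRel Γ Y) := funext hm'
    rw [this]
    exact hmc
  refine ⟨Quotient (MulAction.orbitRel Γ Y), inferInstance, Quotient.mk (MulAction.orbitRel Γ Y),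
    ⟨m', hmc'⟩, hcov.isCoveringMap, hm', ?_, hmi, ?_⟩
  · intro h x
    obtain ⟨z, rfl⟩ := hq.surjective x
    obtain ⟨γ, rfl⟩ := hφ h
    show m' (φ γ • q z) = m' (q z)
    rw [← hqe, hm', hm', hmi]
  · intro y y' h
    obtain ⟨γ, h2⟩ := Quotient.exact h
    exact ⟨γ, h2.symm⟩

/-- from a lifted end point map to locally constant labels -/
theorem label_of {Γ Y : Type} [Group Γ] [TopologicalSpace Y] [T2Space Y] [LocallyCompactSpace Y]
    [MulAction Γ Y] [ContinuousConstSMul Γ Y] [ProperlyDiscontinuousSMul Γ Y]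
    (hfree : ∀ (γ : Γ) (y : Y), γ • y = y → γ = 1) (N : Subgroup Γ) (V : Set (Y × Y))
    (hV : IsOpen V) (hVN : ∀ (g : Dg N) (y : Y × Y), y ∈ V → g • y ∈ V) (e : C(V, Y))
    (he : ∀ y : V, ∃ γ : Γ, e y = γ • y.1.2)
    (heq : ∀ (g : Dg N) (y : Y × Y) (hy : y ∈ V) (hy' : g • y ∈ V),
      e ⟨g • y, hy'⟩ = (g.1 : Γ) • e ⟨y, hy⟩) :
    ∃ f : Y × Y → Γ, (∀ (g : Dg N) (y : Y × Y), y ∈ V → f (g • y) = g • f y) ∧
      ∀ y ∈ V, ∀ᶠ y' in 𝓝 y, f y' = f y := by
  classical
  have huniq : ∀ (γ γ' : Γ) (z : Y), γ • z = γ' • z → γ = γ' := by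
    intro γ γ' z h
    have h1 : (γ'⁻¹ * γ) • z = z := by
      rw [mul_smul, h, inv_smul_smul]
    have h2 := hfree _ _ h1
    rw [inv_mul_eq_one] at h2
    exact h2.symm
  let f : Y × Y → Γ := fun y => if h : y ∈ V then (he ⟨y, h⟩).choose else 1
  have hf : ∀ (y : Y × Y) (h : y ∈ V), e ⟨y, h⟩ = f y • y.2 := by
    intro y h
    have h1 := (he ⟨y, h⟩).choose_spec
    have h2 : f y = (he ⟨y, h⟩).choose := by
      show (if h : y ∈ V then (he ⟨y, h⟩).choose else 1) = _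
      rw [dif_pos h]
    rw [h2]
    exact h1
  refine ⟨f, ?_, ?_⟩
  · intro g y hy
    have hy' := hVN g y hy
    have h1 := heq g y hy hy'
    rw [hf _ hy', hf y hy] at h1
    have h2 : (g • y).2 = (g.2 : Γ) • y.2 := rfl
    rw [h2, smul_smul, smul_smul] at h1
    have h3 := huniq _ _ _ h1
    rw [Dg.smul_def]
    rw [← h3, mul_inv_cancel_right]
  · intro y hy
    obtain ⟨U, hU, hUp⟩ :=
      ProperlyDiscontinuousSMul.exists_nhds_image_smul_eq_self Γ y.2
    have hmap : 𝓝 y = Filter.map (Subtype.val : V → Y × Y) (𝓝 (⟨y, hy⟩ : V)) :=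
      (hV.isOpenEmbedding_subtypeVal.map_nhds_eq ⟨y, hy⟩).symm
    rw [hmap, Filter.eventually_map]
    have hc1 : ∀ᶠ y' : V in 𝓝 (⟨y, hy⟩ : V), y'.1.2 ∈ U := by
      have hcont : ContinuousAt (fun y' : V => y'.1.2) (⟨y, hy⟩ : V) :=
        (continuous_snd.comp continuous_subtype_val).continuousAt
      exact hcont.eventually hU
    have hc2 : ∀ᶠ y' : V in 𝓝 (⟨y, hy⟩ : V), (f y)⁻¹ • e y' ∈ U := by
      have hcont : ContinuousAt (fun y' : V => (f y)⁻¹ • e y') (⟨y, hy⟩ : V) :=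
        (e.continuous.const_smul _).continuousAt
      apply hcont.eventually
      show U ∈ 𝓝 ((f y)⁻¹ • e ⟨y, hy⟩)
      rw [hf y hy, inv_smul_smul]
      exact hU
    filter_upwards [hc1, hc2] with y' h1 h2
    have h3 : (f y)⁻¹ • e y' = ((f y)⁻¹ * f y'.1) • y'.1.2 := by
      have h4 := hf y'.1 y'.2
      rw [mul_smul, ← h4]
    rw [h3] at h2
    have h5 := hUp ((f y)⁻¹ * f y'.1) ⟨_, ⟨y'.1.2, h1, rfl⟩, h2⟩
    have h6 := hfree _ _ h5
    rw [inv_mul_eq_one] at h6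
    exact h6.symm

/-- labels for an open set with a homotopy section -/
theorem labels {Γ G X Y : Type} [Group Γ] [Group G] [TopologicalSpace G] [DiscreteTopology G]
    [TopologicalSpace X] [MulAction G X] [TopologicalSpace Y] [T2Space Y] [LocallyCompactSpace Y]
    [MulAction Γ Y] [ContinuousConstSMul Γ Y] [ProperlyDiscontinuousSMul Γ Y]
    (hfree : ∀ (γ : Γ) (y : Y), γ • y = y → γ = 1) (φ : Γ →* G)
    (hφ : Function.Surjective φ) (q : Y → X) (hq : IsQuotientMap q)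
    (hqf : ∀ z w, q z = q w ↔ ∃ γ, φ γ = 1 ∧ γ • z = w)
    (hqe : ∀ γ z, q (γ • z) = φ γ • q z) (U : Set (X × X)) (hU : IsOpen U)
    (s : C(U, EG G X))
    (hs : ((ends G X).comp s).Homotopic ⟨Subtype.val, continuous_subtype_val⟩) :
    ∃ f : Y × Y → Γ, (∀ (g : Dg φ.ker) (y : Y × Y), (q y.1, q y.2) ∈ U → f (g • y) = g • f y) ∧
      ∀ y : Y × Y, (q y.1, q y.2) ∈ U → ∀ᶠ y' in 𝓝 y, f y' = f y := by
  obtain ⟨M, instM, m, m', hcov, hqm, hm', hinv, hexm⟩ := quot_map hfree φ hφ q hq hqf hqe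
  obtain ⟨Hm⟩ := hs
  have hqc : Continuous q := hq.continuous
  set V : Set (Y × Y) := {y | (q y.1, q y.2) ∈ U} with hV
  have hqq : Continuous (fun y : Y × Y => (q y.1, q y.2)) :=
    (hqc.comp continuous_fst).prodMk (hqc.comp continuous_snd)
  have hVo : IsOpen V := hU.preimage hqq
  let uu : C(V, U) := ⟨fun y => ⟨(q y.1.1, q y.1.2), y.2⟩,
    (hqq.comp continuous_subtype_val).subtype_mk _⟩
  let H1 : C(unitInterval × V, M) := ⟨fun p => m' (Hm (unitInterval.symm p.1, uu p.2)).1, by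
    refine m'.continuous.comp (continuous_fst.comp (Hm.continuous.comp ?_))
    exact (unitInterval.continuous_symm.comp continuous_fst).prodMk
      (uu.continuous.comp continuous_snd)⟩
  let H2 : C(unitInterval × V, M) := ⟨fun p => m' ((s (uu p.2)).1.1 p.1), by
    refine m'.continuous.comp ?_
    refine Continuous.eval ?_ continuous_fst
    exact continuous_fst.comp (continuous_subtype_val.comp
      (s.continuous.comp (uu.continuous.comp continuous_snd)))⟩
  let H3 : C(unitInterval × V, M) := ⟨fun p => m' ((s (uu p.2)).1.2.2 p.1), by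
    refine m'.continuous.comp ?_
    refine Continuous.eval ?_ continuous_fst
    exact continuous_snd.comp (continuous_snd.comp (continuous_subtype_val.comp
      (s.continuous.comp (uu.continuous.comp continuous_snd))))⟩
  let H4 : C(unitInterval × V, M) := ⟨fun p => m' (Hm (p.1, uu p.2)).2, by
    refine m'.continuous.comp (continuous_snd.comp (Hm.continuous.comp ?_))
    exact continuous_fst.prodMk (uu.continuous.comp continuous_snd)⟩
  let f₀ : C(V, Y) := ⟨fun y => y.1.1, continuous_fst.comp continuous_subtype_val⟩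
  have hz : ∀ u : U, Hm (0, u) = ends G X (s u) := fun u => Hm.apply_zero u
  have ho : ∀ u : U, Hm (1, u) = u.1 := fun u => Hm.apply_one u
  have c0 : ∀ a, m (f₀ a) = H1 (0, a) := by
    intro a
    change m a.1.1 = m' (Hm (unitInterval.symm 0, uu a)).1
    rw [unitInterval.symm_zero, ho]
    exact (hqm a.1.1).symm
  obtain ⟨f₁, h1, e1⟩ := lift_one hcov hinv H1 f₀ c0
  have c1 : ∀ a, m (f₁ a) = H2 (0, a) := by
    intro a
    rw [h1]
    change m' (Hm (unitInterval.symm 1, uu a)).1 = m' ((s (uu a)).1.1 0)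
    rw [unitInterval.symm_one, hz]
    rfl
  obtain ⟨f₂, h2, e2⟩ := lift_one hcov hinv H2 f₁ c1
  have c2 : ∀ a, m (f₂ a) = H3 (0, a) := by
    intro a
    rw [h2]
    change m' ((s (uu a)).1.1 1) = m' ((s (uu a)).1.2.2 0)
    rw [← (s (uu a)).2, hm']
  obtain ⟨f₃, h3, e3⟩ := lift_one hcov hinv H3 f₂ c2
  have c3 : ∀ a, m (f₃ a) = H4 (0, a) := by
    intro a
    rw [h3]
    change m' ((s (uu a)).1.2.2 1) = m' (Hm (0, uu a)).2
    rw [hz]
    rfl
  obtain ⟨f₄, h4, e4⟩ := lift_one hcov hinv H4 f₃ c3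
  have hend : ∀ a : V, m (f₄ a) = m a.1.2 := by
    intro a
    rw [h4]
    change m' (Hm (1, uu a)).2 = m a.1.2
    rw [ho]
    exact hqm a.1.2
  have hk : ∀ (g : φ.ker) (y : Y), q ((g : Γ) • y) = q y := by
    intro g y
    rw [hqe, (MonoidHom.mem_ker.1 g.2 : φ (g : Γ) = 1), one_smul]
  have hVN : ∀ (g : Dg φ.ker) (y : Y × Y), y ∈ V → g • y ∈ V := by
    intro g y hy
    change (q ((g.1 : Γ) • y.1), q ((g.2 : Γ) • y.2)) ∈ U
    rw [hk g.1, hk g.2]
    exact hy
  refine label_of hfree φ.ker V hVo hVN f₄ (fun y => hexm _ _ (hend y)) ?_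
  intro g y hy hy'
  have huu : uu ⟨g • y, hy'⟩ = uu ⟨y, hy⟩ := by
    apply Subtype.ext
    change (q ((g.1 : Γ) • y.1), q ((g.2 : Γ) • y.2)) = (q y.1, q y.2)
    rw [hk g.1, hk g.2]
  have s0 : f₀ ⟨g • y, hy'⟩ = (g.1 : Γ) • f₀ ⟨y, hy⟩ := rfl
  have s1 := e1 ⟨y, hy⟩ ⟨g • y, hy'⟩ (g.1 : Γ) s0 (fun t => by
    change m' (Hm (unitInterval.symm t, uu ⟨g • y, hy'⟩)).1 =
      m' (Hm (unitInterval.symm t, uu ⟨y, hy⟩)).1
    rw [huu])
  have s2 := e2 ⟨y, hy⟩ ⟨g • y, hy'⟩ (g.1 : Γ) s1 (fun t => by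
    change m' ((s (uu ⟨g • y, hy'⟩)).1.1 t) = m' ((s (uu ⟨y, hy⟩)).1.1 t)
    rw [huu])
  have s3 := e3 ⟨y, hy⟩ ⟨g • y, hy'⟩ (g.1 : Γ) s2 (fun t => by
    change m' ((s (uu ⟨g • y, hy'⟩)).1.2.2 t) = m' ((s (uu ⟨y, hy⟩)).1.2.2 t)
    rw [huu])
  exact e4 ⟨y, hy⟩ ⟨g • y, hy'⟩ (g.1 : Γ) s3 (fun t => by
    change m' (Hm (t, uu ⟨g • y, hy'⟩)).2 = m' (Hm (t, uu ⟨y, hy⟩)).2
    rw [huu])

/-- combining labels of a cover by four open sets -/
theorem colors {K P H B : Type} [Group K] [MulAction K P] [TopologicalSpace H] [MulAction K H]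
    [TopologicalSpace B] [NormalSpace B] (f : C(H, B)) (hf : ∀ (k : K) (y : H), f (k • y) = f y)
    (U : Fin 4 → Set B) (hU : ∀ i, IsOpen (U i)) (hcov : ⋃ i, U i = univ) (F : Fin 4 → H → P)
    (hFe : ∀ (i : Fin 4) (k : K) (y : H), f y ∈ U i → F i (k • y) = k • F i y)
    (hFc : ∀ (i : Fin 4) (y : H), f y ∈ U i → ∀ᶠ y' in 𝓝 y, F i y' = F i y) :
    ∃ W : Set (Set B), (∀ V ∈ W, IsOpen V) ∧ (∀ b : B, ∃ V ∈ W, b ∈ V) ∧
      ∃ l : H → P, (∀ (k : K) (y : H), l (k • y) = k • l y) ∧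
        ∀ σ : Sing H 4, (∃ V ∈ W, ∀ x, f (σ x) ∈ V) →
          ¬ Function.Injective (fun i : Fin 5 => l (σ (vert 4 i))) := by
  obtain ⟨V, hVu, hVc, hVU⟩ := exists_iUnion_eq_closed_subset hU (fun x => Set.toFinite _) hcov
  have hex : ∀ b : B, ∃ i, b ∈ V i := fun b => by
    have : b ∈ ⋃ i, V i := by rw [hVu]; trivial
    exact Set.mem_iUnion.1 this
  choose c hc using hex
  refine ⟨Set.range fun b : B => {x : B | ∀ i, (b ∈ V i → x ∈ U i) ∧ (b ∉ V i → x ∉ V i)},
    ?_, ?_, fun y => F (c (f y)) y, ?_, ?_⟩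
  · rintro _ ⟨b, rfl⟩
    have h1 : {x : B | ∀ i, (b ∈ V i → x ∈ U i) ∧ (b ∉ V i → x ∉ V i)} =
        ⋂ i, {x : B | (b ∈ V i → x ∈ U i) ∧ (b ∉ V i → x ∉ V i)} := by
      ext x
      simp only [Set.mem_ofPred_eq, Set.mem_iInter]
    show IsOpen {x : B | ∀ i, (b ∈ V i → x ∈ U i) ∧ (b ∉ V i → x ∉ V i)}
    rw [h1]
    refine isOpen_iInter_of_finite fun i => ?_
    by_cases hb : b ∈ V i
    · have h2 : {x : B | (b ∈ V i → x ∈ U i) ∧ (b ∉ V i → x ∉ V i)} = U i := by
        ext x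
        simp only [Set.mem_ofPred_eq]
        exact ⟨fun h => h.1 hb, fun h => ⟨fun _ => h, fun h' => absurd hb h'⟩⟩
      rw [h2]
      exact hU i
    · have h2 : {x : B | (b ∈ V i → x ∈ U i) ∧ (b ∉ V i → x ∉ V i)} = (V i)ᶜ := by
        ext x
        simp only [Set.mem_ofPred_eq, Set.mem_compl_iff]
        exact ⟨fun h => h.2 hb, fun h => ⟨fun h' => absurd h' hb, fun _ => h⟩⟩
      rw [h2]
      exact (hVc i).isOpen_compl
  · intro b
    exact ⟨_, ⟨b, rfl⟩, fun i => ⟨fun h => hVU i h, fun h => h⟩⟩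
  · intro k y
    show F (c (f (k • y))) (k • y) = k • F (c (f y)) y
    rw [hf]
    exact hFe _ k y (hVU _ (hc _))
  · rintro σ ⟨_, ⟨b, rfl⟩, hσ⟩ hinj
    obtain ⟨i, j, hij, hcij⟩ := Fintype.exists_ne_map_eq_of_card_lt
      (fun i : Fin 5 => c (f (σ (vert 4 i)))) (by simp)
    have hcij' : c (f (σ (vert 4 i))) = c (f (σ (vert 4 j))) := hcij
    have hbV : b ∈ V (c (f (σ (vert 4 i)))) := by
      by_contra hcon
      exact ((hσ (vert 4 i)) (c (f (σ (vert 4 i))))).2 hcon (hc _)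
    have hall : ∀ x, f (σ x) ∈ U (c (f (σ (vert 4 i)))) := fun x =>
      ((hσ x) (c (f (σ (vert 4 i))))).1 hbV
    have hloc : IsLocallyConstant (fun x => F (c (f (σ (vert 4 i)))) (σ x)) := by
      rw [IsLocallyConstant.iff_eventually_eq]
      intro x
      exact σ.continuous.continuousAt.eventually (hFc _ _ (hall x))
    haveI : PreconnectedSpace (stdSimplex ℝ (Fin (4 + 1))) :=
      Subtype.preconnectedSpace (convex_stdSimplex ℝ (Fin (4 + 1))).isPreconnected
    have heq := hloc.apply_eq_of_preconnectedSpace (vert 4 i) (vert 4 j)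
    apply hij
    apply hinj
    show F (c (f (σ (vert 4 i)))) (σ (vert 4 i)) = F (c (f (σ (vert 4 j)))) (σ (vert 4 j))
    rw [← hcij']
    exact heq

theorem vfour_pull {A B : Type} [TopologicalSpace A] [TopologicalSpace B] (f : C(A, B)) {n : ℕ}
    (u : Co B n) (σ : Sing A (n + 1)) :
    dl n (fun τ : Sing A n => u (f.comp τ)) σ = dl n u (f.comp σ) := by
  rw [dl_apply, dl_apply]
  rfl

/-- invariant cocycles for the stabilizer of one point -/
theorem vfour {Γ X Y : Type} [Group Γ] [TopologicalSpace X] [TopologicalSpace Y] [MulAction Γ Y]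
    [ContinuousConstSMul Γ Y] [DecidableEq Γ] (N : Subgroup Γ) [N.Normal] (f : C(Y, X))
    (hL : LiftK N Y X f) (hX : Cy X 4 = Bd X 4) (F : C((Y × Y) × unitInterval, Y))
    (hF0 : ∀ y : Y × Y, F (y, 0) = y.1) (hF1 : ∀ y : Y × Y, F (y, 1) = y.2)
    (hFe : ∀ (γ : Γ) (y : Y × Y) (t : unitInterval), F ((γ • y.1, γ • y.2), t) = γ • F (y, t))
    (p : Γ) (u : Co (Y × Y) 4) (hu : dl 4 u = 0) (hinv : Sinv (Dg N) {p} u) :
    ∃ v : Co (Y × Y) 3, dl 3 v = u ∧ Sinv (Dg N) {p} v := by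
  let S : C(Y, Y × Y) := ⟨fun w => (p • w, w), by fun_prop⟩
  let R : C(Y × Y, Y) := ⟨fun y => y.2, continuous_snd⟩
  let Fh : C((Y × Y) × unitInterval, Y × Y) :=
    ⟨fun z => (F ((z.1.1, p • z.1.2), z.2), z.1.2), by fun_prop⟩
  let uD : Co Y 4 := fun τ => u (S.comp τ)
  have hd : dl 4 uD = 0 := by
    funext σ
    have := vfour_pull S u σ
    rw [hu] at this
    exact this
  have hstab : ∀ g : Dg N, g • ({p} : Finset Γ) = {p} → (g.1 : Γ) * p = p * (g.2 : Γ) := by
    intro g hg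
    rw [Finset.smul_finset_singleton, Finset.singleton_inj] at hg
    have h1 : (g.1 : Γ) * p * (g.2 : Γ)⁻¹ = p := hg
    rw [mul_inv_eq_iff_eq_mul] at h1
    exact h1
  have huD : ∀ (b : N) (σ : Sing Y 4), uD (b • σ) = uD σ := by
    intro b σ
    have hmem : p * (b : Γ) * p⁻¹ ∈ N := Subgroup.Normal.conj_mem inferInstance _ b.2 p
    let g : Dg N := ((⟨p * (b : Γ) * p⁻¹, hmem⟩ : N), b)
    have hg : g • ({p} : Finset Γ) = {p} := by
      rw [Finset.smul_finset_singleton, Finset.singleton_inj]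
      show (p * (b : Γ) * p⁻¹) * p * (b : Γ)⁻¹ = p
      group
    have h1 := hinv g hg (S.comp σ)
    have h2 : g • S.comp σ = S.comp (b • σ) := by
      ext x
      · show (p * (b : Γ) * p⁻¹) • (p • σ x) = p • ((b : Γ) • σ x)
        rw [smul_smul, smul_smul]
        congr 1
        group
      · rfl
    rw [h2] at h1
    exact h1
  obtain ⟨vD, hvD1, hvD2⟩ := hL.prim (n := 3) hX uD huD hd
  obtain ⟨v0, hv01, hv02⟩ := prism (n := 3) Fh u hu
  refine ⟨fun σ => v0 σ + vD (R.comp σ), ?_, ?_⟩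
  · funext σ
    have e1 : dl 3 (fun σ : Sing (Y × Y) 3 => v0 σ + vD (R.comp σ)) σ
        = dl 3 v0 σ + dl 3 (fun τ : Sing (Y × Y) 3 => vD (R.comp τ)) σ := by
      have : (fun σ : Sing (Y × Y) 3 => v0 σ + vD (R.comp σ))
          = v0 + (fun τ : Sing (Y × Y) 3 => vD (R.comp τ)) := rfl
      rw [this, map_add]
      rfl
    rw [e1, vfour_pull R vD σ, hvD2, hv01 σ]
    have e2 : Fh.comp (σ.prodMk (ContinuousMap.const _ 0)) = σ := by
      ext x
      · show F (((σ x).1, p • (σ x).2), 0) = (σ x).1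
        rw [hF0]
      · rfl
    have e3 : u (Fh.comp (σ.prodMk (ContinuousMap.const _ 1))) = uD (R.comp σ) := by
      show _ = u (S.comp (R.comp σ))
      congr 1
      ext x
      · show F (((σ x).1, p • (σ x).2), 1) = p • (σ x).2
        rw [hF1]
      · rfl
    rw [e2, e3]
    have e4 : uD (R.comp σ) + uD (R.comp σ) = 0 := CharTwo.add_self_eq_zero _
    calc uD (R.comp σ) + u σ + uD (R.comp σ) = u σ + (uD (R.comp σ) + uD (R.comp σ)) := by ring
      _ = u σ := by rw [e4, add_zero]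
  · intro g hg σ
    have hgp := hstab g hg
    let a : C(Y × Y, Y × Y) := ⟨fun y => g • y, continuous_const_smul g⟩
    have h1 := hv02 a a (by
      intro x t
      show (F (((g.1 : Γ) • x.1, p • ((g.2 : Γ) • x.2)), t), (g.2 : Γ) • x.2)
        = ((g.1 : Γ) • F ((x.1, p • x.2), t), (g.2 : Γ) • x.2)
      rw [← hFe (g.1 : Γ) (x.1, p • x.2) t]
      have : p • ((g.2 : Γ) • x.2) = (g.1 : Γ) • (p • x.2) := by
        rw [smul_smul, smul_smul, hgp]
      rw [this]) (fun τ => hinv g hg τ) σ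
    have h2 : a.comp σ = g • σ := rfl
    rw [h2] at h1
    have h3 : R.comp (g • σ) = g.2 • R.comp σ := rfl
    show v0 (g • σ) + vD (R.comp (g • σ)) = v0 σ + vD (R.comp σ)
    rw [h1, h3, hvD1]

theorem chart_prod (X : Type) [TopologicalSpace X] [ChartedSpace (EuclideanSpace ℝ (Fin 2)) X] :
    Nonempty (ChartedSpace (EuclideanSpace ℝ (Fin 4)) (X × X)) := by
  have hfr : Module.finrank ℝ (EuclideanSpace ℝ (Fin 2) × EuclideanSpace ℝ (Fin 2)) =
      Module.finrank ℝ (EuclideanSpace ℝ (Fin 4)) := by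
    simp
  let e : (EuclideanSpace ℝ (Fin 2) × EuclideanSpace ℝ (Fin 2)) ≃ₜ EuclideanSpace ℝ (Fin 4) :=
    (ContinuousLinearEquiv.ofFinrankEq hfr).toHomeomorph
  refine ⟨{
    atlas := Set.univ
    chartAt := fun x => ((chartAt (EuclideanSpace ℝ (Fin 2)) x.1).prod
      (chartAt (EuclideanSpace ℝ (Fin 2)) x.2)).transHomeomorph e
    mem_chart_source := ?_
    chart_mem_atlas := ?_ }⟩
  · intro x
    exact ⟨mem_chart_source _ x.1, mem_chart_source _ x.2⟩
  · intro x
    exact Set.mem_univ _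

end Pool.Agent.Helper158.TC
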